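import Pool.Agent.KO.Xb.St

/-!
# Project KO, row Xd-D1: the central fibre is quasi-smooth outside of `Γ`
-/

set_option autoImplicit false
set_option maxHeartbeats 400000

namespace Pool.Agent.KO

open Set Filter Topology

/-- The differential of `G`. -/
def xd1_D (p v : Fin 6 → ℂ) : ℂ :=
  2 * p 4 * v 4 + 3 * p 3 ^ 2 * v 3 + (v 5 * p 2 ^ 11 + p 5 * (11 * p 2 ^ 10 * v 2)) +
    ((v 1 * p 0 + p 1 * v 0) * p 2 ^ 10 + p 1 * p 0 * (10 * p 2 ^ 9 * v 2)) +
    (12 * p 1 ^ 11 * v 1 * p 2 + p 1 ^ 12 * v 2) - 66 * p 0 ^ 65 * v 0 -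
    (12 * p 0 ^ 11 * v 0 * p 2 ^ 9 + p 0 ^ 12 * (9 * p 2 ^ 8 * v 2))

theorem xd1_differentiable : Differentiable ℂ G := by
  unfold G
  fun_prop

theorem xd1_fderiv (p v : Fin 6 → ℂ) : fderiv ℂ G p v = xd1_D p v := by
  have hc : ∀ i, HasDerivAt (fun s : ℂ => p i + s * v i) (v i) 0 := fun i => by
    simpa using ((hasDerivAt_id (0 : ℂ)).mul_const (v i)).const_add (p i)
  have h := ((((((((hc 4).fun_pow 2).fun_add ((hc 3).fun_pow 3)).fun_add
    ((hc 5).fun_mul ((hc 2).fun_pow 11))).fun_add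
    (((hc 1).fun_mul (hc 0)).fun_mul ((hc 2).fun_pow 10))).fun_add
    (((hc 1).fun_pow 12).fun_mul (hc 2))).fun_sub ((hc 0).fun_pow 66)).fun_sub
    (((hc 0).fun_pow 12).fun_mul ((hc 2).fun_pow 9)))
  have h1 : HasDerivAt (fun s : ℂ => p + s • v) v 0 := by
    simpa using ((hasDerivAt_id (0 : ℂ)).smul_const v).const_add p
  have h2 : HasFDerivAt G (fderiv ℂ G p) (p + (0 : ℂ) • v) := by
    rw [zero_smul, add_zero]
    exact (xd1_differentiable p).hasFDerivAt
  have h3 := h2.comp_hasDerivAt (0 : ℂ) h1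
  have h4 : HasDerivAt (fun s : ℂ => G (p + s • v)) (xd1_D p v) 0 := by
    have e : (fun s : ℂ => G (p + s • v)) = fun s : ℂ => ((p 4 + s * v 4) ^ 2 +
        (p 3 + s * v 3) ^ 3 + (p 5 + s * v 5) * (p 2 + s * v 2) ^ 11 +
        (p 1 + s * v 1) * (p 0 + s * v 0) * (p 2 + s * v 2) ^ 10 +
        (p 1 + s * v 1) ^ 12 * (p 2 + s * v 2) - (p 0 + s * v 0) ^ 66 -
        (p 0 + s * v 0) ^ 12 * (p 2 + s * v 2) ^ 9) := by
      funext s
      simp only [G, Pi.add_apply, Pi.smul_apply, smul_eq_mul]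
    rw [e]
    refine h.congr_deriv ?_
    simp only [xd1_D, zero_mul, add_zero]
    norm_num
  exact h3.unique h4

theorem xd1_euler (p : Fin 6 → ℂ) :
    p 0 * fderiv ℂ G p (Pi.single 0 1) + 5 * p 1 * fderiv ℂ G p (Pi.single 1 1) +
      6 * p 2 * fderiv ℂ G p (Pi.single 2 1) + 22 * p 3 * fderiv ℂ G p (Pi.single 3 1) +
      33 * p 4 * fderiv ℂ G p (Pi.single 4 1) = 66 * G p := by
  simp only [xd1_fderiv, xd1_D, G]
  simp
  ring

/-- The algebraic heart: the partial derivatives have no common zero outside of `Γ`. -/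
theorem xd1_alg (z u w : ℂ) (h0 : u * w ^ 10 - 66 * z ^ 65 - 12 * z ^ 11 * w ^ 9 = 0)
    (h1 : z * w ^ 10 + 12 * u ^ 11 * w = 0)
    (h2 : 10 * u * z * w ^ 9 + u ^ 12 - 9 * z ^ 12 * w ^ 8 = 0) : u = 0 ∧ z = 0 := by
  by_cases hw : w = 0
  · subst hw
    have hz : z = 0 := by
      have : z ^ 65 = 0 := by linear_combination -h0 / 66
      exact pow_eq_zero_iff (by norm_num) |>.1 this
    have hu : u = 0 := by
      have : u ^ 12 = 0 := by linear_combination h2
      exact pow_eq_zero_iff (by norm_num) |>.1 this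
    exact ⟨hu, hz⟩
  have h3 : z * w ^ 9 = -12 * u ^ 11 := by
    apply mul_left_cancel₀ hw
    linear_combination h1
  by_cases hu : u = 0
  · refine ⟨hu, ?_⟩
    rw [hu] at h3
    have h4 : z * w ^ 9 = 0 := by rw [h3]; ring
    rcases mul_eq_zero.1 h4 with h | h
    · exact h
    · exact absurd (pow_eq_zero_iff (by norm_num) |>.1 h) hw
  exfalso
  set a : ℂ := u ^ 6 / w ^ 5 with ha
  have h12 : z ^ 12 * w ^ 108 = 12 ^ 12 * u ^ 132 := by
    have : (z * w ^ 9) ^ 12 = (-12 * u ^ 11) ^ 12 := by rw [h3]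
    linear_combination this
  have h10 : z ^ 10 * w ^ 90 = 12 ^ 10 * u ^ 110 := by
    have : (z * w ^ 9) ^ 10 = (-12 * u ^ 11) ^ 10 := by rw [h3]
    linear_combination this
  have h65 : z ^ 65 * w ^ 585 = -(12 ^ 65 * u ^ 715) := by
    have : (z * w ^ 9) ^ 65 = (-12 * u ^ 11) ^ 65 := by rw [h3]
    linear_combination this
  -- first relation
  have hA : -119 * w ^ 100 = 9 * 12 ^ 12 * u ^ 120 := by
    apply mul_left_cancel₀ (pow_ne_zero 12 hu)
    linear_combination w ^ 100 * h2 + 9 * h12 - 10 * u * w ^ 100 * h3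
  -- second relation
  have h65' : 27 * z ^ 65 = -5 * u * w ^ 10 := by
    have hw90 : w ^ 90 ≠ 0 := pow_ne_zero 90 hw
    apply mul_left_cancel₀ hw90
    linear_combination (-27 / 66) * w ^ 90 * h0 - (27 * 12 / 66) * z ^ 10 * w ^ 90 * h3 +
      (27 * 144 / 66) * u ^ 11 * h10 - (27 / 66 / 9) * u * hA
  have hB : 27 * 12 ^ 65 * u ^ 714 = 5 * w ^ 595 := by
    apply mul_left_cancel₀ hu
    linear_combination -w ^ 585 * h65' + 27 * h65
  have ha20 : a ^ 20 = ((-(119 / (9 * 12 ^ 12)) : ℝ) : ℂ) := by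
    rw [ha, div_pow, ← pow_mul, ← pow_mul]
    push_cast
    rw [div_eq_iff (pow_ne_zero _ hw)]
    linear_combination (-1 / (9 * 12 ^ 12)) * hA
  have ha119 : a ^ 119 = ((5 / (27 * 12 ^ 65) : ℝ) : ℂ) := by
    rw [ha, div_pow, ← pow_mul, ← pow_mul]
    push_cast
    rw [div_eq_iff (pow_ne_zero _ hw)]
    linear_combination (1 / (27 * 12 ^ 65)) * hB
  have hc : (((-(119 / (9 * 12 ^ 12)) : ℝ) : ℂ)) ^ 119 = (((5 / (27 * 12 ^ 65) : ℝ) : ℂ)) ^ 20 := by
    rw [← ha20, ← ha119, ← pow_mul, ← pow_mul]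
  have c1 : (0 : ℝ) < 119 / (9 * 12 ^ 12) := by positivity
  have c2 : (0 : ℝ) < 5 / (27 * 12 ^ 65) := by positivity
  generalize (119 / (9 * 12 ^ 12) : ℝ) = r1 at hc c1
  generalize (5 / (27 * 12 ^ 65) : ℝ) = r2 at hc c2
  have hc' : (-r1) ^ 119 = r2 ^ 20 := by exact_mod_cast hc
  have hneg : (-r1) ^ 119 < 0 := Odd.pow_neg (by decide) (by linarith)
  have hpos : 0 < r2 ^ 20 := by positivity
  linarith

/-- **Row D1.** -/
theorem xd1 : SpQs := by
  intro p hG h5 hΓ i hi hpi
  by_contra hcon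
  push Not at hcon
  have hE := xd1_euler p
  rw [hG, mul_zero] at hE
  have all : ∀ j : Fin 6, j ≠ 5 → fderiv ℂ G p (Pi.single j 1) = 0 := by
    intro j hj
    by_cases hji : j = i
    · subst hji
      fin_cases j
      · have h1 := hcon 1 (by decide) (by decide)
        have h2 := hcon 2 (by decide) (by decide)
        have h3 := hcon 3 (by decide) (by decide)
        have h4 := hcon 4 (by decide) (by decide)
        rw [h1, h2, h3, h4] at hE
        have : p 0 * fderiv ℂ G p (Pi.single 0 1) = 0 := by linear_combination hE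
        exact (mul_eq_zero.1 this).resolve_left hpi
      · have h1 := hcon 0 (by decide) (by decide)
        have h2 := hcon 2 (by decide) (by decide)
        have h3 := hcon 3 (by decide) (by decide)
        have h4 := hcon 4 (by decide) (by decide)
        rw [h1, h2, h3, h4] at hE
        have : p 1 * fderiv ℂ G p (Pi.single 1 1) = 0 := by linear_combination hE / 5
        exact (mul_eq_zero.1 this).resolve_left hpi
      · have h1 := hcon 0 (by decide) (by decide)
        have h2 := hcon 1 (by decide) (by decide)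
        have h3 := hcon 3 (by decide) (by decide)
        have h4 := hcon 4 (by decide) (by decide)
        rw [h1, h2, h3, h4] at hE
        have : p 2 * fderiv ℂ G p (Pi.single 2 1) = 0 := by linear_combination hE / 6
        exact (mul_eq_zero.1 this).resolve_left hpi
      · have h1 := hcon 0 (by decide) (by decide)
        have h2 := hcon 1 (by decide) (by decide)
        have h3 := hcon 2 (by decide) (by decide)
        have h4 := hcon 4 (by decide) (by decide)
        rw [h1, h2, h3, h4] at hE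
        have : p 3 * fderiv ℂ G p (Pi.single 3 1) = 0 := by linear_combination hE / 22
        exact (mul_eq_zero.1 this).resolve_left hpi
      · have h1 := hcon 0 (by decide) (by decide)
        have h2 := hcon 1 (by decide) (by decide)
        have h3 := hcon 2 (by decide) (by decide)
        have h4 := hcon 3 (by decide) (by decide)
        rw [h1, h2, h3, h4] at hE
        have : p 4 * fderiv ℂ G p (Pi.single 4 1) = 0 := by linear_combination hE / 33
        exact (mul_eq_zero.1 this).resolve_left hpi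
      · exact absurd rfl hj
    · exact hcon j hji hj
  have d0 := all 0 (by decide)
  have d1 := all 1 (by decide)
  have d2 := all 2 (by decide)
  have d3 := all 3 (by decide)
  have d4 := all 4 (by decide)
  simp only [xd1_fderiv, xd1_D, h5] at d0 d1 d2 d3 d4
  simp at d0 d1 d2 d3 d4
  have hx : p 3 = 0 := d3
  have hy : p 4 = 0 := d4
  obtain ⟨hu, hz⟩ := xd1_alg (p 0) (p 1) (p 2) (by linear_combination d0)
    (by linear_combination d1) (by linear_combination d2)
  apply hΓ
  refine ⟨h5, hu, ?_, ?_⟩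
  · rw [hx, hz]
    ring
  · rw [hy, hz]
    ring

end Pool.Agent.KO
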