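import Pool.Agent.KO.Xb.St

/-!
# D10: the node of the fibre
-/

set_option autoImplicit false

namespace Pool.Agent.KO

open Set Filter Topology

/-- `σ` is injective on the ball. -/
theorem xd10_inj {X : Type} [TopologicalSpace X] {O : Shf X} {x : X} {σ : (Fin 4 → ℂ) → X}
    {r : ℝ} (h : LQ O 4 1 0 x σ r) {v w : Fin 4 → ℂ} (hv : v ∈ Metric.ball (0 : Fin 4 → ℂ) r)
    (hw : w ∈ Metric.ball (0 : Fin 4 → ℂ) r) (he : σ v = σ w) : v = w := by
  obtain ⟨ζ, -, h2⟩ := (h.fib v hv w hw).1 he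
  rw [h2]
  funext i
  simp [dact]

/-- The extension of a function through `σ`. -/
theorem xd10_ext {X : Type} [TopologicalSpace X] {O : Shf X} {x : X} {σ : (Fin 4 → ℂ) → X}
    {r : ℝ} (h : LQ O 4 1 0 x σ r) (H : (Fin 4 → ℂ) → ℂ) :
    ∃ F : X → ℂ, ∀ w ∈ Metric.ball (0 : Fin 4 → ℂ) r, F (σ w) = H w := by
  classical
  refine ⟨fun y => if hy : ∃ w ∈ Metric.ball (0 : Fin 4 → ℂ) r, σ w = y then H hy.choose else 0,
    fun w hw => ?_⟩
  have hy : ∃ w' ∈ Metric.ball (0 : Fin 4 → ℂ) r, σ w' = σ w := ⟨w, hw, rfl⟩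
  have h1 := hy.choose_spec
  have h2 : hy.choose = w := xd10_inj h h1.1 hw h1.2
  simp only [dif_pos hy]
  rw [h2]

theorem xd10 : SpZn := by
  classical
  intro X _ O g x hx σ r h hg
  set τ : (Fin 4 → ℂ) → {x | g x = 0} := fun v =>
    if hv : g (σ v) = 0 then ⟨σ v, hv⟩ else ⟨x, hx⟩ with hτ
  have hball : ∀ v : Fin 4 → ℂ, ‖v‖ < r → v ∈ Metric.ball (0 : Fin 4 → ℂ) r := fun v hv =>
    mem_ball_zero_iff.2 hv
  have hQ : ∀ v : Fin 4 → ℂ, v ∈ Metric.ball (0 : Fin 4 → ℂ) r → (v ∈ Qd ↔ g (σ v) = 0) := by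
    intro v hv
    rw [hg v hv]
    rfl
  have hval : ∀ v : Fin 4 → ℂ, v ∈ Metric.ball (0 : Fin 4 → ℂ) r → v ∈ Qd → (τ v).1 = σ v := by
    intro v hv hq
    have h1 : g (σ v) = 0 := (hQ v hv).1 hq
    simp only [hτ, dif_pos h1]
  have hev : ∀ v : Fin 4 → ℂ, v ∈ Metric.ball (0 : Fin 4 → ℂ) r →
      ∀ᶠ v' in 𝓝[Qd] v, v' ∈ Metric.ball (0 : Fin 4 → ℂ) r ∧ v' ∈ Qd := by
    intro v hv
    have h1 : ∀ᶠ v' in 𝓝 v, v' ∈ Metric.ball (0 : Fin 4 → ℂ) r :=
      Metric.isOpen_ball.mem_nhds hv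
    filter_upwards [h1.filter_mono nhdsWithin_le_nhds, self_mem_nhdsWithin] with v' ha hb
    exact ⟨ha, hb⟩
  have hnh : ∀ v ∈ Qd, ‖v‖ < r → map τ (𝓝[Qd] v) = 𝓝 (τ v) := by
    intro v hq hv
    have hb := hball v hv
    have h1 : map (Subtype.val ∘ τ) (𝓝[Qd] v) = map σ (𝓝[Qd] v) := by
      refine Filter.map_congr ?_
      filter_upwards [hev v hb] with v' hv'
      exact hval v' hv'.1 hv'.2
    have h2 : 𝓝[Qd] v = 𝓝[σ ⁻¹' {x | g x = 0}] v := by
      refine nhdsWithin_eq_nhdsWithin' (Metric.isOpen_ball.mem_nhds hb) ?_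
      ext w
      constructor
      · rintro ⟨ha, hc⟩
        exact ⟨(hQ w hc).1 ha, hc⟩
      · rintro ⟨ha, hc⟩
        exact ⟨(hQ w hc).2 ha, hc⟩
    have h3 : map σ (𝓝[Qd] v) = 𝓝[{x | g x = 0}] (σ v) := by
      rw [h2, nhdsWithin, map_inf_principal_preimage, h.nhds v hb]
      rfl
    have h4 : map Subtype.val (𝓝 (τ v)) = 𝓝[{x | g x = 0}] (σ v) := by
      have := map_nhds_subtype_val (τ v)
      rw [this, hval v hb hq]
    refine Filter.map_injective Subtype.val_injective ?_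
    rw [Filter.map_map, h1, h3, h4]
  refine ⟨τ, h.r_pos, ?_, hnh, ?_, ?_⟩
  · have h0 : (0 : Fin 4 → ℂ) ∈ Metric.ball (0 : Fin 4 → ℂ) r := Metric.mem_ball_self h.r_pos
    have h1 : (0 : Fin 4 → ℂ) ∈ Qd := by
      show (0 : ℂ) * 0 + 0 * 0 = 0
      ring
    refine Subtype.ext ?_
    rw [hval 0 h0 h1, h.base]
  · intro v hq hv v' hq' hv' he
    have h1 := congrArg Subtype.val he
    rw [hval v (hball v hv) hq, hval v' (hball v' hv') hq'] at h1
    exact xd10_inj h (hball v hv) (hball v' hv') h1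
  · intro v hq hv f
    have hb := hball v hv
    constructor
    · rintro ⟨F, hF, he⟩
      rw [hval v hb hq] at hF
      refine ⟨F ∘ σ, (h.hol v hb F).1 hF, ?_⟩
      rw [← hnh v hq hv, eventually_map] at he
      filter_upwards [he, hev v hb] with v' h1 h2
      rw [h1, hval v' h2.1 h2.2]
      rfl
    · rintro ⟨H, hH, he⟩
      obtain ⟨F, hF⟩ := xd10_ext h H
      refine ⟨F, ?_, ?_⟩
      · rw [hval v hb hq, h.hol v hb F]
        refine hH.congr ?_
        filter_upwards [Metric.isOpen_ball.mem_nhds hb] with w hw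
        exact (hF w hw).symm
      · rw [← hnh v hq hv, eventually_map]
        filter_upwards [he, hev v hb] with v' h1 h2
        rw [h1, hval v' h2.1 h2.2, hF v' h2.1]

end Pool.Agent.KO
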