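import Pool.Agent.KO.Xb.St

/-!
# Block Xd, row D11: smooth points and coordinates
-/

set_option autoImplicit false

namespace Pool.Agent.KO

open Set Filter Topology

section

variable {X : Type} [TopologicalSpace X] {O : Shf X} {D : Set (Fin 3 → ℂ)}
  {τ : (Fin 3 → ℂ) → X}

/-- A ball on which the parametrisation is injective. -/
theorem xd11_ball (h : LPar O D τ) {v : Fin 3 → ℂ} (hv : v ∈ D) :
    ∃ ε : ℝ, 0 < ε ∧ Metric.ball v ε ⊆ D ∧ InjOn τ (Metric.ball v ε) := by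
  obtain ⟨N, hN, hi⟩ := h.inj v hv
  obtain ⟨ε, h0, hε⟩ := Metric.mem_nhds_iff.1 (inter_mem hN (h.isOpen.mem_nhds hv))
  exact ⟨ε, h0, fun x hx => (hε hx).2, hi.mono fun x hx => (hε hx).1⟩

theorem xd11_proj {n : ℕ} (k : Fin n) (p : Fin n → ℂ) :
    AnalyticAt ℂ (fun x : Fin n → ℂ => x k) p :=
  (ContinuousLinearMap.proj (R := ℂ) (φ := fun _ : Fin n => ℂ) k).analyticAt p

theorem xd11_image_mem (h : LPar O D τ) {v : Fin 3 → ℂ} (hv : v ∈ D) {N : Set (Fin 3 → ℂ)}
    (hN : N ∈ 𝓝 v) : τ '' N ∈ 𝓝 (τ v) := by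
  rw [← h.nhds v hv]
  exact image_mem_map hN

/-- Reading a local property through the parametrisation. -/
theorem xd11_ev (h : LPar O D τ) {v : Fin 3 → ℂ} (hv : v ∈ D) {P : X → Prop} :
    (∀ᶠ y in 𝓝 (τ v), P y) ↔ ∀ᶠ u in 𝓝 v, P (τ u) := by
  rw [← h.nhds v hv, eventually_map]

theorem xd11_good (h : LPar O D τ) {v : Fin 3 → ℂ} (hv : v ∈ D) : Good O (τ v) := by
  obtain ⟨ε, h0, hD, hi⟩ := xd11_ball h hv
  have hm : ∀ w ∈ Metric.ball (0 : Fin 3 → ℂ) ε, v + w ∈ Metric.ball v ε := by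
    intro w hw
    rw [Metric.mem_ball, dist_eq_norm, add_sub_cancel_left]
    rwa [mem_ball_zero_iff] at hw
  refine ⟨fun w => τ (v + w), ε, le_refl 1, h0, by simp, ?_, ?_, ?_⟩
  · intro w hw
    have h1 : map (fun w => v + w) (𝓝 w) = 𝓝 (v + w) := map_add_left_nhds v w
    have h2 : map (fun w => τ (v + w)) (𝓝 w) = map τ (map (fun w => v + w) (𝓝 w)) := by
      rw [Filter.map_map]
      rfl
    rw [h2, h1, h.nhds _ (hD (hm w hw))]
  · intro w hw w' hw'
    constructor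
    · intro h1
      refine ⟨1, by simp, ?_⟩
      have h2 := hi (hm w hw) (hm w' hw') h1
      have h3 : w = w' := add_left_cancel h2
      rw [← h3]
      funext i
      simp [dact]
    · rintro ⟨ζ, -, h1⟩
      have h3 : w' = w := by
        rw [h1]
        funext i
        simp [dact]
      show τ (v + w) = τ (v + w')
      rw [h3]
  · intro w hw f
    show O f (τ (v + w)) ↔ _
    rw [h.hol _ (hD (hm w hw)) f]
    constructor
    · intro h1
      have h2 : AnalyticAt ℂ (fun w => v + w) w := analyticAt_const.add analyticAt_id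
      exact AnalyticAt.comp (g := f ∘ τ) (f := fun w => v + w) h1 h2
    · intro h1
      have h2 : AnalyticAt ℂ (fun u : Fin 3 → ℂ => u - v) (v + w) :=
        analyticAt_id.sub analyticAt_const
      have h3 : AnalyticAt ℂ (f ∘ fun w => τ (v + w)) ((fun u : Fin 3 → ℂ => u - v) (v + w)) := by
        simpa using h1
      have h4 := AnalyticAt.comp (g := f ∘ fun w => τ (v + w))
        (f := fun u : Fin 3 → ℂ => u - v) h3 h2
      refine h4.congr (Eventually.of_forall fun u => ?_)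
      show f (τ (v + (u - v))) = f (τ u)
      rw [add_sub_cancel]

/-- The inverse of the parametrisation is a coordinate system. -/
theorem xd11_coord (h : LPar O D τ) {v : Fin 3 → ℂ} (hv : v ∈ D) :
    ∃ c : X → Fin 3 → ℂ, IsCoord O c (τ v) ∧ ∀ᶠ u in 𝓝 v, c (τ u) = u := by
  obtain ⟨ε, h0, hD, hi⟩ := xd11_ball h hv
  set N := Metric.ball v ε with hN
  have hNo : IsOpen N := Metric.isOpen_ball
  have hvN : v ∈ N := Metric.mem_ball_self h0
  set c : X → Fin 3 → ℂ := Function.invFunOn τ N with hc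
  have hl : ∀ u ∈ N, c (τ u) = u := fun u hu => hi.leftInvOn_invFunOn hu
  have hr : ∀ y ∈ τ '' N, τ (c y) = y := by
    rintro y ⟨u, hu, rfl⟩
    rw [hl u hu]
  have hcN : ∀ y ∈ τ '' N, c y ∈ N := by
    rintro y ⟨u, hu, rfl⟩
    rw [hl u hu]
    exact hu
  have himg : c '' (τ '' N) = N := by
    ext u
    constructor
    · rintro ⟨y, hy, rfl⟩
      exact hcN y hy
    · intro hu
      exact ⟨τ u, mem_image_of_mem τ hu, hl u hu⟩
  have hU : IsOpen (τ '' N) := by
    rw [isOpen_iff_mem_nhds]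
    rintro y ⟨u, hu, rfl⟩
    exact xd11_image_mem h (hD hu) (hNo.mem_nhds hu)
  refine ⟨c, ⟨τ '' N, mem_image_of_mem τ hvN, ?_⟩, ?_⟩
  · refine ⟨hU, by rw [himg]; exact hNo, ?_, ?_, ?_⟩
    · refine ⟨?_, ?_⟩
      · rw [isInducing_iff_nhds]
        rintro ⟨y, hy⟩
        obtain ⟨u, hu, rfl⟩ := hy
        rw [nhds_subtype]
        apply le_antisymm
        · rw [← tendsto_iff_comap]
          show Tendsto (c ∘ Subtype.val) (comap Subtype.val (𝓝 (τ u))) (𝓝 (c (τ u)))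
          have h1 : Tendsto c (𝓝 (τ u)) (𝓝 (c (τ u))) := by
            rw [← h.nhds u (hD hu), tendsto_map'_iff, hl u hu]
            refine tendsto_id.congr' ?_
            filter_upwards [hNo.mem_nhds hu] with w hw
            exact (hl w hw).symm
          exact h1.comp tendsto_comap
        · intro s hs
          obtain ⟨t, ht, hts⟩ := mem_comap.1 hs
          have h1 : τ ⁻¹' t ∈ 𝓝 u := by
            rw [← h.nhds u (hD hu)] at ht
            exact ht
          refine mem_comap.2 ⟨τ ⁻¹' t, ?_, ?_⟩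
          · show τ ⁻¹' t ∈ 𝓝 (c (τ u))
            rw [hl u hu]
            exact h1
          · rintro ⟨y, hy⟩ h2
            apply hts
            have h3 : τ (c y) ∈ t := h2
            rw [hr y hy] at h3
            exact h3
      · rintro ⟨y, hy⟩ ⟨y', hy'⟩ h1
        have h2 : c y = c y' := h1
        apply Subtype.ext
        show y = y'
        rw [← hr y hy, ← hr y' hy', h2]
    · rw [himg]
      refine ⟨subset_refl _, fun x hx => ⟨N, hNo, hx, 0, fun i => i.elim0, fun i => i.elim0, ?_⟩⟩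
      rw [inter_self]
      ext y
      exact ⟨fun hy => ⟨hy, fun i => i.elim0⟩, fun hy => hy.1⟩
    · rintro y ⟨u, hu, rfl⟩ f
      rw [hl u hu, h.hol u (hD hu) f]
      constructor
      · intro h1
        refine ⟨f ∘ τ, h1, ?_⟩
        filter_upwards [hU.mem_nhds (mem_image_of_mem τ hu)] with y hy
        show f y = f (τ (c y))
        rw [hr y hy]
      · rintro ⟨F, hF, h1⟩
        refine hF.congr ?_
        have h2 := (xd11_ev h (hD hu)).1 h1
        filter_upwards [h2, hNo.mem_nhds hu] with w hw hwN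
        show F w = f (τ w)
        rw [hw]
        show F w = F (c (τ w))
        rw [hl w hwN]
  · filter_upwards [hNo.mem_nhds hvN] with u hu
    exact hl u hu

/-- Coordinate systems read in the parametrisation. -/
theorem xd11_inv (h : LPar O D τ) {v : Fin 3 → ℂ} (hv : v ∈ D) {m : ℕ} {c : X → Fin m → ℂ}
    (hc : IsCoord O c (τ v)) : AnalyticAt ℂ (c ∘ τ) v ∧
    ∃ Ψ : (Fin m → ℂ) → (Fin 3 → ℂ), AnalyticAt ℂ Ψ (c (τ v)) ∧
      (∀ᶠ u in 𝓝 v, Ψ (c (τ u)) = u) ∧ ∀ᶠ w in 𝓝 (c (τ v)), c (τ (Ψ w)) = w := by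
  obtain ⟨U, hxU, hch⟩ := hc
  obtain ⟨ε, h0, hD, hi⟩ := xd11_ball h hv
  set N := Metric.ball v ε with hN
  have hNo : IsOpen N := Metric.isOpen_ball
  have hvN : v ∈ N := Metric.mem_ball_self h0
  set e : X → Fin 3 → ℂ := Function.invFunOn τ N with he
  have hl : ∀ u ∈ N, e (τ u) = u := fun u hu => hi.leftInvOn_invFunOn hu
  have hr : ∀ y ∈ τ '' N, τ (e y) = y := by
    rintro y ⟨u, hu, rfl⟩
    rw [hl u hu]
  have hmap : map c (𝓝 (τ v)) = 𝓝 (c (τ v)) := by
    have h1 : IsOpenEmbedding (fun x : U => c x) := by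
      refine ⟨hch.isEmbedding, ?_⟩
      have h2 : range (fun x : U => c x) = c '' U := by
        ext w
        constructor
        · rintro ⟨x, rfl⟩
          exact ⟨x.1, x.2, rfl⟩
        · rintro ⟨x, hx, rfl⟩
          exact ⟨⟨x, hx⟩, rfl⟩
      rw [h2]
      exact hch.isOpenΩ
    have h3 := h1.map_nhds_eq ⟨τ v, hxU⟩
    have h4 := hch.isOpen.isOpenEmbedding_subtypeVal.map_nhds_eq ⟨τ v, hxU⟩
    have h5 : map (fun x : U => c x) (𝓝 ⟨τ v, hxU⟩) =
        map c (map Subtype.val (𝓝 (⟨τ v, hxU⟩ : U))) := by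
      rw [Filter.map_map]
      rfl
    rw [h5, h4] at h3
    exact h3
  refine ⟨?_, ?_⟩
  · rw [analyticAt_pi_iff]
    intro k
    have h1 : O (fun y => c y k) (τ v) :=
      (hch.hol (τ v) hxU _).2 ⟨fun w => w k, xd11_proj k _, Eventually.of_forall fun _ => rfl⟩
    exact (h.hol v hv _).1 h1
  · have h1 : ∀ k : Fin 3, ∃ F : (Fin m → ℂ) → ℂ, AnalyticAt ℂ F (c (τ v)) ∧
        (fun y => e y k) =ᶠ[𝓝 (τ v)] F ∘ c := by
      intro k
      refine (hch.hol (τ v) hxU _).1 ((h.hol v hv _).2 ?_)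
      refine (xd11_proj k v).congr ?_
      filter_upwards [hNo.mem_nhds hvN] with u hu
      show u k = e (τ u) k
      rw [hl u hu]
    choose F hF hFe using h1
    have hall : ∀ᶠ y in 𝓝 (τ v), (fun k => F k (c y)) = e y := by
      have h2 : ∀ᶠ y in 𝓝 (τ v), ∀ k, (fun y => e y k) y = (F k ∘ c) y :=
        eventually_all.2 hFe
      filter_upwards [h2] with y hy
      funext k
      exact (hy k).symm
    refine ⟨fun w k => F k w, analyticAt_pi_iff.2 hF, ?_, ?_⟩
    · filter_upwards [(xd11_ev h hv).1 hall, hNo.mem_nhds hvN] with u hu huN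
      show (fun k => F k (c (τ u))) = u
      rw [hu, hl u huN]
    · rw [← hmap, eventually_map]
      filter_upwards [hall, xd11_image_mem h hv (hNo.mem_nhds hvN)] with y hy hyN
      show c (τ (fun k => F k (c y))) = c y
      rw [hy, hr y hyN]

/-- The two derivatives are inverse to each other. -/
theorem xd11_deriv (h : LPar O D τ) {v : Fin 3 → ℂ} (hv : v ∈ D) {m : ℕ} {c : X → Fin m → ℂ}
    (hc : IsCoord O c (τ v)) : ∃ B : (Fin m → ℂ) →L[ℂ] (Fin 3 → ℂ),
    B.comp (fderiv ℂ (c ∘ τ) v) = ContinuousLinearMap.id ℂ _ ∧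
    (fderiv ℂ (c ∘ τ) v).comp B = ContinuousLinearMap.id ℂ _ := by
  obtain ⟨h1, Ψ, h2, h3, h4⟩ := xd11_inv h hv hc
  have hpt : Ψ (c (τ v)) = v := h3.self_of_nhds
  have hA : HasFDerivAt (c ∘ τ) (fderiv ℂ (c ∘ τ) v) v := h1.differentiableAt.hasFDerivAt
  have hB : HasFDerivAt Ψ (fderiv ℂ Ψ (c (τ v))) ((c ∘ τ) v) := h2.differentiableAt.hasFDerivAt
  refine ⟨fderiv ℂ Ψ (c (τ v)), ?_, ?_⟩
  · have h5 : HasFDerivAt (Ψ ∘ (c ∘ τ)) ((fderiv ℂ Ψ (c (τ v))).comp (fderiv ℂ (c ∘ τ) v)) v :=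
      hB.comp v hA
    have h6 : HasFDerivAt (Ψ ∘ (c ∘ τ)) (ContinuousLinearMap.id ℂ (Fin 3 → ℂ)) v :=
      (hasFDerivAt_id v).congr_of_eventuallyEq h3
    exact h5.unique h6
  · have hA' : HasFDerivAt (c ∘ τ) (fderiv ℂ (c ∘ τ) v) (Ψ (c (τ v))) := by
      rw [hpt]
      exact hA
    have h5 : HasFDerivAt ((c ∘ τ) ∘ Ψ) ((fderiv ℂ (c ∘ τ) v).comp (fderiv ℂ Ψ (c (τ v))))
        (c (τ v)) := hA'.comp (c (τ v)) hB
    have h6 : HasFDerivAt ((c ∘ τ) ∘ Ψ) (ContinuousLinearMap.id ℂ (Fin m → ℂ)) (c (τ v)) :=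
      (hasFDerivAt_id (c (τ v))).congr_of_eventuallyEq h4
    exact h5.unique h6

end

theorem xd11 : SpCoord := by
  intro X _ O D τ h v hv
  refine ⟨xd11_good h hv, xd11_coord h hv, ?_, ?_⟩
  · rintro m ⟨c, hc⟩
    obtain ⟨B, h1, h2⟩ := xd11_deriv h hv hc
    have e : (Fin m → ℂ) ≃L[ℂ] (Fin 3 → ℂ) :=
      ContinuousLinearEquiv.equivOfInverse B (fderiv ℂ (c ∘ τ) v)
        (fun w => congrArg (fun L : (Fin m → ℂ) →L[ℂ] (Fin m → ℂ) => L w) h2)
        (fun w => congrArg (fun L : (Fin 3 → ℂ) →L[ℂ] (Fin 3 → ℂ) => L w) h1)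
    have h3 := LinearEquiv.finrank_eq e.toLinearEquiv
    simpa using h3
  · intro c hc
    refine ⟨(xd11_inv h hv hc).1, ?_⟩
    obtain ⟨B, h1, -⟩ := xd11_deriv h hv hc
    intro h0
    have h2 : (B.comp (fderiv ℂ (c ∘ τ) v)).det = B.det * (fderiv ℂ (c ∘ τ) v).det := by
      unfold ContinuousLinearMap.det
      rw [← LinearMap.det_comp]
      rfl
    rw [h1, h0, mul_zero] at h2
    have h3 : (ContinuousLinearMap.id ℂ (Fin 3 → ℂ)).det = 1 := by
      unfold ContinuousLinearMap.det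
      exact LinearMap.det_id
    rw [h3] at h2
    exact one_ne_zero h2

end Pool.Agent.KO
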