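import Pool.Agent.KO.Xb.St

/-!
# Row D12: quotient presentations are étale at free points
-/

set_option autoImplicit false

namespace Pool.Agent.KO

open Set Filter Topology

theorem xd12_one {m : ℕ} (β : Fin m → ℤ) (v : Fin m → ℂ) : dact β 1 v = v := by
  funext i
  simp [dact]

theorem xd12_fin {b : ℕ} (hb : 1 ≤ b) : {ζ : ℂ | ζ ^ b = 1}.Finite := by
  have hne : (Polynomial.X ^ b - 1 : Polynomial ℂ) ≠ 0 :=
    Polynomial.X_pow_sub_C_ne_zero (by omega) 1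
  refine (Polynomial.finite_setOfPred_isRoot hne).subset ?_
  intro ζ hζ
  show Polynomial.eval ζ (Polynomial.X ^ b - 1) = 0
  have h1 : ζ ^ b = 1 := hζ
  simp [h1]

theorem xd12_inj {X : Type} [TopologicalSpace X] {O : Shf X} {b : ℕ} {β : Fin 3 → ℤ}
    {x : X} {σ : (Fin 3 → ℂ) → X} {r : ℝ} (hl : LQ O 3 b β x σ r)
    (hf : ∀ ζ : ℂ, ζ ^ b = 1 → ∀ k, ζ ^ β k = 1 → ζ = 1) {v : Fin 3 → ℂ}
    (hv : v ∈ Metric.ball (0 : Fin 3 → ℂ) r) (hv0 : v ≠ 0) : ∃ N ∈ 𝓝 v, InjOn σ N := by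
  obtain ⟨k, hk⟩ := Function.ne_iff.1 hv0
  have hk' : v k ≠ 0 := hk
  have hev : ∀ᶠ p : (Fin 3 → ℂ) × (Fin 3 → ℂ) in 𝓝 (v, v),
      ∀ ζ ∈ {ζ : ℂ | ζ ^ b = 1}, ζ ≠ 1 → p.2 k ≠ ζ ^ β k * p.1 k := by
    rw [Filter.eventually_all_finite (xd12_fin hl.b_pos)]
    intro ζ hζ
    by_cases h1 : ζ = 1
    · exact Eventually.of_forall fun p h => absurd h1 h
    · have h2 : ζ ^ β k ≠ 1 := fun h => h1 (hf ζ hζ k h)
      have h3 : v k ≠ ζ ^ β k * v k := by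
        intro h
        apply h2
        have h4 : (ζ ^ β k - 1) * v k = 0 := by
          rw [sub_mul, one_mul, ← h, sub_self]
        rcases mul_eq_zero.1 h4 with h5 | h5
        · exact sub_eq_zero.1 h5
        · exact absurd h5 hk'
      have hc : IsOpen {p : (Fin 3 → ℂ) × (Fin 3 → ℂ) | p.2 k ≠ ζ ^ β k * p.1 k} :=
        isOpen_ne_fun ((continuous_apply k).comp continuous_snd)
          (continuous_const.mul ((continuous_apply k).comp continuous_fst))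
      filter_upwards [hc.mem_nhds (show (v, v) ∈ {p : (Fin 3 → ℂ) × (Fin 3 → ℂ) |
        p.2 k ≠ ζ ^ β k * p.1 k} from h3)] with p hp _
      exact hp
  rw [nhds_prod_eq, Filter.eventually_prod_iff] at hev
  obtain ⟨pa, hpa, pb, hpb, hpp⟩ := hev
  refine ⟨{u | pa u ∧ pb u} ∩ Metric.ball (0 : Fin 3 → ℂ) r,
    Filter.inter_mem (hpa.and hpb) (Metric.isOpen_ball.mem_nhds hv), ?_⟩
  rintro u ⟨⟨hu1, -⟩, hu2⟩ u' ⟨⟨-, hu1'⟩, hu2'⟩ huu
  obtain ⟨ζ, hζ, hu⟩ := (hl.fib u hu2 u' hu2').1 huu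
  by_cases h1 : ζ = 1
  · rw [hu, h1, xd12_one]
  · exfalso
    refine hpp hu1 hu1' ζ hζ h1 ?_
    show u' k = ζ ^ β k * u k
    rw [hu]
    rfl

/-- Quotient presentations are étale at free points. -/
theorem xd12 : SpFree := by
  intro X _ O b β x σ r hl hf
  refine ⟨⟨Metric.isOpen_ball.sdiff isClosed_singleton, fun v hv => hl.nhds v hv.1,
    fun v hv => xd12_inj hl hf hv.1 hv.2, fun v hv => hl.hol v hv.1⟩, fun hb => ?_⟩
  refine ⟨Metric.isOpen_ball, hl.nhds, fun v hv => ?_, hl.hol⟩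
  refine ⟨Metric.ball 0 r, Metric.isOpen_ball.mem_nhds hv, ?_⟩
  intro u hu u' hu' huu
  obtain ⟨ζ, hζ, h⟩ := (hl.fib u hu u' hu').1 huu
  have h1 : ζ = 1 := by
    rw [hb, pow_one] at hζ
    exact hζ
  rw [h, h1, xd12_one]

end Pool.Agent.KO
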