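import Pool.Agent.KO.Xb.St

/-!
# Project KO, row Xd-D13: lifting maps through étale parametrisations
-/

set_option autoImplicit false

namespace Pool.Agent.KO

open Set Filter Topology

open Classical in
/-- The local inverse of `τ` on the set `N`. -/
noncomputable def xd13_inv {X : Type} (τ : (Fin 3 → ℂ) → X) (N : Set (Fin 3 → ℂ)) (y : X) :
    Fin 3 → ℂ :=
  if h : ∃ u, u ∈ N ∧ τ u = y then h.choose else 0

theorem xd13_inv_right {X : Type} {τ : (Fin 3 → ℂ) → X} {N : Set (Fin 3 → ℂ)} {y : X}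
    (h : y ∈ τ '' N) : xd13_inv τ N y ∈ N ∧ τ (xd13_inv τ N y) = y := by
  have h' : ∃ u, u ∈ N ∧ τ u = y := h
  unfold xd13_inv
  rw [dif_pos h']
  exact h'.choose_spec

theorem xd13_inv_left {X : Type} {τ : (Fin 3 → ℂ) → X} {N : Set (Fin 3 → ℂ)} (hN : InjOn τ N)
    {u : Fin 3 → ℂ} (hu : u ∈ N) : xd13_inv τ N (τ u) = u := by
  obtain ⟨h1, h2⟩ := xd13_inv_right (mem_image_of_mem τ hu)
  exact hN h1 hu h2

theorem xd13 : SpLift3 := by
  intro X _ O D τ hτ v hv φ b hφ hb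
  obtain ⟨N, hN, hinj⟩ := hτ.inj v hv
  have hO : ∀ k, O (fun y => xd13_inv τ N y k) (τ v) := by
    intro k
    rw [hτ.hol v hv]
    have h1 : (fun u : Fin 3 → ℂ => u k) =ᶠ[𝓝 v] ((fun y => xd13_inv τ N y k) ∘ τ) := by
      filter_upwards [hN] with u hu
      show u k = xd13_inv τ N (τ u) k
      rw [xd13_inv_left hinj hu]
    refine AnalyticAt.congr ?_ h1
    exact (ContinuousLinearMap.proj (R := ℂ) (φ := fun _ : Fin 3 => ℂ) k).analyticAt v
  refine ⟨fun u => xd13_inv τ N (φ u), ?_, ?_, ?_⟩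
  · rw [analyticAt_pi_iff]
    intro k
    exact hφ.2 (fun y => xd13_inv τ N y k) (by rw [hb]; exact hO k)
  · show xd13_inv τ N (φ b) = v
    rw [hb]
    exact xd13_inv_left hinj (mem_of_mem_nhds hN)
  · have h2 : τ '' N ∈ 𝓝 (φ b) := by
      rw [hb, ← hτ.nhds v hv]
      exact image_mem_map hN
    filter_upwards [hφ.1 h2] with u hu
    exact (xd13_inv_right hu).2

end Pool.Agent.KO
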