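import Pool.Agent.KO.Xb.St
import Pool.Agent.KO.C.Dcov

/-!
# Project KO, block X, row Xd-D15: extension of functions over the node
-/

set_option autoImplicit false

namespace Pool.Agent.KO

open Set Filter Topology

/-- The linear coordinates in which the quadric cone is a double cover. -/
noncomputable def xd15_A (P : (Fin 3 → ℂ) × ℂ) : Fin 4 → ℂ :=
  ![P.2 + P.1 0, P.1 1, P.2 - P.1 0, P.1 2]

/-- The inverse of `xd15_A`. -/
noncomputable def xd15_B (v : Fin 4 → ℂ) : (Fin 3 → ℂ) × ℂ :=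
  (![(v 0 - v 2) / 2, v 1, v 3], (v 0 + v 2) / 2)

theorem xd15_AB (v : Fin 4 → ℂ) : xd15_A (xd15_B v) = v := by
  funext i
  fin_cases i
  · show (v 0 + v 2) / 2 + (v 0 - v 2) / 2 = v 0
    ring
  · rfl
  · show (v 0 + v 2) / 2 - (v 0 - v 2) / 2 = v 2
    ring
  · rfl

theorem xd15_BA (P : (Fin 3 → ℂ) × ℂ) : xd15_B (xd15_A P) = P := by
  refine Prod.ext ?_ ?_
  · funext i
    fin_cases i
    · show (P.2 + P.1 0 - (P.2 - P.1 0)) / 2 = P.1 0
      ring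
    · rfl
    · rfl
  · show (P.2 + P.1 0 + (P.2 - P.1 0)) / 2 = P.2
    ring

theorem xd15_fst (i : Fin 3) (P : (Fin 3 → ℂ) × ℂ) :
    AnalyticAt ℂ (fun P : (Fin 3 → ℂ) × ℂ => P.1 i) P :=
  (((ContinuousLinearMap.proj (R := ℂ) (φ := fun _ : Fin 3 => ℂ) i).comp
    (ContinuousLinearMap.fst ℂ (Fin 3 → ℂ) ℂ)).analyticAt P)

theorem xd15_crd {n : ℕ} (i : Fin n) (v : Fin n → ℂ) :
    AnalyticAt ℂ (fun v : Fin n → ℂ => v i) v :=
  (ContinuousLinearMap.proj (R := ℂ) (φ := fun _ : Fin n => ℂ) i).analyticAt v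

theorem xd15_anA (P : (Fin 3 → ℂ) × ℂ) : AnalyticAt ℂ xd15_A P := by
  have h2 : AnalyticAt ℂ (fun P : (Fin 3 → ℂ) × ℂ => P.2) P := analyticAt_snd
  refine analyticAt_pi_iff.2 fun i => ?_
  fin_cases i
  · exact h2.add (xd15_fst 0 P)
  · exact xd15_fst 1 P
  · exact h2.sub (xd15_fst 0 P)
  · exact xd15_fst 2 P

theorem xd15_anB (v : Fin 4 → ℂ) : AnalyticAt ℂ xd15_B v := by
  have h2 : (2 : ℂ) ≠ 0 := two_ne_zero
  refine AnalyticAt.prod ?_ ?_
  · refine analyticAt_pi_iff.2 fun i => ?_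
    fin_cases i
    · exact ((xd15_crd 0 v).sub (xd15_crd 2 v)).div analyticAt_const h2
    · exact xd15_crd 1 v
    · exact xd15_crd 3 v
  · exact ((xd15_crd 0 v).add (xd15_crd 2 v)).div analyticAt_const h2

theorem xd15_Qd (P : (Fin 3 → ℂ) × ℂ) :
    xd15_A P ∈ Qd ↔ P.2 ^ 2 = P.1 0 ^ 2 - P.1 1 * P.1 2 := by
  show (P.2 + P.1 0) * (P.2 - P.1 0) + P.1 1 * P.1 2 = 0 ↔ _
  constructor
  · intro h
    linear_combination h
  · intro h
    linear_combination h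

theorem xd15_A0 : xd15_A (0, 0) = 0 := by
  funext i
  fin_cases i
  · show (0 : ℂ) + 0 = 0
    ring
  · rfl
  · show (0 : ℂ) - 0 = 0
    ring
  · rfl

theorem xd15_B0 : xd15_B 0 = (0, 0) := by
  rw [← xd15_A0, xd15_BA]

/-- D15. Extension of functions over the node. -/
theorem xd15 : SpExtN := by
  classical
  intro X _ O x σ r hN f hf
  -- near `0`
  have h0Q : (0 : Fin 4 → ℂ) ∈ Qd := by
    show (0 : ℂ) * 0 + 0 * 0 = 0
    ring
  have hn0 : ‖(0 : Fin 4 → ℂ)‖ < r := by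
    rw [norm_zero]
    exact hN.r_pos
  have hnhds : map σ (𝓝[Qd] (0 : Fin 4 → ℂ)) = 𝓝 x := by
    rw [hN.nhds 0 h0Q hn0, hN.base]
  have h1 : ∀ᶠ v in 𝓝 (0 : Fin 4 → ℂ), v ∈ Qd → σ v ≠ x → O f (σ v) := by
    rw [← hnhds, eventually_map] at hf
    exact eventually_nhdsWithin_iff.1 hf
  have hne : ∀ v ∈ Qd, ‖v‖ < r → v ≠ 0 → σ v ≠ x := by
    intro v hv hvr hv0 h
    rw [← hN.base] at h
    exact hv0 (hN.inj v hv hvr 0 h0Q hn0 h)
  have hball : ∀ᶠ v in 𝓝 (0 : Fin 4 → ℂ), ‖v‖ < r := by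
    filter_upwards [Metric.ball_mem_nhds (0 : Fin 4 → ℂ) hN.r_pos] with v hv
    rwa [mem_ball_zero_iff] at hv
  have h2 : ∀ᶠ v in 𝓝 (0 : Fin 4 → ℂ), v ≠ 0 → v ∈ Qd →
      ∃ H : (Fin 4 → ℂ) → ℂ, AnalyticAt ℂ H v ∧ ∀ᶠ v' in 𝓝[Qd] v, f (σ v') = H v' := by
    filter_upwards [h1, hball] with v hv1 hv2 hv0 hvQ
    exact (hN.hol v hvQ hv2 f).1 (hv1 hvQ (hne v hvQ hv2 hv0))
  -- the double cover
  have hA : Tendsto xd15_A (𝓝 ((0 : Fin 3 → ℂ), (0 : ℂ))) (𝓝 (0 : Fin 4 → ℂ)) := by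
    have := (xd15_anA (0, 0)).continuousAt.tendsto
    rwa [xd15_A0] at this
  have hB : Tendsto xd15_B (𝓝 (0 : Fin 4 → ℂ)) (𝓝 ((0 : Fin 3 → ℂ), (0 : ℂ))) := by
    have := (xd15_anB 0).continuousAt.tendsto
    rwa [xd15_B0] at this
  have hq : AnalyticAt ℂ (fun x : Fin 3 → ℂ => x 0 ^ 2 - x 1 * x 2) 0 :=
    ((xd15_crd 0 _).pow 2).sub ((xd15_crd 1 _).mul (xd15_crd 2 _))
  obtain ⟨f0, f1, hf0, hf1, hF⟩ := C.dcov (n := 3) (i := 0) (j := 1) (by decide)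
    (q := fun x : Fin 3 → ℂ => x 0 ^ 2 - x 1 * x 2) (p := 0) hq (by simp)
    (F := fun P => f (σ (xd15_A P))) (by
      filter_upwards [hA.eventually h2] with P hP hP0 hPq
      have hPne : xd15_A P ≠ 0 := by
        intro h
        apply hP0
        rw [← xd15_BA P, h, xd15_B0]
      obtain ⟨H, hH, hHe⟩ := hP hPne ((xd15_Qd P).2 hPq)
      refine ⟨fun z => H (xd15_A z), hH.comp (xd15_anA P), ?_⟩
      have h3 := (xd15_anA P).continuousAt.eventually (eventually_nhdsWithin_iff.1 hHe)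
      filter_upwards [h3] with z hz hzq
      exact hz ((xd15_Qd z).2 hzq))
  -- the extension
  set H0 : (Fin 4 → ℂ) → ℂ := fun v => f0 (xd15_B v).1 + (xd15_B v).2 * f1 (xd15_B v).1 with hH0
  have hH0a : AnalyticAt ℂ H0 0 := by
    have hb1 : AnalyticAt ℂ (fun v => (xd15_B v).1) 0 := analyticAt_fst.comp (xd15_anB 0)
    have hb2 : AnalyticAt ℂ (fun v => (xd15_B v).2) 0 := analyticAt_snd.comp (xd15_anB 0)
    have e : (xd15_B 0).1 = 0 := by rw [xd15_B0]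
    have g0 : AnalyticAt ℂ (fun v => f0 (xd15_B v).1) 0 := by
      refine AnalyticAt.comp (g := f0) (f := fun v => (xd15_B v).1) ?_ hb1
      rw [e]
      exact hf0
    have g1 : AnalyticAt ℂ (fun v => f1 (xd15_B v).1) 0 := by
      refine AnalyticAt.comp (g := f1) (f := fun v => (xd15_B v).1) ?_ hb1
      rw [e]
      exact hf1
    exact g0.add (hb2.mul g1)
  refine ⟨fun y => if y = x then H0 0 else f y, ?_, ?_⟩
  · have h3 := hN.hol 0 h0Q hn0 (fun y => if y = x then H0 0 else f y)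
    rw [hN.base] at h3
    refine h3.2 ⟨H0, hH0a, ?_⟩
    refine eventually_nhdsWithin_iff.2 ?_
    filter_upwards [hB.eventually hF, hball] with v hv1 hv2 hvQ
    by_cases hv0 : v = 0
    · subst hv0
      show (if σ 0 = x then H0 0 else f (σ 0)) = H0 0
      rw [if_pos hN.base]
    · show (if σ v = x then H0 0 else f (σ v)) = H0 v
      rw [if_neg (hne v hvQ hv2 hv0)]
      have h4 : xd15_B v ≠ (0, 0) := by
        intro h
        apply hv0
        rw [← xd15_AB v, h, xd15_A0]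
      have h5 : (xd15_B v).2 ^ 2 = (xd15_B v).1 0 ^ 2 - (xd15_B v).1 1 * (xd15_B v).1 2 := by
        rw [← xd15_Qd, xd15_AB]
        exact hvQ
      have h6 := hv1 h4 h5
      rw [xd15_AB] at h6
      exact h6
  · filter_upwards with y hy
    exact if_neg hy

end Pool.Agent.KO
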