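import Pool.Agent.KO.Xb.St

/-! # Project KO, block Xd, row D16: normality from local data -/

set_option autoImplicit false

namespace Pool.Agent.KO

open Set Filter Topology

theorem xd16_lpar {X : Type} [TopologicalSpace X] {O : Shf X} {x : X} {σ : (Fin 3 → ℂ) → X}
    {r : ℝ} (h : LQ O 3 1 0 x σ r) : LPar O (Metric.ball 0 r) σ where
  isOpen := Metric.isOpen_ball
  nhds := h.nhds
  inj := by
    intro v hv
    refine ⟨Metric.ball 0 r, Metric.isOpen_ball.mem_nhds hv, ?_⟩
    intro a ha b hb hab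
    obtain ⟨ζ, hζ, hb'⟩ := (h.fib a ha b hb).1 hab
    rw [hb']
    funext i
    simp [dact]
  hol := h.hol

theorem xd16_good (hco : SpCoord) {X : Type} [TopologicalSpace X] {O : Shf X} {x : X}
    (hx : Good O x) : IsReg O 3 x ∧ ∀ m, IsReg O m x → m = 3 := by
  obtain ⟨σ, r, h⟩ := hx
  have h1 := hco X O _ σ (xd16_lpar h) 0 (Metric.mem_ball_self h.r_pos)
  rw [h.base] at h1
  obtain ⟨c, hc, -⟩ := h1.2.1
  exact ⟨⟨c, hc⟩, h1.2.2.1⟩

theorem xd16 (hco : SpCoord) : SpNorm := by
  intro X _ O hloc hx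
  refine ⟨?_, ?_, ?_⟩
  · rintro m x ⟨c, U, hxU, hU⟩
    obtain ⟨y, hyU, hy⟩ := mem_closure_iff.1 (hx x).2.1 U hU.isOpen hxU
    exact (xd16_good hco hy).2 m ⟨c, U, hyU, hU⟩
  · intro x
    exact closure_mono (fun y hy => (xd16_good hco hy).1) (hx x).2.1
  · intro V hV f hf
    have hloc' : ∀ y ∈ V, ∀ᶠ y' in 𝓝 y, y' ≠ y → IsReg O 3 y' ∧ O f y' := by
      intro y hy
      filter_upwards [(hx y).1, hV.mem_nhds hy] with y' h1 h2 h3
      have h4 := (xd16_good hco (h1 h3)).1
      exact ⟨h4, hf y' h2 h4⟩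
    have hext : ∀ y ∈ V, ∃ F, O F y ∧ ∀ᶠ y' in 𝓝 y, y' ≠ y → F y' = f y' := fun y hy =>
      (hx y).2.2 f ((hloc' y hy).mono fun y' h1 h2 => (h1 h2).2)
    classical
    choose! E hE1 hE2 using hext
    refine ⟨fun y => if IsReg O 3 y then f y else E y y, ?_, ?_⟩
    · intro y hy
      by_cases hr : IsReg O 3 y
      · refine hloc f _ y ?_ (hf y hy hr)
        filter_upwards [hloc' y hy] with y' h1
        by_cases h2 : y' = y
        · subst h2
          exact (if_pos hr).symm
        · exact (if_pos (h1 h2).1).symm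
      · refine hloc (E y) _ y ?_ (hE1 y hy)
        filter_upwards [hloc' y hy, hE2 y hy] with y' h1 h3
        by_cases h2 : y' = y
        · subst h2
          exact (if_neg hr).symm
        · exact (h3 h2).trans (if_pos (h1 h2).1).symm
    · intro y _ hr
      exact if_pos hr

end Pool.Agent.KO
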