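import Pool.Agent.KO.Xb.St

/-!
# Row D17: forms from étale parametrisations
-/

set_option autoImplicit false
set_option maxHeartbeats 400000

namespace Pool.Agent.KO

open Set Filter Topology

theorem xd17_det_analytic {n : ℕ} {f : (Fin n → ℂ) → (Fin n → ℂ)} {v : Fin n → ℂ}
    (hf : AnalyticAt ℂ f v) : AnalyticAt ℂ (fun u => (fderiv ℂ f u).det) v := by
  have h1 : ∀ u, (fderiv ℂ f u).det =
      Matrix.det (Matrix.of fun i j : Fin n => fderiv ℂ f u (Pi.single j 1) i) := by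
    intro u
    rw [ContinuousLinearMap.det, ← LinearMap.det_toMatrix']
    congr 1
  simp only [h1, Matrix.det_apply']
  refine Finset.analyticAt_fun_sum _ fun σ _ => ?_
  have h2 : AnalyticAt ℂ (fun u => ∏ i, (fderiv ℂ f u) (Pi.single i 1) (σ i)) v := by
    refine Finset.analyticAt_fun_prod _ fun i _ => ?_
    exact (((ContinuousLinearMap.proj (R := ℂ) (φ := fun _ : Fin n => ℂ) (σ i)).comp
      (ContinuousLinearMap.apply ℂ (Fin n → ℂ) (Pi.single i 1 : Fin n → ℂ))).analyticAt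
        (fderiv ℂ f v)).comp hf.fderiv
  simp only [Matrix.of_apply]
  exact analyticAt_const.mul h2

theorem xd17_det_comp {n : ℕ} {f g h : (Fin n → ℂ) → (Fin n → ℂ)} {v : Fin n → ℂ}
    (hg : DifferentiableAt ℂ g v) (hf : DifferentiableAt ℂ f (g v)) (e : h =ᶠ[𝓝 v] f ∘ g) :
    (fderiv ℂ h v).det = (fderiv ℂ f (g v)).det * (fderiv ℂ g v).det := by
  rw [e.fderiv_eq, fderiv_comp v hf hg, ContinuousLinearMap.det,
    ContinuousLinearMap.toLinearMap_comp, LinearMap.det_comp]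

theorem xd17_coord_open {X : Type} [TopologicalSpace X] {O : Shf X} {n : ℕ}
    {c : X → Fin n → ℂ} {x : X} (h : IsCoord O c x) : ∀ᶠ y in 𝓝 x, IsCoord O c y := by
  obtain ⟨U, hx, hU⟩ := h
  filter_upwards [hU.isOpen.mem_nhds hx] with y hy
  exact ⟨U, hy, hU⟩

section

variable {X : Type} [TopologicalSpace X] {O : Shf X} {ι : Type} {D : ι → Set (Fin 3 → ℂ)}
  {τ : ι → (Fin 3 → ℂ) → X} {a : ι → (Fin 3 → ℂ) → ℂ}

open Classical in
/-- The coefficient of the form. -/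
noncomputable def xd17_val (m : ℕ) (D : ι → Set (Fin 3 → ℂ)) (τ : ι → (Fin 3 → ℂ) → X)
    (a : ι → (Fin 3 → ℂ) → ℂ) (c : X → Fin 3 → ℂ) (y : X) : ℂ :=
  if h : ∃ p : ι × (Fin 3 → ℂ), p.2 ∈ D p.1 ∧ τ p.1 p.2 = y then
    a h.choose.1 h.choose.2 / (fderiv ℂ (c ∘ τ h.choose.1) h.choose.2).det ^ m
  else 0

theorem xd17_val_eq (hco : SpCoord) (hli : SpLift3) (m : ℕ)
    (hL : ∀ i, LPar O (D i) (τ i))
    (hc : ∀ i j, ∀ v ∈ D i, ∀ v' ∈ D j, ∀ Ψ : (Fin 3 → ℂ) → (Fin 3 → ℂ), AnalyticAt ℂ Ψ v →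
      Ψ v = v' → (∀ᶠ u in 𝓝 v, τ j (Ψ u) = τ i u) → a i v = a j v' * (fderiv ℂ Ψ v).det ^ m)
    (c : X → Fin 3 → ℂ) (i : ι) (v : Fin 3 → ℂ) (hv : v ∈ D i) (hcv : IsCoord O c (τ i v)) :
    xd17_val m D τ a c (τ i v) = a i v / (fderiv ℂ (c ∘ τ i) v).det ^ m := by
  have hex : ∃ p : ι × (Fin 3 → ℂ), p.2 ∈ D p.1 ∧ τ p.1 p.2 = τ i v := ⟨(i, v), hv, rfl⟩
  unfold xd17_val
  rw [dif_pos hex]
  obtain ⟨hv', he⟩ := hex.choose_spec
  set j := hex.choose.1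
  set v' := hex.choose.2
  have hhol : HolAt (stdO 3) O (τ i) v := by
    refine ⟨?_, fun f hf => ((hL i).hol v hv f).1 hf⟩
    have h1 := (hL i).nhds v hv
    exact h1.le
  obtain ⟨Ψ, hΨ, hΨv, hΨe⟩ := hli X O (D j) (τ j) (hL j) v' hv' (τ i) v hhol he.symm
  have h1 := hc i j v hv v' hv' Ψ hΨ hΨv hΨe
  obtain ⟨hA, hdet⟩ := (hco X O (D i) (τ i) (hL i) v hv).2.2.2 c hcv
  obtain ⟨hA', hdet'⟩ := (hco X O (D j) (τ j) (hL j) v' hv').2.2.2 c (he ▸ hcv)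
  have h2 : (c ∘ τ i) =ᶠ[𝓝 v] (c ∘ τ j) ∘ Ψ := by
    filter_upwards [hΨe] with u hu
    simp only [Function.comp_apply, hu]
  have h3 := xd17_det_comp hΨ.differentiableAt (by rw [hΨv]; exact hA'.differentiableAt) h2
  rw [hΨv] at h3
  rw [h3] at hdet
  have h4 : (fderiv ℂ Ψ v).det ≠ 0 := right_ne_zero_of_mul hdet
  rw [h1, h3, mul_pow, div_eq_div_iff (pow_ne_zero _ hdet')
    (mul_ne_zero (pow_ne_zero _ hdet') (pow_ne_zero _ h4))]
  ring

end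

/-- Row D17. -/
theorem xd17 (hco : SpCoord) (hli : SpLift3) : SpForm := by
  intro X _ O m ι D τ a _ hL ha hc
  have hval := xd17_val_eq hco hli m hL hc
  refine ⟨⟨xd17_val m D τ a, ?_, ?_⟩, ?_, ?_⟩
  · intro c y hy hcy
    obtain ⟨i, v, hv, rfl⟩ := mem_iUnion.1 hy
    rw [(hL i).hol v hv]
    obtain ⟨hA, hdet⟩ := (hco X O (D i) (τ i) (hL i) v hv).2.2.2 c hcy
    have h1 : (xd17_val m D τ a c ∘ τ i) =ᶠ[𝓝 v]
        fun u => a i u / (fderiv ℂ (c ∘ τ i) u).det ^ m := by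
      have h2 : ∀ᶠ u in 𝓝 v, IsCoord O c (τ i u) := by
        have h3 : Tendsto (τ i) (𝓝 v) (𝓝 (τ i v)) := ((hL i).nhds v hv).le
        exact h3.eventually (xd17_coord_open hcy)
      filter_upwards [h2, (hL i).isOpen.mem_nhds hv] with u hu hu'
      exact hval c i u hu' hu
    refine AnalyticAt.congr ?_ h1.symm
    exact ((ha i v hv).1).div ((xd17_det_analytic hA).pow m) (pow_ne_zero _ hdet)
  · intro c c' y hy hcy hcy' Ψ hΨ he
    obtain ⟨i, v, hv, rfl⟩ := mem_iUnion.1 hy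
    rw [hval c i v hv hcy, hval c' i v hv hcy']
    obtain ⟨hA, hdet⟩ := (hco X O (D i) (τ i) (hL i) v hv).2.2.2 c hcy
    obtain ⟨hA', hdet'⟩ := (hco X O (D i) (τ i) (hL i) v hv).2.2.2 c' hcy'
    have h3 : Tendsto (τ i) (𝓝 v) (𝓝 (τ i v)) := ((hL i).nhds v hv).le
    have h2 : (c' ∘ τ i) =ᶠ[𝓝 v] Ψ ∘ (c ∘ τ i) := by
      filter_upwards [h3.eventually he] with u hu
      exact hu
    have h4 := xd17_det_comp hA.differentiableAt hΨ.differentiableAt h2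
    rw [h4] at hdet'
    have h5 : (fderiv ℂ Ψ (c (τ i v))).det ≠ 0 := left_ne_zero_of_mul hdet'
    have h6 : (fderiv ℂ (c' ∘ τ i) v).det =
        (fderiv ℂ Ψ (c (τ i v))).det * (fderiv ℂ (c ∘ τ i) v).det := h4
    rw [h6, mul_pow, div_mul_eq_mul_div, div_eq_div_iff (pow_ne_zero _ hdet)
      (mul_ne_zero (pow_ne_zero _ h5) (pow_ne_zero _ hdet))]
    ring
  · intro c y hy hcy
    obtain ⟨i, v, hv, rfl⟩ := mem_iUnion.1 hy
    change xd17_val m D τ a c (τ i v) ≠ 0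
    rw [hval c i v hv hcy]
    exact div_ne_zero (ha i v hv).2 (pow_ne_zero _
      ((hco X O (D i) (τ i) (hL i) v hv).2.2.2 c hcy).2)
  · intro i v hv c hcy
    change xd17_val m D τ a c (τ i v) * _ = _
    rw [hval c i v hv hcy]
    exact div_mul_cancel₀ _ (pow_ne_zero _
      ((hco X O (D i) (τ i) (hL i) v hv).2.2.2 c hcy).2)

end Pool.Agent.KO
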