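import Pool.Agent.KO.Xb.St
import Pool.Agent.KO.C.Dcov

/-!
# Row D18: forms extend over isolated points
-/

set_option autoImplicit false

namespace Pool.Agent.KO

open Set Filter Topology

theorem xd18_det_analytic {n : ℕ} {f : (Fin n → ℂ) → (Fin n → ℂ)} {v : Fin n → ℂ}
    (hf : AnalyticAt ℂ f v) : AnalyticAt ℂ (fun u => (fderiv ℂ f u).det) v := by
  have h1 : ∀ u, (fderiv ℂ f u).det =
      Matrix.det (Matrix.of fun i j : Fin n => fderiv ℂ f u (Pi.single j 1) i) := by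
    intro u
    rw [ContinuousLinearMap.det, ← LinearMap.det_toMatrix']
    congr 1
  simp only [h1, Matrix.det_apply']
  refine Finset.analyticAt_fun_sum _ fun σ _ => ?_
  have h2 : AnalyticAt ℂ (fun u => ∏ i, (fderiv ℂ f u) (Pi.single i 1) (σ i)) v := by
    refine Finset.analyticAt_fun_prod _ fun i _ => ?_
    exact (((ContinuousLinearMap.proj (R := ℂ) (φ := fun _ : Fin n => ℂ) (σ i)).comp
      (ContinuousLinearMap.apply ℂ (Fin n → ℂ) (Pi.single i 1 : Fin n → ℂ))).analyticAt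
        (fderiv ℂ f v)).comp hf.fderiv
  simp only [Matrix.of_apply]
  exact analyticAt_const.mul h2

section

variable {X : Type} [TopologicalSpace X] {O : Shf X}

theorem xd18_cont {n : ℕ} {c : X → Fin n → ℂ} {U : Set X} (h : IsChart O U c (c '' U)) {y : X}
    (hy : y ∈ U) : ContinuousAt c y := by
  have h1 : ContinuousOn c U := continuousOn_iff_continuous_domRestrict.2 h.isEmbedding.continuous
  exact h1.continuousAt (h.isOpen.mem_nhds hy)

/-- The inverse of a coordinate system. -/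
theorem xd18_inv {n : ℕ} {c : X → Fin n → ℂ} {U : Set X} {x : X} (h : IsChart O U c (c '' U))
    (_hx : x ∈ U) : ∃ inv : (Fin n → ℂ) → X, (∀ y ∈ U, inv (c y) = y) ∧
      ∀ y ∈ U, ContinuousAt inv (c y) := by
  classical
  let inv : (Fin n → ℂ) → X := fun z => if hz : z ∈ c '' U then hz.choose else x
  have hinv : ∀ y ∈ U, inv (c y) = y := by
    intro y hy
    have hz : c y ∈ c '' U := ⟨y, hy, rfl⟩
    have h1 : inv (c y) = hz.choose := dif_pos hz
    rw [h1]
    have h2 := hz.choose_spec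
    have h3 : (⟨hz.choose, h2.1⟩ : U) = ⟨y, hy⟩ := h.isEmbedding.injective h2.2
    exact congrArg Subtype.val h3
  refine ⟨inv, hinv, fun y hy => ?_⟩
  intro N hN
  rw [hinv y hy] at hN
  have h1 : (Subtype.val ⁻¹' N : Set U) ∈ 𝓝 (⟨y, hy⟩ : U) :=
    continuous_subtype_val.continuousAt hN
  rw [h.isEmbedding.isInducing.nhds_eq_comap, mem_comap] at h1
  obtain ⟨W, hW, hWN⟩ := h1
  rw [mem_map]
  filter_upwards [hW, h.isOpenΩ.mem_nhds ⟨y, hy, rfl⟩] with z hz hz'
  obtain ⟨y', hy', rfl⟩ := hz'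
  rw [mem_preimage, hinv y' hy']
  exact @hWN ⟨y', hy'⟩ hz

/-- The coefficient of a form extends. -/
theorem xd18_ext {m : ℕ} {V V' : Set X} {x : X} (hV' : IsOpen V') (hx' : x ∈ V')
    (hsub : V' ⊆ insert x V) (θ : CForm O 3 m V) {c : X → Fin 3 → ℂ} {U : Set X}
    (hxU : x ∈ U) (h : IsChart O U c (c '' U)) (inv : (Fin 3 → ℂ) → X)
    (h1 : ∀ y ∈ U, inv (c y) = y) (h2 : ∀ y ∈ U, ContinuousAt inv (c y)) :
    (∀ᶠ z in 𝓝 (c x), z ≠ c x → AnalyticAt ℂ (fun w => θ.val c (inv w)) z) := by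
  have hN : ∀ᶠ z in 𝓝 (c x), inv z ∈ V' ∩ U := by
    have h3 := h2 x hxU
    have h4 : V' ∩ U ∈ 𝓝 (inv (c x)) := by
      rw [h1 x hxU]
      exact inter_mem (hV'.mem_nhds hx') (h.isOpen.mem_nhds hxU)
    exact h3 h4
  filter_upwards [hN, h.isOpenΩ.mem_nhds ⟨x, hxU, rfl⟩] with z hz hz' hne
  obtain ⟨y, hy, rfl⟩ := hz'
  rw [h1 y hy] at hz
  have hyx : y ≠ x := fun e => hne (by rw [e])
  have hyV : y ∈ V := (hsub hz.1).resolve_left hyx
  obtain ⟨F, hF, hFe⟩ := (h.hol y hy _).1 (θ.hol c y hyV ⟨U, hy, h⟩)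
  refine hF.congr ?_
  have h3 := (h2 y hy)
  have h4 : ∀ᶠ w in 𝓝 (c y), θ.val c (inv w) = F (c (inv w)) := by
    have h5 : Tendsto inv (𝓝 (c y)) (𝓝 y) := by
      have := h3.tendsto
      rwa [h1 y hy] at this
    exact h5.eventually hFe
  filter_upwards [h4, h.isOpenΩ.mem_nhds ⟨y, hy, rfl⟩] with w hw hw'
  obtain ⟨y', hy', rfl⟩ := hw'
  rw [hw, h1 y' hy']

theorem xd18_freq (p : Fin 3 → ℂ) : ∃ᶠ z in 𝓝 p, z ≠ p :=
  (C.freq_coord 0 p p).mono fun z hz e => hz (by rw [e])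

/-- The extended coefficient. -/
theorem xd18_ext' {m : ℕ} {V V' : Set X} {x : X} (hV' : IsOpen V') (hx' : x ∈ V')
    (hsub : V' ⊆ insert x V) (θ : CForm O 3 m V) (hθ : θ.IsGen) {c : X → Fin 3 → ℂ}
    (hc : IsCoord O c x) :
    ∃ g : (Fin 3 → ℂ) → ℂ, AnalyticAt ℂ g (c x) ∧ g (c x) ≠ 0 ∧
      ∀ᶠ y in 𝓝 x, y ≠ x → g (c y) = θ.val c y := by
  obtain ⟨U, hxU, h⟩ := hc
  obtain ⟨inv, h1, h2⟩ := xd18_inv h hxU
  have h3 := xd18_ext hV' hx' hsub θ hxU h inv h1 h2
  have hij : (0 : Fin 3) ≠ 1 := by decide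
  obtain ⟨g, hg, hge⟩ := C.hartogs_point hij h3
  have hN : ∀ᶠ z in 𝓝 (c x), inv z ∈ V' ∩ U := by
    have h3 := h2 x hxU
    have h4 : V' ∩ U ∈ 𝓝 (inv (c x)) := by
      rw [h1 x hxU]
      exact inter_mem (hV'.mem_nhds hx') (h.isOpen.mem_nhds hxU)
    exact h3 h4
  have hne : ∀ᶠ z in 𝓝 (c x), z ≠ c x → θ.val c (inv z) ≠ 0 := by
    filter_upwards [hN, h.isOpenΩ.mem_nhds ⟨x, hxU, rfl⟩] with z hz hz' hzne
    obtain ⟨y, hy, rfl⟩ := hz'
    rw [h1 y hy] at hz ⊢
    have hyx : y ≠ x := fun e => hzne (by rw [e])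
    exact hθ c y ((hsub hz.1).resolve_left hyx) ⟨U, hy, h⟩
  have h4 : ∀ᶠ z in 𝓝 (c x), z ≠ c x → AnalyticAt ℂ (fun w => (θ.val c (inv w))⁻¹) z := by
    filter_upwards [h3, hne] with z hz hz' hzne
    exact (hz hzne).fun_inv (hz' hzne)
  obtain ⟨g', hg', hge'⟩ := C.hartogs_point hij h4
  refine ⟨g, hg, ?_, ?_⟩
  · have h5 : g (c x) * g' (c x) = 1 := by
      have h6 : (fun z => g z * g' z) (c x) = (fun _ => (1 : ℂ)) (c x) := by
        refine C.eq_of_frequently (hg.continuousAt.mul hg'.continuousAt) continuousAt_const ?_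
        refine ((xd18_freq (c x)).and_eventually (hge.and (hge'.and hne))).mono ?_
        rintro z ⟨hz, e1, e2, e3⟩
        show g z * g' z = 1
        rw [e1 hz, e2 hz, mul_inv_cancel₀ (e3 hz)]
      exact h6
    intro h0
    rw [h0, zero_mul] at h5
    exact zero_ne_one h5
  · filter_upwards [(xd18_cont h hxU).eventually hge, h.isOpen.mem_nhds hxU] with y hy hyU hyx
    have hne' : c y ≠ c x := by
      intro e
      have h8 : (⟨y, hyU⟩ : U) = ⟨x, hxU⟩ := h.isEmbedding.injective e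
      exact hyx (congrArg Subtype.val h8)
    rw [hy hne', h1 y hyU]

/-- Two functions of the coordinates that agree near the point agree at the point. -/
theorem xd18_lim {c : X → Fin 3 → ℂ} {x : X} (hc : IsCoord O c x) {f g : (Fin 3 → ℂ) → ℂ}
    (hf : ContinuousAt f (c x)) (hg : ContinuousAt g (c x))
    (h : ∀ᶠ y in 𝓝 x, y ≠ x → f (c y) = g (c y)) : f (c x) = g (c x) := by
  obtain ⟨U, hxU, hU⟩ := hc
  obtain ⟨inv, h1, h2⟩ := xd18_inv hU hxU
  refine C.eq_of_frequently hf hg ?_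
  have h5 : Tendsto inv (𝓝 (c x)) (𝓝 x) := by
    have := (h2 x hxU).tendsto
    rwa [h1 x hxU] at this
  refine ((xd18_freq (c x)).and_eventually ((h5.eventually h).and
    (hU.isOpenΩ.mem_nhds ⟨x, hxU, rfl⟩))).mono ?_
  rintro z ⟨hz, e1, y, hy, rfl⟩
  rw [h1 y hy] at e1
  exact e1 fun e => hz (by rw [e])

end

theorem xd18 : SpFext := by
  classical
  intro X _ _ O m V V' x hL hV' hxV hxV' hsub θ hθ
  have hex : ∀ c : X → Fin 3 → ℂ, ∃ g : (Fin 3 → ℂ) → ℂ, IsCoord O c x →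
      AnalyticAt ℂ g (c x) ∧ g (c x) ≠ 0 ∧ ∀ᶠ y in 𝓝 x, y ≠ x → g (c y) = θ.val c y := by
    intro c
    by_cases hc : IsCoord O c x
    · obtain ⟨g, hg⟩ := xd18_ext' hV' hxV' hsub θ hθ hc
      exact ⟨g, fun _ => hg⟩
    · exact ⟨fun _ => 0, fun h => absurd h hc⟩
  choose g hg using hex
  have hnx : ∀ y, y ≠ x → ∀ c, (fun y => if y = x then g c (c x) else θ.val c y) =ᶠ[𝓝 y]
      θ.val c := by
    intro y hy c
    filter_upwards [isOpen_compl_singleton.mem_nhds hy] with y' hy'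
    exact if_neg hy'
  have hhol : ∀ c, ∀ y ∈ V', IsCoord O c y →
      O (fun y => if y = x then g c (c x) else θ.val c y) y := by
    intro c y hy hc
    by_cases hyx : y = x
    · subst hyx
      obtain ⟨h1, -, h3⟩ := hg c hc
      obtain ⟨U, hyU, hU⟩ := hc
      rw [hU.hol y hyU]
      refine ⟨g c, h1, ?_⟩
      filter_upwards [h3] with y' hy'
      by_cases e : y' = y
      · subst e
        simp
      · simp only [Function.comp_apply, if_neg e]
        exact (hy' e).symm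
    · have hyV : y ∈ V := (hsub hy).resolve_left hyx
      exact hL _ _ y (hnx y hyx c).symm (θ.hol c y hyV hc)
  have htr : ∀ c c', ∀ y ∈ V', IsCoord O c y → IsCoord O c' y → ∀ Ψ : (Fin 3 → ℂ) → (Fin 3 → ℂ),
      AnalyticAt ℂ Ψ (c y) → c' =ᶠ[𝓝 y] Ψ ∘ c →
      (if y = x then g c (c x) else θ.val c y) =
        (if y = x then g c' (c' x) else θ.val c' y) * (fderiv ℂ Ψ (c y)).det ^ m := by
    intro c c' y hy hc hc' Ψ hΨ he
    by_cases hyx : y = x
    · subst hyx
      rw [if_pos rfl, if_pos rfl]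
      obtain ⟨a1, -, a3⟩ := hg c hc
      obtain ⟨b1, -, b3⟩ := hg c' hc'
      have e0 : c' y = Ψ (c y) := he.self_of_nhds
      have hcc : ContinuousAt c y := by
        obtain ⟨U, hyU, hU⟩ := hc
        exact xd18_cont hU hyU
      have key : (fun z => g c z) (c y) =
          (fun z => g c' (Ψ z) * (fderiv ℂ Ψ z).det ^ m) (c y) := by
        refine xd18_lim (f := fun z => g c z)
          (g := fun z => g c' (Ψ z) * (fderiv ℂ Ψ z).det ^ m) hc a1.continuousAt ?_ ?_
        · refine ContinuousAt.mul ?_ ((xd18_det_analytic hΨ).continuousAt.pow m)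
          have : ContinuousAt (g c') (Ψ (c y)) := by
            rw [← e0]
            exact b1.continuousAt
          exact this.comp hΨ.continuousAt
        · have hcn : ∀ᶠ y' in 𝓝 y, IsCoord O c y' := by
            obtain ⟨U, hyU, hU⟩ := hc
            filter_upwards [hU.isOpen.mem_nhds hyU] with y' hy'
            exact ⟨U, hy', hU⟩
          have hcn' : ∀ᶠ y' in 𝓝 y, IsCoord O c' y' := by
            obtain ⟨U, hyU, hU⟩ := hc'
            filter_upwards [hU.isOpen.mem_nhds hyU] with y' hy'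
            exact ⟨U, hy', hU⟩
          filter_upwards [a3, b3, hcn, hcn', he.eventuallyEq_nhds, hV'.mem_nhds hy,
            hcc.eventually hΨ.eventually_analyticAt] with y' d1 d2 d3 d4 d5 d6 d7 hne
          have hyV : y' ∈ V := (hsub d6).resolve_left hne
          have e1 : c' y' = Ψ (c y') := d5.self_of_nhds
          have e2 := θ.tr c c' y' hyV d3 d4 Ψ d7 d5
          show g c (c y') = g c' (Ψ (c y')) * _
          rw [d1 hne, ← e1, d2 hne, e2]
      rw [e0]
      exact key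
    · rw [if_neg hyx, if_neg hyx]
      exact θ.tr c c' y ((hsub hy).resolve_left hyx) hc hc' Ψ hΨ he
  refine ⟨⟨fun c y => if y = x then g c (c x) else θ.val c y, hhol, htr⟩, ?_, ?_⟩
  · intro c y hy hc
    show (if y = x then g c (c x) else θ.val c y) ≠ 0
    by_cases hyx : y = x
    · subst hyx
      rw [if_pos rfl]
      exact (hg c hc).2.1
    · rw [if_neg hyx]
      exact hθ c y ((hsub hy).resolve_left hyx) hc
  · intro c y hyV _
    show (if y = x then g c (c x) else θ.val c y) = θ.val c y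
    rw [if_neg]
    rintro rfl
    exact hxV hyV

end Pool.Agent.KO
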