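import Pool.Agent.KO.Xb.St

/-!
# Row D19: pull-backs of forms

The pull-back of a form is defined and holomorphic where the map goes to manifold points; a
pull-back that extends over the other points is holomorphic.
-/

set_option autoImplicit false

namespace Pool.Agent.KO

open Set Filter Topology

/-- The determinant of a continuous linear map of `ℂ³` in terms of its coefficients. -/
theorem xd19_detmat (A : (Fin 3 → ℂ) →L[ℂ] (Fin 3 → ℂ)) :
    A.det = (Matrix.of fun i j => A (Pi.single j 1) i).det := by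
  have h : (Matrix.of fun i j => A (Pi.single j 1) i) =
      LinearMap.toMatrix' (A : (Fin 3 → ℂ) →ₗ[ℂ] (Fin 3 → ℂ)) := by
    ext i j
    simp [LinearMap.toMatrix'_apply]
  rw [h, LinearMap.det_toMatrix']

/-- The Jacobian determinant of an analytic map is analytic. -/
theorem xd19_det {f : (Fin 3 → ℂ) → (Fin 3 → ℂ)} {b : Fin 3 → ℂ} (hf : AnalyticAt ℂ f b) :
    AnalyticAt ℂ (fun v => (fderiv ℂ f v).det) b := by
  have h1 : (fun v => (fderiv ℂ f v).det) = fun v => ∑ s : Equiv.Perm (Fin 3),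
      ((Equiv.Perm.sign s : ℤ) : ℂ) * ∏ i, fderiv ℂ f v (Pi.single i 1) (s i) := by
    funext v
    rw [xd19_detmat, Matrix.det_apply']
    rfl
  rw [h1]
  refine Finset.analyticAt_fun_sum _ fun s _ => ?_
  refine analyticAt_const.mul ?_
  refine Finset.analyticAt_fun_prod _ fun i _ => ?_
  have h2 : AnalyticAt ℂ (fderiv ℂ f) b := hf.fderiv
  have h3 : AnalyticAt ℂ (fun v => fderiv ℂ f v (Pi.single i 1)) b :=
    ((ContinuousLinearMap.apply ℂ (Fin 3 → ℂ) (Pi.single i (1 : ℂ) : Fin 3 → ℂ)).analyticAt _).comp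
      h2
  exact ((ContinuousLinearMap.proj (R := ℂ) (φ := fun _ : Fin 3 => ℂ) (s i)).analyticAt _).comp h3

section

variable {X : Type} [TopologicalSpace X] {O : Shf X}

/-- The components of a coordinate system are holomorphic. -/
theorem xd19_comp {c : X → Fin 3 → ℂ} {y : X} (hc : IsCoord O c y) (i : Fin 3) :
    O (fun z => c z i) y := by
  obtain ⟨U, hy, hU⟩ := hc
  rw [hU.hol y hy]
  exact ⟨fun w => w i,
    (ContinuousLinearMap.proj (R := ℂ) (φ := fun _ : Fin 3 => ℂ) i).analyticAt _,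
    Filter.Eventually.of_forall fun z => rfl⟩

/-- Two coordinate systems are related by an analytic map. -/
theorem xd19_trans {c c' : X → Fin 3 → ℂ} {y : X} (hc : IsCoord O c y) (hc' : IsCoord O c' y) :
    ∃ Ψ : (Fin 3 → ℂ) → (Fin 3 → ℂ), AnalyticAt ℂ Ψ (c y) ∧ c' =ᶠ[𝓝 y] Ψ ∘ c := by
  have h := fun i => xd19_comp hc' i
  obtain ⟨U, hy, hU⟩ := hc
  have h2 := fun i => (hU.hol y hy _).1 (h i)
  choose F hF hFe using h2
  refine ⟨fun w i => F i w, AnalyticAt.pi hF, ?_⟩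
  filter_upwards [eventually_all.2 hFe] with z hz
  funext i
  exact hz i

/-- A coordinate system read in a holomorphic map is analytic. -/
theorem xd19_an {c : X → Fin 3 → ℂ} {φ : (Fin 3 → ℂ) → X} {b : Fin 3 → ℂ}
    (hφ : HolAt (stdO 3) O φ b) (hc : IsCoord O c (φ b)) : AnalyticAt ℂ (c ∘ φ) b := by
  have h : ∀ i, AnalyticAt ℂ (fun v => c (φ v) i) b := fun i => hφ.2 _ (xd19_comp hc i)
  exact AnalyticAt.pi h

/-- A coordinate system at a point is a coordinate system near this point. -/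
theorem xd19_near {c : X → Fin 3 → ℂ} {y : X} (hc : IsCoord O c y) :
    ∀ᶠ z in 𝓝 y, IsCoord O c z := by
  obtain ⟨U, hy, hU⟩ := hc
  filter_upwards [hU.isOpen.mem_nhds hy] with z hz
  exact ⟨U, hz, hU⟩

/-- The pull-back does not depend on the coordinate system. -/
theorem xd19_indep {m : ℕ} {V : Set X} (θ : CForm O 3 m V) {φ : (Fin 3 → ℂ) → X}
    {b : Fin 3 → ℂ} (hV : φ b ∈ V) (hφ : HolAt (stdO 3) O φ b) {c c' : X → Fin 3 → ℂ}
    (hc : IsCoord O c (φ b)) (hc' : IsCoord O c' (φ b)) :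
    θ.val c (φ b) * (fderiv ℂ (c ∘ φ) b).det ^ m =
      θ.val c' (φ b) * (fderiv ℂ (c' ∘ φ) b).det ^ m := by
  obtain ⟨Ψ, hΨ, he⟩ := xd19_trans hc hc'
  have h1 := θ.tr c c' (φ b) hV hc hc' Ψ hΨ he
  have h2 : c' ∘ φ =ᶠ[𝓝 b] Ψ ∘ (c ∘ φ) := hφ.1.eventually he
  have h3 : fderiv ℂ (c' ∘ φ) b = (fderiv ℂ Ψ (c (φ b))).comp (fderiv ℂ (c ∘ φ) b) := by
    rw [h2.fderiv_eq]
    exact fderiv_comp b hΨ.differentiableAt (xd19_an hφ hc).differentiableAt
  have h4 : (fderiv ℂ (c' ∘ φ) b).det =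
      (fderiv ℂ Ψ (c (φ b))).det * (fderiv ℂ (c ∘ φ) b).det := by
    rw [h3]
    exact LinearMap.det_comp _ _
  rw [h4, h1, mul_pow, mul_assoc]

end

theorem xd19 : SpPull := by
  classical
  intro X _ O m V θ B φ hO hV hB hφ hcl
  have hopen : IsOpen {b | b ∈ B ∧ IsReg O 3 (φ b)} := by
    rw [isOpen_iff_mem_nhds]
    rintro b ⟨hb, c, hc⟩
    filter_upwards [hB.mem_nhds hb, (hφ b hb).2.1.eventually (xd19_near hc)] with b' h1 h2
    exact ⟨h1, c, h2⟩
  refine ⟨hopen, ?_⟩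
  let h0 : (Fin 3 → ℂ) → ℂ := fun b =>
    if h : ∃ c : X → Fin 3 → ℂ, IsCoord O c (φ b) then
      θ.val h.choose (φ b) * (fderiv ℂ (h.choose ∘ φ) b).det ^ m else 0
  have hh0 : ∀ b ∈ B, ∀ c, IsCoord O c (φ b) →
      h0 b = θ.val c (φ b) * (fderiv ℂ (c ∘ φ) b).det ^ m := by
    intro b hb c hc
    have hex : ∃ c : X → Fin 3 → ℂ, IsCoord O c (φ b) := ⟨c, hc⟩
    have h1 : h0 b = θ.val hex.choose (φ b) * (fderiv ℂ (hex.choose ∘ φ) b).det ^ m :=
      dif_pos hex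
    rw [h1]
    exact xd19_indep θ (hφ b hb).1 (hφ b hb).2 hex.choose_spec hc
  have han : ∀ b ∈ B, IsReg O 3 (φ b) → AnalyticAt ℂ h0 b := by
    rintro b hb ⟨c, hc⟩
    have h1 : AnalyticAt ℂ (θ.val c ∘ φ) b := (hφ b hb).2.2 _ (θ.hol c _ (hφ b hb).1 hc)
    have h2 : AnalyticAt ℂ (fun v => (fderiv ℂ (c ∘ φ) v).det) b :=
      xd19_det (xd19_an (hφ b hb).2 hc)
    refine (h1.mul (h2.pow m)).congr ?_
    filter_upwards [hB.mem_nhds hb, (hφ b hb).2.1.eventually (xd19_near hc)] with b' h3 h4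
    exact (hh0 b' h3 c h4).symm
  refine ⟨h0, fun b hb hr => ⟨han b hb hr, hh0 b hb⟩, ?_⟩
  intro hext
  choose! E hE1 hE2 using hext
  let h : (Fin 3 → ℂ) → ℂ := fun b => if IsReg O 3 (φ b) then h0 b else E b b
  have hreg : ∀ b, IsReg O 3 (φ b) → h b = h0 b := fun b hb => if_pos hb
  have hnreg : ∀ b, ¬ IsReg O 3 (φ b) → h b = E b b := fun b hb => if_neg hb
  refine ⟨h, ?_, ?_⟩
  · intro b0 hb0
    by_cases hr : IsReg O 3 (φ b0)
    · refine (han b0 hb0 hr).congr ?_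
      filter_upwards [hopen.mem_nhds (show b0 ∈ {b | b ∈ B ∧ IsReg O 3 (φ b)} from ⟨hb0, hr⟩)]
        with b hb
      exact (hreg b hb.2).symm
    · refine (hE1 b0 hb0 hr).congr ?_
      filter_upwards [hB.mem_nhds hb0, (hE2 b0 hb0 hr).eventually_nhds,
        (hE1 b0 hb0 hr).eventually_analyticAt] with b hb h1 h2
      by_cases hr' : IsReg O 3 (φ b)
      · rw [hreg b hr']
        exact h1.self_of_nhds hb hr'
      · rw [hnreg b hr']
        have h3 : ∃ᶠ b' in 𝓝 b, b' ∈ {b | b ∈ B ∧ IsReg O 3 (φ b)} :=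
          mem_closure_iff_frequently.1 (hcl hb)
        have h4 : ∃ᶠ b' in 𝓝 b, E b0 b' - E b b' ∈ ({0} : Set ℂ) := by
          refine (h3.and_eventually (h1.and (hE2 b hb hr'))).mono ?_
          rintro b' ⟨⟨h5, h6⟩, h7, h8⟩
          rw [mem_singleton_iff, h7 h5 h6, h8 h5 h6, sub_self]
        have h5 : Tendsto (fun b' => E b0 b' - E b b') (𝓝 b) (𝓝 (E b0 b - E b b)) :=
          h2.continuousAt.sub (hE1 b hb hr').continuousAt
        exact sub_eq_zero.1 (isClosed_singleton.mem_of_frequently_of_tendsto h4 h5)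
  · intro b hb c hc
    rw [hreg b ⟨c, hc⟩]
    exact hh0 b hb c hc

end Pool.Agent.KO
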