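import Pool.Agent.KO.Xb.St

/-!
# Project KO, row Xd-D2: stabilizers in the central fibre
-/

set_option autoImplicit false

namespace Pool.Agent.KO

open Set Filter Topology

theorem xd2_pow {l : ℂ} {p : Fin 6 → ℂ} (h : dact (fun i => (wgt i : ℤ)) l p = p) (k : Fin 6)
    (hk : p k ≠ 0) : l ^ wgt k = 1 := by
  have h1 : l ^ ((wgt k : ℕ) : ℤ) * p k = p k := congrFun h k
  rw [zpow_natCast] at h1
  exact mul_right_cancel₀ hk (by rw [h1, one_mul])

theorem xd2_one (p : Fin 6 → ℂ) : dact (fun i => (wgt i : ℤ)) 1 p = p := by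
  funext i
  simp [dact]

theorem xd2_gcd {l : ℂ} (a b : ℕ) (ha : l ^ a = 1) (hb : l ^ b = 1) : l ^ Nat.gcd a b = 1 := by
  rw [← orderOf_dvd_iff_pow_eq_one] at *
  exact Nat.dvd_gcd ha hb

/-- Enough: the powers are trivial only for `l = 1`. -/
theorem xd2_left {p : Fin 6 → ℂ} (h : ∀ l : ℂ, (∀ k, p k ≠ 0 → l ^ wgt k = 1) → l = 1) :
    ∀ l : ℂ, l ≠ 0 → (dact (fun i => (wgt i : ℤ)) l p = p ↔ l ^ 1 = 1) := by
  intro l _
  refine ⟨fun h1 => ?_, fun h1 => ?_⟩
  · rw [pow_one]
    exact h l fun k hk => xd2_pow h1 k hk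
  · rw [pow_one] at h1
    rw [h1]
    exact xd2_one p

theorem xd2 : SpSt0 := by
  rintro p ⟨⟨hG, ⟨i, hi5, hi⟩, -⟩, hΓ⟩ h5
  by_cases h0 : p 0 = 0
  · have hE : p 4 ^ 2 + p 3 ^ 3 + p 1 ^ 12 * p 2 = 0 := by
      have h1 := hG
      simp only [G, h0, h5] at h1
      linear_combination h1
    by_cases h1 : p 1 = 0
    · have hE2 : p 4 ^ 2 + p 3 ^ 3 = 0 := by
        rw [h1] at hE
        linear_combination hE
      by_cases h3 : p 3 = 0
      · exfalso
        have h4 : p 4 = 0 := by
          rw [h3] at hE2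
          have : p 4 ^ 2 = 0 := by linear_combination hE2
          exact pow_eq_zero_iff (two_ne_zero) |>.1 this
        apply hΓ
        refine ⟨h5, h1, ?_, ?_⟩
        · rw [h3, h0]
          ring
        · rw [h4, h0]
          ring
      · have h4 : p 4 ≠ 0 := by
          intro h4
          rw [h4] at hE2
          have : p 3 ^ 3 = 0 := by linear_combination hE2
          exact h3 (pow_eq_zero_iff (three_ne_zero) |>.1 this)
        by_cases h2 : p 2 = 0
        · exact Or.inr (Or.inr ⟨h3, h4, h0, h1, h2⟩)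
        · left
          apply xd2_left
          intro l hl
          have e2 : l ^ 6 = 1 := hl 2 h2
          have e3 : l ^ 22 = 1 := hl 3 h3
          have e4 : l ^ 33 = 1 := hl 4 h4
          have e5 := xd2_gcd _ _ (xd2_gcd _ _ e2 e3) e4
          norm_num at e5
          exact e5
    · by_cases h2 : p 2 = 0 ∧ p 3 = 0 ∧ p 4 = 0
      · exact Or.inr (Or.inl ⟨h1, h0, h2.1, h2.2.1, h2.2.2⟩)
      · left
        apply xd2_left
        intro l hl
        have e1 : l ^ 5 = 1 := hl 1 h1
        rw [not_and_or, not_and_or] at h2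
        rcases h2 with h2 | h2 | h2
        · have e2 : l ^ 6 = 1 := hl 2 h2
          have e5 := xd2_gcd _ _ e1 e2
          norm_num at e5
          exact e5
        · have e2 : l ^ 22 = 1 := hl 3 h2
          have e5 := xd2_gcd _ _ e1 e2
          norm_num at e5
          exact e5
        · have e2 : l ^ 33 = 1 := hl 4 h2
          have e5 := xd2_gcd _ _ e1 e2
          norm_num at e5
          exact e5
  · left
    apply xd2_left
    intro l hl
    have e0 : l ^ 1 = 1 := hl 0 h0
    rwa [pow_one] at e0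

end Pool.Agent.KO
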