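import Pool.Agent.KO.Xb.St
import Pool.Agent.KO.C.Pole

/-!
# Project KO (MP_eb6d9f_ag), block Xd, row D20: the pole lemma with several functions
-/

set_option autoImplicit false

namespace Pool.Agent.KO

open Set Filter Topology

section xd20

variable {E : Type*} [NormedAddCommGroup E] [NormedSpace ℂ E] [FiniteDimensional ℂ E]

/-- Finitely many germs which are not zero on the hyperplane `l = 0`. -/
theorem xd20_freq {q : E} {l : E →L[ℂ] ℂ} (hl : ∃ᶠ x in 𝓝 q, l (x - q) = 0) {ι : Type}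
    (S : Finset ι) (G : ι → E → ℂ) (hG : ∀ i, AnalyticAt ℂ (G i) q)
    (hG0 : ∀ i, ∃ᶠ x in 𝓝 q, l (x - q) = 0 ∧ G i x ≠ 0) :
    ∃ᶠ x in 𝓝 q, l (x - q) = 0 ∧ ∏ i ∈ S, G i x ≠ 0 := by
  classical
  induction S using Finset.induction_on with
  | empty => exact hl.mono fun x hx => ⟨hx, by simp⟩
  | insert i S hi ih =>
    have h1 : AnalyticAt ℂ (fun x => ∏ j ∈ S, G j x) q :=
      Finset.analyticAt_fun_prod S fun j _ => hG j
    refine (C.two_freq (hG i) h1 (hG0 i) ih).mono ?_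
    rintro x ⟨h2, h3, h4⟩
    refine ⟨h2, ?_⟩
    rw [Finset.prod_insert hi]
    exact mul_ne_zero h3 h4

/-- Simultaneous normal form along a smooth hypersurface. -/
theorem xd20_normal {c : E → ℂ} {q : E} (hc : AnalyticAt ℂ c q) (hcq : c q = 0)
    (hcd : fderiv ℂ c q ≠ 0) {ι : Type} [Fintype ι] (G : ι → E → ℂ)
    (hG : ∀ i, AnalyticAt ℂ (G i) q) (hG0 : ∀ i, ∃ᶠ x in 𝓝 q, G i x ≠ 0) {N : Set E}
    (hN : N ∈ 𝓝 q) :
    ∃ y ∈ N, c y = 0 ∧ ∀ i, ∃ (e : ℕ) (u : E → ℂ), AnalyticAt ℂ u y ∧ u y ≠ 0 ∧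
      ∀ᶠ x in 𝓝 y, G i x = c x ^ e * u x := by
  classical
  obtain ⟨v, hv⟩ : ∃ v, fderiv ℂ c q v ≠ 0 := by
    by_contra hcon
    push Not at hcon
    exact hcd (ContinuousLinearMap.ext hcon)
  have hv0 : v ≠ 0 := by
    rintro rfl
    exact hv (map_zero _)
  obtain ⟨l, hl⟩ := SeparatingDual.exists_eq_one (R := ℂ) hv0
  set κ : ℂ := fderiv ℂ c q v with hκd
  set c' : E →L[ℂ] ℂ := fderiv ℂ c q with hc'
  set Φ : E → E := fun x => x + (c x - l (x - q)) • v with hΦ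
  set L : E →L[ℂ] E := ContinuousLinearMap.id ℂ E + (c' - l).smulRight v with hL
  set L' : E →L[ℂ] E := ContinuousLinearMap.id ℂ E - (κ⁻¹ • (c' - l)).smulRight v with hL'
  have hLw : ∀ w, L w = w + (c' w - l w) • v := fun w => rfl
  have hL'w : ∀ w, L' w = w - (κ⁻¹ * (c' w - l w)) • v := fun w => rfl
  have hLL' : Function.LeftInverse L' L := by
    intro w
    have h1 : κ⁻¹ * (c' (L w) - l (L w)) = c' w - l w := by
      rw [hLw, map_add, map_smul, map_add, map_smul, hl, ← hκd, smul_eq_mul, smul_eq_mul]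
      field_simp
      ring
    rw [hL'w, h1, hLw]
    abel
  have hL'L : Function.RightInverse L' L := by
    intro w
    have h1 : c' (L' w) - l (L' w) = κ⁻¹ * (c' w - l w) := by
      rw [hL'w, map_sub, map_smul, map_sub, map_smul, hl, ← hκd, smul_eq_mul, smul_eq_mul]
      field_simp
      ring
    rw [hLw, h1, hL'w]
    abel
  have hΦa : AnalyticAt ℂ Φ q :=
    analyticAt_id.add ((hc.sub (C.lin_an l q q)).smul analyticAt_const)
  have hΦd : fderiv ℂ Φ q = L := by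
    have h1 : HasFDerivAt c c' q := hc.differentiableAt.hasFDerivAt
    have h2 : HasFDerivAt (fun x => l (x - q)) l q := by
      have h3 : HasFDerivAt (fun x : E => x - q) (ContinuousLinearMap.id ℂ E) q :=
        (hasFDerivAt_id q).sub_const q
      exact l.hasFDerivAt.comp q h3
    exact ((hasFDerivAt_id q).add ((h1.sub h2).smul_const v)).fderiv
  have hΦq : Φ q = q := by
    simp [hΦ, hcq]
  obtain ⟨e, heq, heΦ, hea, hesymm⟩ := C.inv hΦa
    (ContinuousLinearEquiv.equivOfInverse L L' hLL' hL'L) (by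
      rw [hΦd]
      rfl)
  have hlΦ : ∀ x, l (Φ x - q) = c x := by
    intro x
    have h1 : Φ x - q = (x - q) + (c x - l (x - q)) • v := by
      rw [hΦ]; simp only; abel
    rw [h1, map_add, map_smul, hl, smul_eq_mul, mul_one]
    ring
  set Ψ : E → E := fun y => e.symm y with hΨ
  have hqt : q ∈ e.target := by
    have h1 := e.map_source heq
    rwa [heΦ, hΦq] at h1
  have hΨq : Ψ q = q := by
    have h1 := e.left_inv heq
    rwa [heΦ, hΦq] at h1
  have hΨa : AnalyticAt ℂ Ψ q := hesymm q hqt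
  have hΦΨ : ∀ y ∈ e.target, Φ (Ψ y) = y := fun y hy => by
    rw [← heΦ]
    exact e.right_inv hy
  have hΨΦ : ∀ x ∈ e.source, Ψ (Φ x) = x := fun x hx => by
    rw [← heΦ]
    exact e.left_inv hx
  have hcΨ : ∀ y ∈ e.target, c (Ψ y) = l (y - q) := fun y hy => by
    rw [← hlΦ, hΦΨ y hy]
  have hΨt : Tendsto Ψ (𝓝 q) (𝓝 q) := by
    have h1 := hΨa.continuousAt
    rwa [ContinuousAt, hΨq] at h1
  have hΦt : Tendsto Φ (𝓝 q) (𝓝 q) := by
    have h1 := hΦa.continuousAt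
    rwa [ContinuousAt, hΦq] at h1
  have hsrc : ∀ᶠ x in 𝓝 q, x ∈ e.source := e.open_source.mem_nhds heq
  have htgt : ∀ᶠ y in 𝓝 q, y ∈ e.target := e.open_target.mem_nhds hqt
  have hGΨ : ∀ i, AnalyticAt ℂ (fun y => G i (Ψ y)) q := fun i =>
    AnalyticAt.comp (g := G i) (f := Ψ) (by rw [hΨq]; exact hG i) hΨa
  have hGΨ0 : ∀ i, ∃ᶠ y in 𝓝 q, G i (Ψ y) ≠ 0 := by
    intro i hcon
    apply hG0 i
    filter_upwards [hΦt.eventually hcon, hsrc] with x hx1 hx2
    rwa [hΨΦ x hx2] at hx1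
  choose s A hA hsA hAf using fun i => C.gen_order' hl (hGΨ i) (hGΨ0 i)
  have hl0 : ∃ᶠ x in 𝓝 q, l (x - q) = 0 := by
    intro hcon
    exact hcon.self_of_nhds (by simp)
  have hfr := xd20_freq hl0 Finset.univ A hA hAf
  have hall : ∀ᶠ y in 𝓝 q, ∀ i, (∀ᶠ x in 𝓝 y, G i (Ψ x) = l (x - q) ^ s i * A i x) ∧
      AnalyticAt ℂ (A i) y :=
    Filter.eventually_all.2 fun i => (hsA i).eventually_nhds.and (hA i).eventually_analyticAt
  obtain ⟨y, ⟨hy1, hy2⟩, hyN, hyt, hyall⟩ := (hfr.and_eventually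
    ((hΨt.eventually (Filter.eventually_mem_set.2 hN)).and (htgt.and hall))).exists
  have hΨsrc : Ψ y ∈ e.source := e.map_target hyt
  have hΦΨa : AnalyticAt ℂ Φ (Ψ y) := hea _ hΨsrc
  have hΦc : Tendsto Φ (𝓝 (Ψ y)) (𝓝 y) := by
    have h1 := hΦΨa.continuousAt
    rwa [ContinuousAt, hΦΨ y hyt] at h1
  refine ⟨Ψ y, hyN, by rw [hcΨ y hyt, hy1], fun i => ⟨s i, fun x => A i (Φ x), ?_, ?_, ?_⟩⟩
  · exact AnalyticAt.comp (g := A i) (f := Φ) (by rw [hΦΨ y hyt]; exact (hyall i).2) hΦΨa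
  · change A i (Φ (Ψ y)) ≠ 0
    rw [hΦΨ y hyt]
    exact Finset.prod_ne_zero_iff.1 hy2 i (Finset.mem_univ i)
  · filter_upwards [hΦc.eventually (hyall i).1, e.open_source.mem_nhds hΨsrc] with x hx1 hx2
    rwa [hlΦ, hΨΦ x hx2] at hx1

end xd20

/-- D20. The pole lemma with several functions. -/
theorem xd20 : SpPole := by
  intro n p a d k g ha hd hd0 hg hg0 hno N hN
  have hdf : ∃ᶠ x in 𝓝 p, d x ≠ 0 := not_eventually.1 hd0
  have haf : ∃ᶠ x in 𝓝 p, a x ≠ 0 := by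
    intro hcon
    refine hno ⟨fun _ => 0, analyticAt_const, ?_⟩
    filter_upwards [hcon] with x hx
    rw [mul_zero, not_not.1 hx]
  have hgf : ∀ i, ∃ᶠ x in 𝓝 p, g i x ≠ 0 := fun i => not_eventually.1 (hg0 i)
  obtain ⟨W, hWsub, hWo, hpW⟩ := _root_.mem_nhds_iff.1 hN
  -- the good neighbourhood
  have hev : ∀ᶠ x in 𝓝 p, x ∈ W ∧ (AnalyticAt ℂ a x ∧ ∃ᶠ y in 𝓝 x, a y ≠ 0) ∧
      (AnalyticAt ℂ d x ∧ ∃ᶠ y in 𝓝 x, d y ≠ 0) ∧
      ∀ i, AnalyticAt ℂ (g i) x ∧ ∃ᶠ y in 𝓝 x, g i y ≠ 0 :=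
    (Filter.eventually_mem_set.2 (hWo.mem_nhds hpW)).and
      ((ha.eventually_analyticAt.and (C.freq_near ha haf)).and
        ((hd.eventually_analyticAt.and (C.freq_near hd hdf)).and
          (Filter.eventually_all.2 fun i =>
            (hg i).eventually_analyticAt.and (C.freq_near (hg i) (hgf i)))))
  obtain ⟨q, ⟨hqW, hqa, hqd, hqg⟩, c, u, e0, he0, hc, hu, hcq, hcd, huq, hcu⟩ :=
    C.pole ha hd hdf hno hev
  -- the normal form at a nearby point
  have hκev : ∀ᶠ x in 𝓝 q, fderiv ℂ c x ≠ 0 := hc.fderiv.continuousAt.eventually_ne hcd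
  have hN2 : ∀ᶠ x in 𝓝 q, x ∈ W ∧ AnalyticAt ℂ c x ∧ fderiv ℂ c x ≠ 0 ∧ AnalyticAt ℂ u x ∧
      u x ≠ 0 ∧ ∀ᶠ y in 𝓝 x, c y ^ e0 * a y = u y * d y :=
    (Filter.eventually_mem_set.2 (hWo.mem_nhds hqW)).and (hc.eventually_analyticAt.and
      (hκev.and (hu.eventually_analyticAt.and ((hu.continuousAt.eventually_ne huq).and
        hcu.eventually_nhds))))
  obtain ⟨y, ⟨hyW, hyc, hyκ, hyu, hyu0, hycu⟩, hcy, hnf⟩ := xd20_normal hc hcq hcd
    (ι := Option (Option (Fin k)))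
    (fun i => match i with
      | none => a
      | some none => d
      | some (some i) => g i)
    (fun i => match i with
      | none => hqa.1
      | some none => hqd.1
      | some (some i) => (hqg i).1)
    (fun i => match i with
      | none => hqa.2
      | some none => hqd.2
      | some (some i) => (hqg i).2) hN2
  obtain ⟨e1, u1, hu1, hu10, hau⟩ := hnf none
  obtain ⟨e2, u2, hu2, hu20, hdu⟩ := hnf (some none)
  refine ⟨y, hWsub hyW, c, hyc, hcy, hyκ, ⟨e1, e2, u1, u2, ?_, hu1, hu10, hu2, hu20, hau, hdu⟩,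
    fun i => hnf (some (some i))⟩
  -- the exponents
  have hcf : ∃ᶠ x in 𝓝 y, c x ≠ 0 := by
    intro hcon
    apply hyκ
    have h1 : c =ᶠ[𝓝 y] fun _ => (0 : ℂ) := hcon.mono fun x hx => not_not.1 hx
    rw [h1.fderiv_eq]
    simp
  have hrel : ∀ᶠ x in 𝓝 y, c x ^ (e0 + e1) * u1 x = c x ^ e2 * (u x * u2 x) := by
    filter_upwards [hycu, hau, hdu] with x h1 h2 h3
    change a x = _ at h2
    change d x = _ at h3
    rw [h2, h3] at h1
    rw [pow_add]
    linear_combination h1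
  by_contra hlt
  push Not at hlt
  have h1 : e2 < e0 + e1 := by omega
  obtain ⟨m, hm⟩ := Nat.exists_eq_add_of_lt h1
  have h2 : u y * u2 y = c y ^ (m + 1) * u1 y := by
    refine C.eq_of_frequently (f := fun x => u x * u2 x) (g := fun x => c x ^ (m + 1) * u1 x)
      (hyu.mul hu2).continuousAt ((hyc.pow _).mul hu1).continuousAt ?_
    refine (hcf.and_eventually hrel).mono ?_
    rintro x ⟨h3, h4⟩
    rw [hm, add_assoc, pow_add, mul_assoc] at h4
    exact (mul_left_cancel₀ (pow_ne_zero _ h3) h4).symm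
  rw [hcy, zero_pow (Nat.succ_ne_zero m), zero_mul] at h2
  exact mul_ne_zero hyu0 hu20 h2

end Pool.Agent.KO
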