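import Pool.Agent.KO.Xb.St
import Pool.Agent.KO.C.Iden

/-!
# Project KO, row Xd-D21: the logarithmic inequality
-/

set_option autoImplicit false

namespace Pool.Agent.KO

open Set Filter Topology

/-- The determinant of a continuous linear map of `ℂ ^ 3` in coordinates. -/
theorem xd21_det (L : (Fin 3 → ℂ) →L[ℂ] (Fin 3 → ℂ)) :
    L.det = Matrix.det (Matrix.of fun k j => L (Pi.single j 1) k) := by
  have h1 : L.det = LinearMap.det (L : (Fin 3 → ℂ) →ₗ[ℂ] (Fin 3 → ℂ)) := rfl
  rw [h1, ← LinearMap.det_toMatrix']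
  rfl

/-- The determinant of rows `α k • σ + s • β k`. -/
theorem xd21_alg (α : Fin 3 → ℂ) (σ : Fin 3 → ℂ) (β : Fin 3 → Fin 3 → ℂ) (s : ℂ) :
    Matrix.det (Matrix.of fun k j => α k * σ j + s * β k j) =
      s ^ 2 * (α 0 * Matrix.det (Matrix.of ![σ, β 1, β 2]) +
        α 1 * Matrix.det (Matrix.of ![β 0, σ, β 2]) +
        α 2 * Matrix.det (Matrix.of ![β 0, β 1, σ]) + s * Matrix.det (Matrix.of β)) := by
  simp only [Matrix.det_fin_three, Matrix.of_apply, Matrix.cons_val_zero, Matrix.cons_val_one,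
    Matrix.cons_val]
  ring

theorem xd21 : SpLog := by
  intro q s f u e hs hs0 hds hf hu hfu
  have hd : ∀ (g : (Fin 3 → ℂ) → ℂ), AnalyticAt ℂ g q → ∀ j : Fin 3,
      AnalyticAt ℂ (fun v => fderiv ℂ g v (Pi.single j 1)) q := fun g hg j =>
    ((ContinuousLinearMap.apply ℂ ℂ (Pi.single j (1 : ℂ) : Fin 3 → ℂ)).analyticAt _).comp hg.fderiv
  set σ : (Fin 3 → ℂ) → Fin 3 → ℂ := fun v j => fderiv ℂ s v (Pi.single j 1) with hσ
  set β : (Fin 3 → ℂ) → Fin 3 → Fin 3 → ℂ := fun v k j => fderiv ℂ (u k) v (Pi.single j 1) with hβ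
  set α : (Fin 3 → ℂ) → Fin 3 → ℂ := fun v k => (e k : ℂ) * u k v with hα
  set w : (Fin 3 → ℂ) → ℂ := fun v =>
    α v 0 * Matrix.det (Matrix.of ![σ v, β v 1, β v 2]) +
      α v 1 * Matrix.det (Matrix.of ![β v 0, σ v, β v 2]) +
      α v 2 * Matrix.det (Matrix.of ![β v 0, β v 1, σ v]) + s v * Matrix.det (Matrix.of (β v)) with hw
  have hσa : ∀ j, AnalyticAt ℂ (fun v => σ v j) q := fun j => hd s hs j
  have hβa : ∀ k j, AnalyticAt ℂ (fun v => β v k j) q := fun k j => hd (u k) (hu k) j
  have hαa : ∀ k, AnalyticAt ℂ (fun v => α v k) q := fun k => analyticAt_const.mul (hu k)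
  have hwa : AnalyticAt ℂ w q := by
    simp only [hw, Matrix.det_fin_three, Matrix.of_apply, Matrix.cons_val_zero, Matrix.cons_val_one,
      Matrix.cons_val]
    have h0 := hσa 0
    have h1 := hσa 1
    have h2 := hσa 2
    have a0 := hαa 0
    have a1 := hαa 1
    have a2 := hαa 2
    have b00 := hβa 0 0
    have b01 := hβa 0 1
    have b02 := hβa 0 2
    have b10 := hβa 1 0
    have b11 := hβa 1 1
    have b12 := hβa 1 2
    have b20 := hβa 2 0
    have b21 := hβa 2 1
    have b22 := hβa 2 2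
    fun_prop
  refine ⟨w, hwa, ?_⟩
  -- the partial derivatives
  have hall : ∀ᶠ v in 𝓝 q, ∀ k, (∀ᶠ x in 𝓝 v, f k x = s x ^ e k * u k x) ∧ AnalyticAt ℂ (f k) v ∧
      AnalyticAt ℂ (u k) v := by
    rw [Filter.eventually_all]
    intro k
    exact (hfu k).eventually_nhds.and ((hf k).eventually_analyticAt.and (hu k).eventually_analyticAt)
  have hkey : ∀ᶠ v in 𝓝 q, (s v) ^ 2 * (s v * (fderiv ℂ (fun x k => f k x) v).det) =
      (s v) ^ 2 * (s v ^ (e 0 + e 1 + e 2) * w v) := by
    filter_upwards [hall, hs.eventually_analyticAt] with v hv hsv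
    have h1 : ∀ k j, s v * fderiv ℂ (fun x k => f k x) v (Pi.single j 1) k =
        s v ^ e k * (α v k * σ v j + s v * β v k j) := by
      intro k j
      rw [fderiv_pi fun k => (hv k).2.1.differentiableAt, ContinuousLinearMap.pi_apply]
      have h2 : fderiv ℂ (f k) v = fderiv ℂ (fun x => s x ^ e k * u k x) v :=
        Filter.EventuallyEq.fderiv_eq (hv k).1
      have h3 : HasFDerivAt (fun x => s x ^ e k * u k x)
          (s v ^ e k • fderiv ℂ (u k) v + u k v • ((e k • s v ^ (e k - 1)) • fderiv ℂ s v)) v :=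
        (hsv.differentiableAt.hasFDerivAt.pow (e k)).mul (hv k).2.2.differentiableAt.hasFDerivAt
      rw [h2, h3.fderiv]
      simp only [hα, hσ, hβ, add_apply, smul_apply, smul_eq_mul, nsmul_eq_mul]
      rcases Nat.eq_zero_or_pos (e k) with h4 | h4
      · rw [h4]
        simp
      · have h5 : s v ^ e k = s v ^ (e k - 1) * s v := by
          rw [← pow_succ, Nat.sub_add_cancel h4]
        rw [h5]
        ring
    rw [xd21_det]
    have h6 : (s v) ^ 3 * Matrix.det (Matrix.of fun k j =>
        fderiv ℂ (fun x k => f k x) v (Pi.single j 1) k) =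
        s v ^ (e 0 + e 1 + e 2) * Matrix.det (Matrix.of fun k j => α v k * σ v j + s v * β v k j) := by
      have h7 : (s v) ^ 3 * Matrix.det (Matrix.of fun k j =>
          fderiv ℂ (fun x k => f k x) v (Pi.single j 1) k) =
          Matrix.det (Matrix.of fun k j => s v *
            fderiv ℂ (fun x k => f k x) v (Pi.single j 1) k) := by
        simp only [Matrix.det_fin_three, Matrix.of_apply]
        ring
      rw [h7]
      simp only [h1]
      simp only [Matrix.det_fin_three, Matrix.of_apply]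
      ring
    rw [xd21_alg] at h6
    calc (s v) ^ 2 * (s v * _) = (s v) ^ 3 * Matrix.det (Matrix.of fun k j =>
        fderiv ℂ (fun x k => f k x) v (Pi.single j 1) k) := by ring
      _ = _ := by
        rw [h6]
        simp only [hw]
        ring
  have hdet : AnalyticAt ℂ (fun v => (fderiv ℂ (fun x k => f k x) v).det) q := by
    have h1 : (fun v => (fderiv ℂ (fun x k => f k x) v).det) = fun v => Matrix.det (Matrix.of
        fun k j => fderiv ℂ (fun x k => f k x) v (Pi.single j 1) k) := by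
      ext v
      exact xd21_det _
    have h2 : ∀ k j : Fin 3, AnalyticAt ℂ
        (fun v => fderiv ℂ (fun x k => f k x) v (Pi.single j 1) k) q := by
      intro k j
      have h3 : AnalyticAt ℂ (fun x k => f k x) q := AnalyticAt.pi fun k => hf k
      exact (((ContinuousLinearMap.proj (R := ℂ) (φ := fun _ : Fin 3 => ℂ) k).comp
        (ContinuousLinearMap.apply ℂ (Fin 3 → ℂ)
          (Pi.single j (1 : ℂ) : Fin 3 → ℂ))).analyticAt _).comp h3.fderiv
    rw [h1]
    simp only [Matrix.det_fin_three, Matrix.of_apply]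
    have b00 := h2 0 0
    have b01 := h2 0 1
    have b02 := h2 0 2
    have b10 := h2 1 0
    have b11 := h2 1 1
    have b12 := h2 1 2
    have b20 := h2 2 0
    have b21 := h2 2 1
    have b22 := h2 2 2
    fun_prop
  refine C.cancel (hs.pow 2) (hs.mul hdet) ((hs.pow _).mul hwa) ?_ hkey
  intro hcon
  apply hds
  have h1 : s =ᶠ[𝓝 q] fun _ => 0 := hcon.mono fun x hx => pow_eq_zero_iff (two_ne_zero) |>.1 hx
  rw [h1.fderiv_eq, fderiv_const_apply]

end Pool.Agent.KO
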