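import Pool.Agent.KO.Xb.St
import Pool.Agent.KO.C.Iden

/-!
# Block Xd, row D22: extension of the pull-back at a quotient point
-/

set_option autoImplicit false

namespace Pool.Agent.KO

open Set Filter Topology

/-- The determinant of the derivative in terms of partial derivatives. -/
theorem xd22_det {f : Fin 3 → (Fin 3 → ℂ) → ℂ} {v : Fin 3 → ℂ}
    (hf : ∀ k, DifferentiableAt ℂ (f k) v) :
    (fderiv ℂ (fun x k => f k x) v).det =
      Matrix.det (Matrix.of fun i j : Fin 3 => fderiv ℂ (f i) v (Pi.single j 1)) := by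
  have h1 : (fderiv ℂ (fun x k => f k x) v) = ContinuousLinearMap.pi fun i => fderiv ℂ (f i) v :=
    fderiv_pi hf
  rw [h1, ContinuousLinearMap.det, ← LinearMap.det_toMatrix']
  congr 1

theorem xd22_det_an {f : Fin 3 → (Fin 3 → ℂ) → ℂ} {b0 : Fin 3 → ℂ}
    (hf : ∀ k, AnalyticAt ℂ (f k) b0) :
    AnalyticAt ℂ (fun v => (fderiv ℂ (fun x k => f k x) v).det) b0 := by
  have hev : ∀ᶠ v in 𝓝 b0, Matrix.det (Matrix.of fun i j : Fin 3 =>
      fderiv ℂ (f i) v (Pi.single j 1)) = (fderiv ℂ (fun x k => f k x) v).det := by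
    have h2 : ∀ᶠ v in 𝓝 b0, ∀ k, AnalyticAt ℂ (f k) v :=
      eventually_all.2 fun k => (hf k).eventually_analyticAt
    filter_upwards [h2] with v hv
    exact (xd22_det fun k => (hv k).differentiableAt).symm
  refine AnalyticAt.congr ?_ hev
  have h : ∀ i j : Fin 3, AnalyticAt ℂ (fun v => fderiv ℂ (f i) v (Pi.single j 1)) b0 :=
    fun i j => ((ContinuousLinearMap.apply ℂ ℂ (Pi.single j (1 : ℂ) : Fin 3 → ℂ)).analyticAt _).comp
      (hf i).fderiv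
  simp only [Matrix.det_fin_three, Matrix.of_apply]
  exact (((((((h 0 0).mul (h 1 1)).mul (h 2 2)).sub (((h 0 0).mul (h 1 2)).mul (h 2 1))).sub
    (((h 0 1).mul (h 1 0)).mul (h 2 2))).add (((h 0 1).mul (h 1 2)).mul (h 2 0))).add
    (((h 0 2).mul (h 1 0)).mul (h 2 1))).sub (((h 0 2).mul (h 1 1)).mul (h 2 0))

/-- A unit times `s ^ k` is divisible by `s ^ l` only if `l ≤ k`. -/
theorem xd22_ord {s u w : (Fin 3 → ℂ) → ℂ} {q : Fin 3 → ℂ} {k l : ℕ} (hs : AnalyticAt ℂ s q)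
    (s0 : s q = 0) (hne : ¬ ∀ᶠ v in 𝓝 q, s v = 0) (hu : AnalyticAt ℂ u q)
    (hw : AnalyticAt ℂ w q) (hu0 : u q ≠ 0)
    (h : ∀ᶠ v in 𝓝 q, s v ^ k * u v = s v ^ l * w v) : l ≤ k := by
  by_contra hlt
  push Not at hlt
  obtain ⟨m, rfl⟩ : ∃ m, l = k + (m + 1) := ⟨l - k - 1, by omega⟩
  have h1 : ∀ᶠ v in 𝓝 q, s v ^ k * u v = s v ^ k * (s v ^ (m + 1) * w v) := by
    filter_upwards [h] with v hv
    rw [hv, pow_add]
    ring
  have hne' : ¬ ∀ᶠ v in 𝓝 q, s v ^ k = 0 := fun hh => hne (hh.mono fun v hv => by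
    by_contra h0
    exact pow_ne_zero k h0 hv)
  have h2 := C.cancel (hs.pow k) hu ((hs.pow (m + 1)).mul hw) hne' h1
  have h3 : u q = s q ^ (m + 1) * w q := h2.self_of_nhds
  rw [s0, zero_pow (by omega), zero_mul] at h3
  exact hu0 h3

/-- Local roots of a unit. -/
theorem xd22_root {u : (Fin 3 → ℂ) → ℂ} {q : Fin 3 → ℂ} (hu : AnalyticAt ℂ u q) (h0 : u q ≠ 0)
    {b : ℕ} (hb : b ≠ 0) : ∃ ρ : (Fin 3 → ℂ) → ℂ, AnalyticAt ℂ ρ q ∧ ∀ v, ρ v ^ b = u v := by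
  refine ⟨fun z => u q ^ ((b : ℂ)⁻¹) * (u z / u q) ^ ((b : ℂ)⁻¹), ?_, ?_⟩
  · have h1 : AnalyticAt ℂ (fun z => u z / u q) q := hu.div_const
    have h2 : AnalyticAt ℂ (fun z => (u z / u q) ^ ((b : ℂ)⁻¹)) q := by
      apply AnalyticAt.cpow h1 analyticAt_const
      rw [div_self h0]
      exact Complex.one_mem_slitPlane
    exact analyticAt_const.mul h2
  · intro z
    rw [mul_pow, Complex.cpow_nat_inv_pow _ hb, Complex.cpow_nat_inv_pow _ hb]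
    field_simp

/-- Products of functions that do not vanish identically. -/
theorem xd22_mul {f g : (Fin 3 → ℂ) → ℂ} {p : Fin 3 → ℂ} (hf : AnalyticAt ℂ f p)
    (hg : AnalyticAt ℂ g p) (hf0 : ¬ ∀ᶠ v in 𝓝 p, f v = 0) (hg0 : ¬ ∀ᶠ v in 𝓝 p, g v = 0) :
    ¬ ∀ᶠ v in 𝓝 p, f v * g v = 0 := fun h => (C.germ_mul hf hg h).elim hf0 hg0

theorem xd22_pow {f : (Fin 3 → ℂ) → ℂ} {p : Fin 3 → ℂ} (hf0 : ¬ ∀ᶠ v in 𝓝 p, f v = 0) (k : ℕ) :
    ¬ ∀ᶠ v in 𝓝 p, f v ^ k = 0 := fun hh => hf0 (hh.mono fun v hv => by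
    by_contra h0
    exact pow_ne_zero k h0 hv)

/-- The derivative of a `b`-th power. -/
theorem xd22_fd {f r : (Fin 3 → ℂ) → ℂ} {v : Fin 3 → ℂ} {b : ℕ} (hr : DifferentiableAt ℂ r v)
    (h : ∀ᶠ u in 𝓝 v, f u = r u ^ b) (w : Fin 3 → ℂ) :
    fderiv ℂ f v w = b * r v ^ (b - 1) * fderiv ℂ r v w := by
  have h1 : fderiv ℂ f v = fderiv ℂ (fun u => r u ^ b) v := Filter.EventuallyEq.fderiv_eq h
  rw [h1, (hr.hasFDerivAt.pow b).fderiv]
  simp

theorem xd22 (hpole : SpPole) (hlog : SpLog) : SpAge := by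
  intro b e1 e2 hage b0 P Q1 Q2 h0 R hR hP hQ1 hQ2 hQ1e hQ2e hh0
  have hb : 1 ≤ b := hage.1
  have hbC : ((b : ℂ) ^ (3 * b)) ≠ 0 := pow_ne_zero _ (Nat.cast_ne_zero.2 (by omega))
  by_cases hz : ∃ k, ∀ᶠ v in 𝓝 b0, P k v = 0
  · obtain ⟨k, hk⟩ := hz
    refine ⟨fun _ => 0, analyticAt_const, ?_⟩
    filter_upwards [hk.eventually_nhds, hh0] with v h1 h2 hv
    exact ((h2 hv).2.2 k h1).symm
  push Not at hz
  have hz' : ∀ k, ¬ ∀ᶠ v in 𝓝 b0, P k v = 0 := fun k h => by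
    obtain ⟨x, hx⟩ := (h.and_frequently (hz k)).exists
    exact hx.2 hx.1
  set a : (Fin 3 → ℂ) → ℂ := fun v => (fderiv ℂ (fun x k => P k x) v).det ^ b with ha
  set d : (Fin 3 → ℂ) → ℂ := fun v => (b : ℂ) ^ (3 * b) * (P 0 v * P 1 v * P 2 v) ^ (b - 1) with hd
  have haan : AnalyticAt ℂ a b0 := (xd22_det_an hP).pow b
  have hdan : ∀ v, (∀ k, AnalyticAt ℂ (P k) v) → AnalyticAt ℂ d v := fun v h =>
    analyticAt_const.mul ((((h 0).mul (h 1)).mul (h 2)).pow (b - 1))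
  have hd0 : ¬ ∀ᶠ v in 𝓝 b0, d v = 0 := by
    have h1 := xd22_pow (xd22_mul ((hP 0).mul (hP 1)) (hP 2) (xd22_mul (hP 0) (hP 1) (hz' 0) (hz' 1))
      (hz' 2)) (b - 1)
    intro h
    exact h1 (h.mono fun v hv => (mul_eq_zero.1 hv).resolve_left hbC)
  by_cases hex : ∃ h, AnalyticAt ℂ h b0 ∧ ∀ᶠ v in 𝓝 b0, d v * h v = a v
  · obtain ⟨h, hh, hdh⟩ := hex
    refine ⟨h, hh, ?_⟩
    have hPev : ∀ᶠ v in 𝓝 b0, ∀ k, AnalyticAt ℂ (P k) v :=
      eventually_all.2 fun k => (hP k).eventually_analyticAt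
    filter_upwards [hh.eventually_analyticAt, hdh.eventually_nhds, hh0.eventually_nhds, hPev,
      C.freq_ne (hdan b0 hP) hd0] with v v1 v2 v3 v4 v5 hv
    have hRv : ∀ᶠ u in 𝓝 v, u ∈ R := hR.mem_nhds hv
    have h6 : ∀ᶠ u in 𝓝 v, d u * h u = d u * h0 u := by
      filter_upwards [v2, v3, hRv] with u u2 u3 u4
      rw [u2]
      exact ((u3 u4).2.1).symm
    have h7 := C.cancel (hdan v v4) v1 (v3.self_of_nhds hv).1
      (fun hc => by
        obtain ⟨x, hx⟩ := (v5.and_eventually hc).exists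
        exact hx.1 hx.2) h6
    exact h7.self_of_nhds
  exfalso
  have hQ10 : ¬ ∀ᶠ v in 𝓝 b0, Q1 v = 0 := by
    intro hc
    refine xd22_mul (hP 1) ((hP 0).pow e1) (hz' 1) (xd22_pow (hz' 0) e1) ?_
    filter_upwards [hc, hQ1e] with v h1 h2
    show P 1 v * P 0 v ^ e1 = 0
    rw [← h2, h1, zero_pow (by omega)]
  have hQ20 : ¬ ∀ᶠ v in 𝓝 b0, Q2 v = 0 := by
    intro hc
    refine xd22_mul (hP 2) ((hP 0).pow e2) (hz' 2) (xd22_pow (hz' 0) e2) ?_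
    filter_upwards [hc, hQ2e] with v h1 h2
    show P 2 v * P 0 v ^ e2 = 0
    rw [← h2, h1, zero_pow (by omega)]
  have hN : {v | (∀ k, AnalyticAt ℂ (P k) v) ∧ AnalyticAt ℂ Q1 v ∧ AnalyticAt ℂ Q2 v ∧
      (∀ᶠ u in 𝓝 v, Q1 u ^ b = P 1 u * P 0 u ^ e1) ∧
      (∀ᶠ u in 𝓝 v, Q2 u ^ b = P 2 u * P 0 u ^ e2)} ∈ 𝓝 b0 := by
    filter_upwards [eventually_all.2 fun k => (hP k).eventually_analyticAt,
      hQ1.eventually_analyticAt, hQ2.eventually_analyticAt, hQ1e.eventually_nhds,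
      hQ2e.eventually_nhds] with v h1 h2 h3 h4 h5
    exact ⟨h1, h2, h3, h4, h5⟩
  obtain ⟨q, ⟨qP, qQ1, qQ2, qQ1e, qQ2e⟩, s, hs, s0, ds, ⟨e, e', u, u', hee, hu, hu0, hu', hu'0, hae,
    hde⟩, hg⟩ := hpole 3 b0 a d 5 ![P 0, P 1, P 2, Q1, Q2] haan (hdan b0 hP) hd0
    (by intro i; fin_cases i; exacts [hP 0, hP 1, hP 2, hQ1, hQ2])
    (by intro i; fin_cases i; exacts [hz' 0, hz' 1, hz' 2, hQ10, hQ20]) hex _ hN
  have hsne : ¬ ∀ᶠ v in 𝓝 q, s v = 0 := by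
    intro hc
    have h1 : fderiv ℂ s q = fderiv ℂ (fun _ => (0 : ℂ)) q := Filter.EventuallyEq.fderiv_eq hc
    exact ds (by rw [h1]; simp)
  obtain ⟨n0, u0, au0, zu0, eu0⟩ := hg 0
  obtain ⟨n1, u1, au1, zu1, eu1⟩ := hg 1
  obtain ⟨n2, u2, au2, zu2, eu2⟩ := hg 2
  obtain ⟨m1, w1, aw1, zw1, ew1⟩ := hg 3
  obtain ⟨m2, w2, aw2, zw2, ew2⟩ := hg 4
  change ∀ᶠ v in 𝓝 q, P 0 v = s v ^ n0 * u0 v at eu0
  change ∀ᶠ v in 𝓝 q, P 1 v = s v ^ n1 * u1 v at eu1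
  change ∀ᶠ v in 𝓝 q, P 2 v = s v ^ n2 * u2 v at eu2
  change ∀ᶠ v in 𝓝 q, Q1 v = s v ^ m1 * w1 v at ew1
  change ∀ᶠ v in 𝓝 q, Q2 v = s v ^ m2 * w2 v at ew2
  have o1 : b * m1 = n1 + e1 * n0 := by
    have h1 : ∀ᶠ v in 𝓝 q, s v ^ (b * m1) * w1 v ^ b = s v ^ (n1 + e1 * n0) *
        (u1 v * u0 v ^ e1) := by
      filter_upwards [qQ1e, eu0, eu1, ew1] with v v1 v2 v3 v4
      rw [v4, v3, v2] at v1
      calc s v ^ (b * m1) * w1 v ^ b = (s v ^ m1 * w1 v) ^ b := by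
            rw [mul_pow, ← pow_mul, mul_comm b m1]
        _ = _ := v1
        _ = _ := by rw [mul_pow, ← pow_mul, pow_add, mul_comm e1 n0]; ring
    refine le_antisymm ?_ ?_
    · exact xd22_ord hs s0 hsne (au1.mul (au0.pow e1)) (aw1.pow b)
        (mul_ne_zero zu1 (pow_ne_zero _ zu0)) (h1.mono fun v hv => hv.symm)
    · exact xd22_ord hs s0 hsne (aw1.pow b) (au1.mul (au0.pow e1)) (pow_ne_zero _ zw1) h1
  have o2 : b * m2 = n2 + e2 * n0 := by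
    have h1 : ∀ᶠ v in 𝓝 q, s v ^ (b * m2) * w2 v ^ b = s v ^ (n2 + e2 * n0) *
        (u2 v * u0 v ^ e2) := by
      filter_upwards [qQ2e, eu0, eu2, ew2] with v v1 v2 v3 v4
      rw [v4, v3, v2] at v1
      calc s v ^ (b * m2) * w2 v ^ b = (s v ^ m2 * w2 v) ^ b := by
            rw [mul_pow, ← pow_mul, mul_comm b m2]
        _ = _ := v1
        _ = _ := by rw [mul_pow, ← pow_mul, pow_add, mul_comm e2 n0]; ring
    refine le_antisymm ?_ ?_
    · exact xd22_ord hs s0 hsne (au2.mul (au0.pow e2)) (aw2.pow b)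
        (mul_ne_zero zu2 (pow_ne_zero _ zu0)) (h1.mono fun v hv => hv.symm)
    · exact xd22_ord hs s0 hsne (aw2.pow b) (au2.mul (au0.pow e2)) (pow_ne_zero _ zw2) h1
  have o3 : e' = (b - 1) * (n0 + n1 + n2) := by
    have h1 : ∀ᶠ v in 𝓝 q, s v ^ e' * u' v = s v ^ ((b - 1) * (n0 + n1 + n2)) *
        ((b : ℂ) ^ (3 * b) * (u0 v * u1 v * u2 v) ^ (b - 1)) := by
      filter_upwards [hde, eu0, eu1, eu2] with v v1 v2 v3 v4
      rw [← v1]
      show (b : ℂ) ^ (3 * b) * (P 0 v * P 1 v * P 2 v) ^ (b - 1) = _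
      rw [v2, v3, v4]
      have : s v ^ n0 * u0 v * (s v ^ n1 * u1 v) * (s v ^ n2 * u2 v) =
        s v ^ (n0 + n1 + n2) * (u0 v * u1 v * u2 v) := by rw [pow_add, pow_add]; ring
      rw [this, mul_pow (s v ^ (n0 + n1 + n2)), ← pow_mul, mul_comm (n0 + n1 + n2) (b - 1)]
      ring
    refine le_antisymm ?_ ?_
    · exact xd22_ord hs s0 hsne (analyticAt_const.mul (((au0.mul au1).mul au2).pow (b - 1))) hu'
        (mul_ne_zero hbC (pow_ne_zero _ (mul_ne_zero (mul_ne_zero zu0 zu1) zu2)))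
        (h1.mono fun v hv => hv.symm)
    · exact xd22_ord hs s0 hsne hu' (analyticAt_const.mul (((au0.mul au1).mul au2).pow (b - 1)))
        hu'0 h1
  rcases hage.2 n0 n1 n2 ⟨m1, o1.symm⟩ ⟨m2, o2.symm⟩ with hdv | hle
  · -- all orders are divisible by `b`
    obtain ⟨k0, hk0⟩ := hdv
    have hk1 : b ∣ n1 := (Nat.dvd_add_left (Dvd.dvd.mul_left ⟨k0, hk0⟩ e1)).1 ⟨m1, o1.symm⟩
    have hk2 : b ∣ n2 := (Nat.dvd_add_left (Dvd.dvd.mul_left ⟨k0, hk0⟩ e2)).1 ⟨m2, o2.symm⟩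
    obtain ⟨k1, hk1⟩ := hk1
    obtain ⟨k2, hk2⟩ := hk2
    obtain ⟨r0, ar0, hr0⟩ := xd22_root au0 zu0 (b := b) (by omega)
    obtain ⟨r1, ar1, hr1⟩ := xd22_root au1 zu1 (b := b) (by omega)
    obtain ⟨r2, ar2, hr2⟩ := xd22_root au2 zu2 (b := b) (by omega)
    set r : Fin 3 → (Fin 3 → ℂ) → ℂ := ![fun v => s v ^ k0 * r0 v, fun v => s v ^ k1 * r1 v,
      fun v => s v ^ k2 * r2 v] with hr
    have ar : ∀ k, AnalyticAt ℂ (r k) q := by
      intro k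
      fin_cases k
      exacts [(hs.pow k0).mul ar0, (hs.pow k1).mul ar1, (hs.pow k2).mul ar2]
    have hPr : ∀ k, ∀ᶠ v in 𝓝 q, P k v = r k v ^ b := by
      intro k
      fin_cases k
      · filter_upwards [eu0] with v hv
        show P 0 v = (s v ^ k0 * r0 v) ^ b
        rw [hv, hk0, mul_pow, hr0, ← pow_mul, mul_comm b k0]
      · filter_upwards [eu1] with v hv
        show P 1 v = (s v ^ k1 * r1 v) ^ b
        rw [hv, hk1, mul_pow, hr1, ← pow_mul, mul_comm b k1]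
      · filter_upwards [eu2] with v hv
        show P 2 v = (s v ^ k2 * r2 v) ^ b
        rw [hv, hk2, mul_pow, hr2, ← pow_mul, mul_comm b k2]
    have key : ∀ᶠ v in 𝓝 q, a v = d v * (fderiv ℂ (fun x k => r k x) v).det ^ b := by
      filter_upwards [(eventually_all.2 hPr).eventually_nhds,
        eventually_all.2 fun k => (ar k).eventually_analyticAt,
        eventually_all.2 fun k => (qP k).eventually_analyticAt] with v v1 v2 v3
      have v1' : ∀ k, ∀ᶠ u in 𝓝 v, P k u = r k u ^ b := fun k => v1.mono fun u hu => hu k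
      have e0 : ∀ k, P k v = r k v ^ b := fun k => (v1' k).self_of_nhds
      have f : ∀ k w, fderiv ℂ (P k) v w = b * r k v ^ (b - 1) * fderiv ℂ (r k) v w := fun k w =>
        xd22_fd (v2 k).differentiableAt (v1' k) w
      have g : (fderiv ℂ (fun x k => P k x) v).det =
          (b : ℂ) ^ 3 * (r 0 v * r 1 v * r 2 v) ^ (b - 1) * (fderiv ℂ (fun x k => r k x) v).det := by
        rw [xd22_det fun k => (v3 k).differentiableAt, xd22_det fun k => (v2 k).differentiableAt]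
        simp only [Matrix.det_fin_three, Matrix.of_apply, f]
        rw [mul_pow, mul_pow]
        ring
      show (fderiv ℂ (fun x k => P k x) v).det ^ b =
        (b : ℂ) ^ (3 * b) * (P 0 v * P 1 v * P 2 v) ^ (b - 1) * _
      rw [g, e0, e0, e0, mul_pow, mul_pow, ← mul_pow (r 0 v), ← mul_pow (_ * _) (r 2 v), ← pow_mul,
        ← pow_mul, ← pow_mul, mul_comm b (b - 1)]
    have h2 : ∀ᶠ v in 𝓝 q, s v ^ e * u v = s v ^ e' *
        (u' v * (fderiv ℂ (fun x k => r k x) v).det ^ b) := by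
      filter_upwards [key, hae, hde] with v v1 v2 v3
      rw [← v2, v1, v3]
      ring
    have h3 := xd22_ord hs s0 hsne hu (hu'.mul ((xd22_det_an ar).pow b)) hu0 h2
    omega
  · obtain ⟨w, aw, hw⟩ := hlog q s P ![u0, u1, u2] ![n0, n1, n2] hs s0 ds qP
      (by intro k; fin_cases k; exacts [au0, au1, au2])
      (by intro k; fin_cases k; exacts [eu0, eu1, eu2])
    have h2 : ∀ᶠ v in 𝓝 q, s v ^ (b + e) * u v = s v ^ (b * (n0 + n1 + n2)) * w v ^ b := by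
      filter_upwards [hw, hae] with v v1 v2
      have v1' : s v * (fderiv ℂ (fun x k => P k x) v).det = s v ^ (n0 + n1 + n2) * w v := v1
      calc s v ^ (b + e) * u v = s v ^ b * (s v ^ e * u v) := by rw [pow_add]; ring
        _ = s v ^ b * (fderiv ℂ (fun x k => P k x) v).det ^ b := by rw [← v2]
        _ = (s v ^ (n0 + n1 + n2) * w v) ^ b := by rw [← mul_pow, v1']
        _ = _ := by rw [mul_pow, ← pow_mul, mul_comm b (n0 + n1 + n2)]
    have h3 := xd22_ord hs s0 hsne hu (aw.pow b) hu0 h2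
    obtain ⟨b', rfl⟩ : ∃ b', b = b' + 1 := ⟨b - 1, by omega⟩
    rw [Nat.add_sub_cancel] at o3
    have h4 : (b' + 1) * (n0 + n1 + n2) = b' * (n0 + n1 + n2) + (n0 + n1 + n2) := by ring
    omega

end Pool.Agent.KO
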