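import Pool.Agent.KO.Xb.St
import Pool.Agent.KO.C.Ext
import Pool.Agent.KO.C.Iden

/-!
# Project KO, block Xd, row D23: extension of the pull-back at the node (helper15)
-/

set_option autoImplicit false

namespace Pool.Agent.KO

open Set Filter Topology

/-- The determinant of an analytic family is analytic. -/
theorem xd23_det {A : (Fin 3 → ℂ) → ((Fin 3 → ℂ) →L[ℂ] (Fin 3 → ℂ))} {q : Fin 3 → ℂ}
    (hA : AnalyticAt ℂ A q) : AnalyticAt ℂ (fun v => (A v).det) q := by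
  have h1 : ∀ v, (A v).det = Matrix.det (LinearMap.toMatrix' ((A v : (Fin 3 → ℂ) →L[ℂ]
      (Fin 3 → ℂ)) : (Fin 3 → ℂ) →ₗ[ℂ] (Fin 3 → ℂ))) := by
    intro v
    rw [LinearMap.det_toMatrix']
  have h2 : ∀ i j : Fin 3, AnalyticAt ℂ (fun v => A v (Pi.single j 1) i) q := by
    intro i j
    have h4 := (ContinuousLinearMap.apply ℂ (Fin 3 → ℂ) (Pi.single j (1 : ℂ))).analyticAt (A q)
    have h3 : AnalyticAt ℂ (fun v => A v (Pi.single j 1)) q := h4.comp hA
    exact analyticAt_pi_iff.1 h3 i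
  have h3 : (fun v => (A v).det) = fun v =>
      A v (Pi.single 0 1) 0 * A v (Pi.single 1 1) 1 * A v (Pi.single 2 1) 2
      - A v (Pi.single 0 1) 0 * A v (Pi.single 2 1) 1 * A v (Pi.single 1 1) 2
      - A v (Pi.single 1 1) 0 * A v (Pi.single 0 1) 1 * A v (Pi.single 2 1) 2
      + A v (Pi.single 1 1) 0 * A v (Pi.single 2 1) 1 * A v (Pi.single 0 1) 2
      + A v (Pi.single 2 1) 0 * A v (Pi.single 0 1) 1 * A v (Pi.single 1 1) 2
      - A v (Pi.single 2 1) 0 * A v (Pi.single 1 1) 1 * A v (Pi.single 0 1) 2 := by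
    funext v
    rw [h1, Matrix.det_fin_three]
    simp only [LinearMap.toMatrix'_apply]
    rfl
  rw [h3]
  exact ((((((h2 0 0).mul (h2 1 1)).mul (h2 2 2)).sub (((h2 0 0).mul (h2 1 2)).mul (h2 2 1))).sub
    (((h2 0 1).mul (h2 1 0)).mul (h2 2 2))).add (((h2 0 1).mul (h2 1 2)).mul (h2 2 0))).add
    (((h2 0 2).mul (h2 1 0)).mul (h2 2 1)) |>.sub (((h2 0 2).mul (h2 1 1)).mul (h2 2 0))

theorem xd23_ne {s : (Fin 3 → ℂ) → ℂ} {q : Fin 3 → ℂ} (h : fderiv ℂ s q ≠ 0) :
    ¬ ∀ᶠ v in 𝓝 q, s v = 0 := by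
  intro h1
  apply h
  have h2 : s =ᶠ[𝓝 q] fun _ => (0 : ℂ) := h1
  rw [h2.fderiv_eq]
  simp

/-- Comparison of orders along `s`. -/
theorem xd23_ord {s A B : (Fin 3 → ℂ) → ℂ} {q : Fin 3 → ℂ} (hs : AnalyticAt ℂ s q)
    (hs0 : s q = 0) (hsn : ¬ ∀ᶠ v in 𝓝 q, s v = 0) (hA : AnalyticAt ℂ A q)
    (hB : AnalyticAt ℂ B q) (hBq : B q ≠ 0) {m n : ℕ}
    (h : ∀ᶠ v in 𝓝 q, s v ^ m * B v = s v ^ n * A v) : n ≤ m := by
  by_contra hmn
  push Not at hmn
  have h1 : ¬ ∀ᶠ v in 𝓝 q, s v ^ m = 0 := fun h2 => hsn (h2.mono fun v hv =>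
    eq_zero_of_pow_eq_zero hv)
  have h2 := C.cancel (hs.pow m) hB ((hs.pow (n - m)).mul hA) h1 (h.mono fun v hv => by
    have h3 : s v ^ n = s v ^ m * s v ^ (n - m) := by
      rw [← pow_add]
      congr 1
      omega
    change s v ^ m * B v = s v ^ m * (s v ^ (n - m) * A v)
    rw [hv, h3]
    ring)
  have h3 := h2.self_of_nhds
  apply hBq
  rw [h3]
  change s q ^ (n - m) * A q = 0
  rw [hs0, zero_pow (by omega), zero_mul]

/-- The three coordinates of `prj i`. -/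
def xd23_t : Fin 4 → Fin 3 → Fin 4 := ![![0, 1, 3], ![0, 1, 2], ![2, 1, 3], ![0, 2, 3]]

theorem xd23_prj (i : Fin 4) (y : Fin 4 → ℂ) : prj i y = fun k => y (xd23_t i k) := by
  funext k
  fin_cases i <;> fin_cases k <;> rfl

theorem xd23_sg (i : Fin 4) : sg i ≠ 0 := by
  fin_cases i <;> simp [sg]

/-- Row D23. -/
theorem xd23 (hpole : SpPole) (hlog : SpLog) : SpNodeExt := by
  classical
  intro b0 x h0 R hR hcl hx hrel
  set W : Fin 4 → (Fin 3 → ℂ) → ℂ := fun i v =>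
    sg i * (fderiv ℂ (fun u => prj i (x u)) v).det with hW
  have hprj : ∀ q : Fin 3 → ℂ, AnalyticAt ℂ x q → ∀ i, AnalyticAt ℂ (fun u => prj i (x u)) q := by
    intro q hq i
    have h1 : (fun u => prj i (x u)) = fun u k => x u (xd23_t i k) := by
      funext u
      rw [xd23_prj]
    rw [h1]
    exact analyticAt_pi_iff.2 fun k => analyticAt_pi_iff.1 hq (xd23_t i k)
  have hWan : ∀ q : Fin 3 → ℂ, AnalyticAt ℂ x q → ∀ i, AnalyticAt ℂ (W i) q := by
    intro q hq i
    exact analyticAt_const.mul (xd23_det ((hprj q hq i).fderiv))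
  have hxi : ∀ q : Fin 3 → ℂ, AnalyticAt ℂ x q → ∀ i, AnalyticAt ℂ (fun v => x v i) q :=
    fun q hq i => analyticAt_pi_iff.1 hq i
  have hxe := hx.eventually_analyticAt
  -- the relations between the minors
  have hrij : ∀ i j, ∀ᶠ v in 𝓝 b0, x v i * W j v = x v j * W i v := by
    intro i j
    refine C.eq_of_closure (f := fun v => x v i * W j v) (g := fun v => x v j * W i v)
      (hxe.mono fun v hv => ((hxi v hv i).mul (hWan v hv j)).continuousAt)
      (hxe.mono fun v hv => ((hxi v hv j).mul (hWan v hv i)).continuousAt) ?_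
    filter_upwards [hcl, hrel.eventually_nhds] with v hv1 hv2
    refine ((mem_closure_iff_frequently.1 hv1).and_eventually hv2).mono fun y hy => ?_
    obtain ⟨-, -, h3⟩ := hy.2 hy.1
    have h4 := h3 i
    have h5 := h3 j
    change x y i * (sg j * (fderiv ℂ (fun u => prj j (x u)) y).det) =
      x y j * (sg i * (fderiv ℂ (fun u => prj i (x u)) y).det)
    rw [← h4, ← h5]
    ring
  by_cases hall : ∀ i, ∀ᶠ v in 𝓝 b0, x v i = 0
  · refine ⟨fun _ => 0, analyticAt_const, ?_⟩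
    have h1 : ∀ᶠ v in 𝓝 b0, ∀ i, x v i = 0 := eventually_all.2 hall
    filter_upwards [h1, hrel] with v hv1 hv2 hvR
    exact absurd (funext hv1) (hv2 hvR).1
  push Not at hall
  obtain ⟨m, hm⟩ := hall
  have hm' : ¬ ∀ᶠ v in 𝓝 b0, x v m = 0 := by
    rw [Filter.not_eventually]
    exact hm
  by_cases hex : ∃ h, AnalyticAt ℂ h b0 ∧ ∀ᶠ v in 𝓝 b0, x v m * h v = W m v
  · obtain ⟨h, hh, hh2⟩ := hex
    refine ⟨h, hh, ?_⟩
    filter_upwards [hh.eventually_analyticAt, C.freq_ne (hxi b0 hx m) hm', hh2.eventually_nhds,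
      hrel.eventually_nhds] with v hv1 hv2 hv3 hv4 hvR
    have hc0 : ContinuousAt h0 v := (hv4.self_of_nhds hvR).2.1.continuousAt
    refine C.eq_of_frequently hv1.continuousAt hc0 ?_
    refine (hv2.and_eventually (hv3.and (hv4.and (hR.mem_nhds hvR)))).mono fun y hy => ?_
    obtain ⟨h1, h2, h3, h4⟩ := hy
    have h5 := (h3 h4).2.2 m
    have h6 : x y m * h y = x y m * h0 y := by
      rw [h2, mul_comm (x y m) (h0 y), h5]
    exact mul_left_cancel₀ h1 h6
  -- the pole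
  exfalso
  set Z : Fin 4 → Prop := fun i => ∀ᶠ v in 𝓝 b0, x v i = 0 with hZ
  have hP : ∀ᶠ v in 𝓝 b0, AnalyticAt ℂ x v ∧ (∀ i, Z i → x v i = 0) ∧
      ∀ i j, x v i * W j v = x v j * W i v := by
    refine hxe.and (Filter.Eventually.and ?_ ?_)
    · refine eventually_all.2 fun i => ?_
      by_cases h : Z i
      · exact h.mono fun v hv _ => hv
      · exact Filter.Eventually.of_forall fun v hv => absurd hv h
    · exact eventually_all.2 fun i => eventually_all.2 fun j => hrij i j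
  obtain ⟨q, hqN, s, hs, hs0, hsd, ⟨ea, ed, ua, ud, hlt, hua, hua0, hud, hud0, hea, hed⟩, hg⟩ :=
    hpole 3 b0 (W m) (fun v => x v m) 4 (fun i => if Z i then (fun _ => 1) else fun v => x v i)
      (hWan b0 hx m) (hxi b0 hx m) hm' (fun i => by
        by_cases h : Z i
        · simp only [if_pos h]; exact analyticAt_const
        · simp only [if_neg h]; exact hxi b0 hx i) (fun i => by
        by_cases h : Z i
        · simp only [if_pos h]
          intro h1
          exact one_ne_zero (α := ℂ) h1.self_of_nhds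
        · simp only [if_neg h]; exact h) hex _ hP.eventually_nhds
  have hqP : ∀ᶠ v in 𝓝 q, AnalyticAt ℂ x v ∧ (∀ i, Z i → x v i = 0) ∧
      ∀ i j, x v i * W j v = x v j * W i v := hqN
  have hxq : AnalyticAt ℂ x q := hqP.self_of_nhds.1
  have hsn := xd23_ne hsd
  choose e u hu hu0 hgu using hg
  -- the least order
  have hmI : m ∈ Finset.univ.filter (fun i : Fin 4 => ¬ Z i) := by
    rw [Finset.mem_filter]
    exact ⟨Finset.mem_univ _, hm'⟩
  obtain ⟨j0, hj0, hmin⟩ := Finset.exists_min_image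
    (Finset.univ.filter (fun i : Fin 4 => ¬ Z i)) e ⟨m, hmI⟩
  have hj0Z : ¬ Z j0 := (Finset.mem_filter.1 hj0).2
  have hmin' : ∀ i, ¬ Z i → e j0 ≤ e i := fun i hi =>
    hmin i (Finset.mem_filter.2 ⟨Finset.mem_univ _, hi⟩)
  -- all coordinates
  have hcoord : ∀ i, ∃ (f : ℕ) (U : (Fin 3 → ℂ) → ℂ), e j0 ≤ f ∧ AnalyticAt ℂ U q ∧
      ∀ᶠ v in 𝓝 q, x v i = s v ^ f * U v := by
    intro i
    by_cases h : Z i
    · refine ⟨e j0, fun _ => 0, le_refl _, analyticAt_const, ?_⟩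
      filter_upwards [hqP] with v hv
      rw [hv.2.1 i h, mul_zero]
    · refine ⟨e i, u i, hmin' i h, hu i, ?_⟩
      have h1 := hgu i
      simp only [if_neg h] at h1
      exact h1
  choose f U hf hU hfU using hcoord
  obtain ⟨w, hw, hsw⟩ := hlog q s (fun k v => x v (xd23_t j0 k)) (fun k => U (xd23_t j0 k))
    (fun k => f (xd23_t j0 k)) hs hs0 hsd (fun k => hxi q hxq _) (fun k => hU _)
    (fun k => hfU _)
  have hxj0 : ∀ᶠ v in 𝓝 q, x v j0 = s v ^ e j0 * u j0 v := by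
    have h1 := hgu j0
    simp only [if_neg hj0Z] at h1
    exact h1
  have hBq : u j0 q * ua q ≠ 0 := mul_ne_zero (hu0 j0) hua0
  -- first comparison
  have h1 : ∀ᶠ v in 𝓝 q, s v ^ (e j0 + ea) * (u j0 v * ua v) = s v ^ ed * (ud v * W j0 v) := by
    filter_upwards [hqP, hea, hed, hxj0] with v hv1 hv2 hv3 hv4
    have h2 := hv1.2.2 m j0
    rw [hv4, hv2] at h2
    rw [hv3] at h2
    rw [pow_add]
    linear_combination -h2
  have hle1 : ed ≤ e j0 + ea := xd23_ord hs hs0 hsn (hud.mul (hWan q hxq j0))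
    ((hu j0).mul hua) hBq h1
  obtain ⟨ν, hν⟩ := Nat.exists_eq_add_of_le hle1
  have h2 : ∀ᶠ v in 𝓝 q, s v ^ ν * (u j0 v * ua v) = ud v * W j0 v := by
    refine C.cancel (b := fun v => s v ^ ed) (f := fun v => s v ^ ν * (u j0 v * ua v))
      (g := fun v => ud v * W j0 v) (hs.pow ed) ((hs.pow ν).mul ((hu j0).mul hua))
      (hud.mul (hWan q hxq j0)) (fun h3 => hsn (h3.mono fun v hv => eq_zero_of_pow_eq_zero hv)) ?_
    filter_upwards [h1] with v hv
    rw [← hv, hν, pow_add]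
    ring
  -- second comparison
  have h3 : ∀ᶠ v in 𝓝 q, s v ^ (ν + 1) * (u j0 v * ua v) =
      s v ^ (f (xd23_t j0 0) + f (xd23_t j0 1) + f (xd23_t j0 2)) * (ud v * sg j0 * w v) := by
    filter_upwards [h2, hsw] with v hv1 hv2
    have h4 : (fun u => prj j0 (x u)) = fun u k => x u (xd23_t j0 k) := by
      funext u
      rw [xd23_prj]
    have h5 : W j0 v = sg j0 * (fderiv ℂ (fun u k => x u (xd23_t j0 k)) v).det := by
      rw [← h4]
    rw [pow_succ, mul_assoc, mul_comm (s v), ← mul_assoc, hv1, h5]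
    linear_combination (ud v * sg j0) * hv2
  have hle2 := xd23_ord hs hs0 hsn ((hud.mul analyticAt_const).mul hw) ((hu j0).mul hua) hBq h3
  have hf0 := hf (xd23_t j0 0)
  have hf1 := hf (xd23_t j0 1)
  have hf2 := hf (xd23_t j0 2)
  omega

end Pool.Agent.KO
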