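import Pool.Agent.KO.Xb.St

/-!
# Block Xd, row D25: quotient points are canonical
-/

set_option autoImplicit false

namespace Pool.Agent.KO

open Set Filter Topology

/-- The diagonal map. -/
noncomputable def xd25_diag (c : Fin 3 → ℂ) : (Fin 3 → ℂ) →L[ℂ] (Fin 3 → ℂ) :=
  ContinuousLinearMap.pi fun i =>
    c i • ContinuousLinearMap.proj (R := ℂ) (φ := fun _ : Fin 3 => ℂ) i

theorem xd25_diag_apply (c v : Fin 3 → ℂ) (i : Fin 3) : xd25_diag c v i = c i * v i := by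
  simp [xd25_diag]

theorem xd25_diag_det (c : Fin 3 → ℂ) : (xd25_diag c).det = c 0 * c 1 * c 2 := by
  have h : ((xd25_diag c : (Fin 3 → ℂ) →L[ℂ] (Fin 3 → ℂ)) : (Fin 3 → ℂ) →ₗ[ℂ] (Fin 3 → ℂ)) =
      Matrix.toLin' (Matrix.diagonal c) := by
    refine LinearMap.ext fun v => funext fun i => ?_
    rw [Matrix.toLin'_apply, Matrix.mulVec_diagonal]
    exact xd25_diag_apply c v i
  rw [ContinuousLinearMap.det, h, LinearMap.det_toLin', Matrix.det_diagonal, Fin.prod_univ_three]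

theorem xd25_diag_comp (c : Fin 3 → ℂ) (L L' : (Fin 3 → ℂ) →L[ℂ] (Fin 3 → ℂ))
    (h : ∀ v i, L' v i = c i * L v i) : L'.det = c 0 * c 1 * c 2 * L.det := by
  have h1 : L' = (xd25_diag c).comp L := by
    ext v i
    rw [h]
    exact (xd25_diag_apply c (L _) i).symm
  rw [h1, ← xd25_diag_det]
  exact LinearMap.det_comp (xd25_diag c : (Fin 3 → ℂ) →ₗ[ℂ] (Fin 3 → ℂ))
    (L : (Fin 3 → ℂ) →ₗ[ℂ] (Fin 3 → ℂ))

theorem xd25_dact_fderiv (β : Fin 3 → ℤ) (ζ : ℂ) (v : Fin 3 → ℂ) :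
    (fderiv ℂ (dact β ζ) v).det = ζ ^ β 0 * ζ ^ β 1 * ζ ^ β 2 := by
  have h : dact β ζ = xd25_diag fun i => ζ ^ β i := by
    funext u i
    rw [xd25_diag_apply]
    rfl
  rw [h, ContinuousLinearMap.fderiv, xd25_diag_det]

/-- A lift of the identity is locally one of the maps of the group. -/
theorem xd25_const (b : ℕ) (hb : 1 ≤ b) (β : Fin 3 → ℤ)
    (hfree : ∀ ζ : ℂ, ζ ^ b = 1 → ∀ k, ζ ^ β k = 1 → ζ = 1) (v : Fin 3 → ℂ) (hv : v ≠ 0)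
    (Ψ : (Fin 3 → ℂ) → (Fin 3 → ℂ)) (hΨ : ContinuousAt Ψ v)
    (h : ∀ᶠ u in 𝓝 v, ∃ ζ : ℂ, ζ ^ b = 1 ∧ Ψ u = dact β ζ u) :
    ∃ ζ : ℂ, ζ ^ b = 1 ∧ ∀ᶠ u in 𝓝 v, Ψ u = dact β ζ u := by
  obtain ⟨k, hk⟩ := Function.ne_iff.1 hv
  have hk' : v k ≠ 0 := hk
  obtain ⟨ζ0, hζ0, hv0⟩ := h.self_of_nhds
  refine ⟨ζ0, hζ0, ?_⟩
  have hz : ∀ ζ : ℂ, ζ ^ b = 1 → ζ ≠ 0 := by
    rintro ζ hζ rfl
    rw [zero_pow (by omega)] at hζ
    exact zero_ne_one hζ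
  have hfin : Set.Finite {z : ℂ | z ^ b = 1} := by
    have : {z : ℂ | z ^ b = 1} = (Polynomial.nthRootsFinset b (1 : ℂ) : Set ℂ) := by
      ext z
      rw [Set.mem_ofPred_eq, Finset.mem_coe, Polynomial.mem_nthRootsFinset (by omega)]
    rw [this]
    exact Finset.finite_toSet _
  have hcl : IsClosed ({z : ℂ | z ^ b = 1} \ {ζ0 ^ β k}) := (hfin.subset sdiff_subset).isClosed
  have hq : ContinuousAt (fun u => Ψ u k / u k) v :=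
    ((continuousAt_apply k _).comp hΨ).div (continuousAt_apply k v) hk'
  have hq0 : Ψ v k / v k = ζ0 ^ β k := by
    rw [hv0]
    show ζ0 ^ β k * v k / v k = _
    rw [mul_div_cancel_right₀ _ hk']
  have h1 : ∀ᶠ u in 𝓝 v, Ψ u k / u k ∉ ({z : ℂ | z ^ b = 1} \ {ζ0 ^ β k}) := by
    refine hq.eventually (hcl.isOpen_compl.mem_nhds ?_)
    show Ψ v k / v k ∈ ({z : ℂ | z ^ b = 1} \ {ζ0 ^ β k})ᶜ
    rw [hq0]
    simp
  have h2 : ∀ᶠ u in 𝓝 v, u k ≠ 0 := (continuousAt_apply k v).eventually_ne hk'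
  filter_upwards [h, h1, h2] with u ⟨ζ, hζ, hu⟩ hu1 hu2
  have h3 : Ψ u k / u k = ζ ^ β k := by
    rw [hu]
    show ζ ^ β k * u k / u k = _
    rw [mul_div_cancel_right₀ _ hu2]
  have h4 : (ζ ^ β k) ^ b = 1 := by
    rw [← zpow_natCast, ← zpow_mul, mul_comm, zpow_mul, zpow_natCast, hζ, one_zpow]
  have h5 : ζ ^ β k = ζ0 ^ β k := by
    by_contra hne
    refine hu1 ?_
    rw [h3]
    exact ⟨h4, hne⟩
  have h6 : ζ / ζ0 = 1 := by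
    refine hfree _ ?_ k ?_
    · rw [div_pow, hζ, hζ0, div_one]
    · rw [div_zpow, h5, div_self (zpow_ne_zero _ (hz ζ0 hζ0))]
  rw [hu, (div_eq_one_iff_eq (hz ζ0 hζ0)).1 h6]

open Classical in
/-- The function on `X` given by an invariant function. -/
noncomputable def xd25_desc {X : Type} (σ : (Fin 3 → ℂ) → X) (r : ℝ) (F : (Fin 3 → ℂ) → ℂ)
    (y : X) : ℂ :=
  if h : ∃ v ∈ Metric.ball (0 : Fin 3 → ℂ) r, σ v = y then F h.choose else 0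

section

variable {X : Type} [TopologicalSpace X] {O : Shf X} {b : ℕ} {β : Fin 3 → ℤ} {x : X}
  {σ : (Fin 3 → ℂ) → X} {r : ℝ}

theorem xd25_desc_eq (hL : LQ O 3 b β x σ r) (F : (Fin 3 → ℂ) → ℂ)
    (hF : ∀ ζ : ℂ, ζ ^ b = 1 → ∀ v, F (dact β ζ v) = F v) {v : Fin 3 → ℂ}
    (hv : v ∈ Metric.ball (0 : Fin 3 → ℂ) r) : xd25_desc σ r F (σ v) = F v := by
  have h : ∃ v' ∈ Metric.ball (0 : Fin 3 → ℂ) r, σ v' = σ v := ⟨v, hv, rfl⟩
  rw [xd25_desc, dif_pos h]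
  obtain ⟨ζ, hζ, h1⟩ := (hL.fib _ h.choose_spec.1 v hv).1 h.choose_spec.2
  conv_rhs => rw [h1]
  exact (hF ζ hζ _).symm

theorem xd25_desc_hol (hL : LQ O 3 b β x σ r) (F : (Fin 3 → ℂ) → ℂ)
    (hF : ∀ ζ : ℂ, ζ ^ b = 1 → ∀ v, F (dact β ζ v) = F v) (hFa : AnalyticAt ℂ F 0) :
    O (xd25_desc σ r F) x := by
  have h0 : (0 : Fin 3 → ℂ) ∈ Metric.ball (0 : Fin 3 → ℂ) r := Metric.mem_ball_self hL.r_pos
  rw [← hL.base, hL.hol 0 h0]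
  refine hFa.congr ?_
  filter_upwards [Metric.isOpen_ball.mem_nhds h0] with v hv
  exact (xd25_desc_eq hL F hF hv).symm

theorem xd25_open (hL : LQ O 3 b β x σ r) : IsOpen (σ '' Metric.ball (0 : Fin 3 → ℂ) r) := by
  rw [isOpen_iff_mem_nhds]
  rintro _ ⟨v, hv, rfl⟩
  rw [← hL.nhds v hv, mem_map]
  filter_upwards [Metric.isOpen_ball.mem_nhds hv] with u hu
  exact ⟨u, hu, rfl⟩

theorem xd25_zpow {ζ : ℂ} (hζ : ζ ^ b = 1) {n : ℤ} (hn : (b : ℤ) ∣ n) : ζ ^ n = 1 := by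
  obtain ⟨m, rfl⟩ := hn
  rw [zpow_mul, zpow_natCast, hζ, one_zpow]

theorem xd25_inv0 (k : Fin 3) (ζ : ℂ) (hζ : ζ ^ b = 1) (v : Fin 3 → ℂ) :
    (dact β ζ v k) ^ b = v k ^ b := by
  show (ζ ^ β k * v k) ^ b = _
  rw [mul_pow, ← zpow_natCast (ζ ^ β k), ← zpow_mul, xd25_zpow hζ (dvd_mul_left _ _), one_mul]

theorem xd25_inv1 (hb : 1 ≤ b) (k : Fin 3) (e : ℕ) (hd : (b : ℤ) ∣ β k + e * β 0) (ζ : ℂ)
    (hζ : ζ ^ b = 1) (v : Fin 3 → ℂ) :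
    dact β ζ v k * dact β ζ v 0 ^ e = v k * v 0 ^ e := by
  have hz : ζ ≠ 0 := by
    rintro rfl
    rw [zero_pow (by omega)] at hζ
    exact zero_ne_one hζ
  show ζ ^ β k * v k * (ζ ^ β 0 * v 0) ^ e = _
  have h : ζ ^ β k * (ζ ^ β 0) ^ e = 1 := by
    rw [← zpow_natCast (ζ ^ β 0), ← zpow_mul, ← zpow_add₀ hz, mul_comm (β 0)]
    exact xd25_zpow hζ hd
  calc _ = ζ ^ β k * (ζ ^ β 0) ^ e * (v k * v 0 ^ e) := by rw [mul_pow]; ring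
    _ = _ := by rw [h, one_mul]

/-- The generating form near `x`. -/
theorem xd25_form [T1Space X] (hfr : SpFree) (hfo : SpForm) (hfe : SpFext) (hS : LocShf O)
    (hL : LQ O 3 b β x σ r) (hfree : ∀ ζ : ℂ, ζ ^ b = 1 → ∀ k, ζ ^ β k = 1 → ζ = 1) :
    ∃ θ : CForm O 3 b (σ '' Metric.ball (0 : Fin 3 → ℂ) r), θ.IsGen ∧
      ∀ v ∈ Metric.ball (0 : Fin 3 → ℂ) r \ {0}, ∀ c, IsCoord O c (σ v) →
        θ.val c (σ v) * (fderiv ℂ (c ∘ σ) v).det ^ b = 1 := by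
  have hP : LPar O (Metric.ball (0 : Fin 3 → ℂ) r \ {0}) σ := (hfr X O b β x σ r hL hfree).1
  obtain ⟨θ, hθ, hval⟩ := hfo X O b Unit (fun _ => Metric.ball (0 : Fin 3 → ℂ) r \ {0})
    (fun _ => σ) (fun _ _ => 1) hS (fun _ => hP) (fun _ v _ => ⟨analyticAt_const, one_ne_zero⟩) (by
      intro _ _ v hv v' hv' Ψ hΨ hΨv hσ
      have h1 : ∀ᶠ u in 𝓝 v, ∃ ζ : ℂ, ζ ^ b = 1 ∧ Ψ u = dact β ζ u := by
        have h2 : ∀ᶠ u in 𝓝 v, Ψ u ∈ Metric.ball (0 : Fin 3 → ℂ) r :=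
          hΨ.continuousAt.eventually (Metric.isOpen_ball.mem_nhds (by rw [hΨv]; exact hv'.1))
        filter_upwards [hσ, h2, Metric.isOpen_ball.mem_nhds hv.1] with u h3 h4 h5
        exact (hL.fib u h5 _ h4).1 h3.symm
      obtain ⟨ζ, hζ, h3⟩ := xd25_const b hL.b_pos β hfree v (fun h => hv.2 h) Ψ hΨ.continuousAt h1
      have h4 : fderiv ℂ Ψ v = fderiv ℂ (dact β ζ) v := Filter.EventuallyEq.fderiv_eq h3
      rw [h4, xd25_dact_fderiv, one_mul, mul_pow, mul_pow]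
      have h5 : ∀ k, (ζ ^ β k) ^ b = 1 := fun k => by
        rw [← zpow_natCast (ζ ^ β k), ← zpow_mul, xd25_zpow hζ (dvd_mul_left _ _)]
      rw [h5, h5, h5, one_mul, one_mul])
  have h0 : (0 : Fin 3 → ℂ) ∈ Metric.ball (0 : Fin 3 → ℂ) r := Metric.mem_ball_self hL.r_pos
  have hx : x ∉ ⋃ _ : Unit, σ '' (Metric.ball (0 : Fin 3 → ℂ) r \ {0}) := by
    intro h
    obtain ⟨-, v, hv, hvx⟩ := mem_iUnion.1 h
    rw [← hL.base] at hvx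
    obtain ⟨ζ, -, h1⟩ := (hL.fib 0 h0 v hv.1).1 hvx.symm
    refine hv.2 ?_
    rw [h1]
    show dact β ζ 0 = 0
    funext i
    exact mul_zero _
  obtain ⟨θ', hθ', hval'⟩ := hfe X O b _ (σ '' Metric.ball (0 : Fin 3 → ℂ) r) x hS (xd25_open hL) hx
    ⟨0, h0, hL.base⟩ (by
      rintro _ ⟨v, hv, rfl⟩
      by_cases hv0 : v = 0
      · left; rw [hv0, hL.base]
      · right; exact mem_iUnion.2 ⟨(), v, ⟨hv, hv0⟩, rfl⟩) θ hθ
  refine ⟨θ', hθ', fun v hv c hc => ?_⟩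
  rw [hval' c _ (mem_iUnion.2 ⟨(), v, hv, rfl⟩) ⟨v, hv.1, rfl⟩]
  exact hval () v hv c hc

end

/-- The relation between the pull-back and the invariant functions, at a lift. -/
theorem xd25_rel (b : ℕ) (hb : 1 ≤ b) (v : Fin 3 → ℂ) (ψ : (Fin 3 → ℂ) → (Fin 3 → ℂ))
    (hψ : AnalyticAt ℂ ψ v) (P : Fin 3 → (Fin 3 → ℂ) → ℂ)
    (hP : ∀ k, ∀ᶠ u in 𝓝 v, P k u = ψ u k ^ b) :
    (b : ℂ) ^ (3 * b) * (P 0 v * P 1 v * P 2 v) ^ (b - 1) * (fderiv ℂ ψ v).det ^ b =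
      (fderiv ℂ (fun x k => P k x) v).det ^ b ∧
    ∀ k, (∀ᶠ u in 𝓝 v, P k u = 0) → (fderiv ℂ ψ v).det ^ b = 0 := by
  have hd : ∀ k, HasFDerivAt (fun u => ψ u k)
      ((ContinuousLinearMap.proj (R := ℂ) (φ := fun _ : Fin 3 => ℂ) k).comp (fderiv ℂ ψ v)) v :=
    fun k => (ContinuousLinearMap.proj (R := ℂ) (φ := fun _ : Fin 3 => ℂ) k).hasFDerivAt.comp v
      hψ.differentiableAt.hasFDerivAt
  constructor
  · have h1 : (fun x k => P k x) =ᶠ[𝓝 v] fun x k => ψ x k ^ b := by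
      filter_upwards [eventually_all.2 hP] with u hu
      exact funext fun k => hu k
    set L' : (Fin 3 → ℂ) →L[ℂ] (Fin 3 → ℂ) := ContinuousLinearMap.pi fun k =>
      ((b : ℂ) * ψ v k ^ (b - 1)) •
        ((ContinuousLinearMap.proj (R := ℂ) (φ := fun _ : Fin 3 => ℂ) k).comp
          (fderiv ℂ ψ v)) with hL'
    have h2 : HasFDerivAt (fun x k => ψ x k ^ b) L' v := by
      refine hasFDerivAt_pi.2 fun k => ?_
      have := (hd k).pow b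
      simpa [smul_smul] using this
    have h4 : L'.det = (b : ℂ) * ψ v 0 ^ (b - 1) * ((b : ℂ) * ψ v 1 ^ (b - 1)) *
        ((b : ℂ) * ψ v 2 ^ (b - 1)) * (fderiv ℂ ψ v).det :=
      xd25_diag_comp (fun k => (b : ℂ) * ψ v k ^ (b - 1)) (fderiv ℂ ψ v) L' (fun u i => rfl)
    rw [h1.fderiv_eq, h2.fderiv, h4, (hP 0).self_of_nhds, (hP 1).self_of_nhds,
      (hP 2).self_of_nhds]
    rw [mul_pow _ (fderiv ℂ ψ v).det b]
    congr 1
    have h3 : ∀ z : ℂ, (z ^ b) ^ (b - 1) = (z ^ (b - 1)) ^ b := fun z => by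
      rw [← pow_mul, ← pow_mul, mul_comm]
    rw [mul_pow, mul_pow, h3, h3, h3, mul_pow, mul_pow, mul_pow, mul_pow, mul_pow, pow_mul]
    ring
  · intro k hk
    have h1 : (fun u => ψ u k) =ᶠ[𝓝 v] fun _ => 0 := by
      filter_upwards [hk, hP k] with u h2 h3
      rw [h2] at h3
      exact pow_eq_zero_iff (by omega) |>.1 h3.symm
    have h2 : (ContinuousLinearMap.proj (R := ℂ) (φ := fun _ : Fin 3 => ℂ) k).comp
        (fderiv ℂ ψ v) = 0 := by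
      rw [← (hd k).fderiv, h1.fderiv_eq]
      simp
    have h3 : (fderiv ℂ ψ v).det = 0 := by
      have h4 := xd25_diag_comp (fun i => if i = k then 0 else 1) (fderiv ℂ ψ v)
        (fderiv ℂ ψ v) (fun u i => by
          split_ifs with hi
          · rw [zero_mul, hi]
            exact congrArg (fun L : (Fin 3 → ℂ) →L[ℂ] ℂ => L u) h2
          · rw [one_mul])
      rw [h4]
      fin_cases k <;> simp
    rw [h3, zero_pow (by omega)]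

theorem xd25 (hco : SpCoord) (hfr : SpFree) (hli : SpLift3) (hfo : SpForm) (hfe : SpFext)
    (hpu : SpPull) (hage : SpAge) : SpCanQ := by
  intro X _ _ O b e1 e2 β x σ r hS hL hA hfree hd1 hd2
  obtain ⟨θ, hθ, hval⟩ := xd25_form hfr hfo hfe hS hL hfree
  have hP : LPar O (Metric.ball (0 : Fin 3 → ℂ) r \ {0}) σ := (hfr X O b β x σ r hL hfree).1
  have h0 : (0 : Fin 3 → ℂ) ∈ Metric.ball (0 : Fin 3 → ℂ) r := Metric.mem_ball_self hL.r_pos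
  refine ⟨b, σ '' Metric.ball (0 : Fin 3 → ℂ) r, hL.b_pos, xd25_open hL, ⟨0, h0, hL.base⟩, θ, hθ,
    fun B φ hB hφ hcl => ?_⟩
  obtain ⟨hR, h, hh, hext⟩ := hpu X O b _ θ B φ hS (xd25_open hL) hB hφ hcl
  refine hext fun b0 hb0 hnr => ?_
  -- `b0` is mapped to `x`
  have hbx : φ b0 = x := by
    obtain ⟨v, hv, hvb⟩ := (hφ b0 hb0).1
    by_cases hv0 : v = 0
    · rw [← hvb, hv0, hL.base]
    · exfalso
      obtain ⟨c, hc, -⟩ := (hco X O _ σ hP v ⟨hv, hv0⟩).2.1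
      exact hnr ⟨c, by rw [← hvb]; exact hc⟩
  have hpull : ∀ F : (Fin 3 → ℂ) → ℂ, (∀ ζ : ℂ, ζ ^ b = 1 → ∀ v, F (dact β ζ v) = F v) →
      AnalyticAt ℂ F 0 → AnalyticAt ℂ (xd25_desc σ r F ∘ φ) b0 := by
    intro F hF hFa
    refine (hφ b0 hb0).2.2 _ ?_
    rw [hbx]
    exact xd25_desc_hol hL F hF hFa
  have hap : ∀ k : Fin 3, AnalyticAt ℂ (fun v : Fin 3 → ℂ => v k) 0 := fun k =>
    (ContinuousLinearMap.proj (R := ℂ) (φ := fun _ : Fin 3 => ℂ) k).analyticAt 0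
  set FP : Fin 3 → (Fin 3 → ℂ) → ℂ := fun k v => v k ^ b with hFP
  set FQ : Fin 3 → ℕ → (Fin 3 → ℂ) → ℂ := fun k e v => v k * v 0 ^ e with hFQ
  have iP : ∀ k, ∀ ζ : ℂ, ζ ^ b = 1 → ∀ v, FP k (dact β ζ v) = FP k v := fun k ζ hζ v =>
    xd25_inv0 k ζ hζ v
  have iQ1 : ∀ ζ : ℂ, ζ ^ b = 1 → ∀ v, FQ 1 e1 (dact β ζ v) = FQ 1 e1 v := fun ζ hζ v =>
    xd25_inv1 hL.b_pos 1 e1 hd1 ζ hζ v
  have iQ2 : ∀ ζ : ℂ, ζ ^ b = 1 → ∀ v, FQ 2 e2 (dact β ζ v) = FQ 2 e2 v := fun ζ hζ v =>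
    xd25_inv1 hL.b_pos 2 e2 hd2 ζ hζ v
  have hnear : ∀ᶠ u in 𝓝 b0, u ∈ B := hB.mem_nhds hb0
  refine hage b e1 e2 hA b0 (fun k => xd25_desc σ r (FP k) ∘ φ) (xd25_desc σ r (FQ 1 e1) ∘ φ)
    (xd25_desc σ r (FQ 2 e2) ∘ φ) h {u | u ∈ B ∧ IsReg O 3 (φ u)} hR
    (fun k => hpull _ (iP k) ((hap k).pow b)) (hpull _ iQ1 ((hap 1).mul ((hap 0).pow e1)))
    (hpull _ iQ2 ((hap 2).mul ((hap 0).pow e2))) ?_ ?_ ?_ |>.imp fun h1 hh1 => ⟨hh1.1, ?_⟩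
  · filter_upwards [hnear] with u hu
    obtain ⟨w, hw, hwu⟩ := (hφ u hu).1
    simp only [Function.comp_apply]
    rw [← hwu, xd25_desc_eq hL _ iQ1 hw, xd25_desc_eq hL _ (iP 1) hw, xd25_desc_eq hL _ (iP 0) hw]
    show (w 1 * w 0 ^ e1) ^ b = w 1 ^ b * (w 0 ^ b) ^ e1
    rw [mul_pow, ← pow_mul, ← pow_mul, mul_comm b e1]
  · filter_upwards [hnear] with u hu
    obtain ⟨w, hw, hwu⟩ := (hφ u hu).1
    simp only [Function.comp_apply]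
    rw [← hwu, xd25_desc_eq hL _ iQ2 hw, xd25_desc_eq hL _ (iP 2) hw, xd25_desc_eq hL _ (iP 0) hw]
    show (w 2 * w 0 ^ e2) ^ b = w 2 ^ b * (w 0 ^ b) ^ e2
    rw [mul_pow, ← pow_mul, ← pow_mul, mul_comm b e2]
  · refine Eventually.of_forall fun v hv => ?_
    obtain ⟨hvB, hvr⟩ := hv
    obtain ⟨hhan, hhv⟩ := hh v hvB hvr
    obtain ⟨w, hw, hwv⟩ := (hφ v hvB).1
    have hw0 : w ≠ 0 := by
      rintro rfl
      rw [hL.base] at hwv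
      rw [← hwv, ← hbx] at hvr
      exact hnr hvr
    have hwD : w ∈ Metric.ball (0 : Fin 3 → ℂ) r \ {0} := ⟨hw, hw0⟩
    obtain ⟨ψ, hψ, hψv, hψσ⟩ := hli X O _ σ hP w hwD φ v (hφ v hvB).2 hwv.symm
    obtain ⟨c, hc, hcσ⟩ := (hco X O _ σ hP w hwD).2.1
    have hψt : Tendsto ψ (𝓝 v) (𝓝 w) := by
      have := hψ.continuousAt.tendsto
      rwa [hψv] at this
    -- the value of `h`
    have h1 : h v = (fderiv ℂ ψ v).det ^ b := by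
      have h2 : θ.val c (σ w) = 1 := by
        have h3 := hval w hwD c hc
        have h4 : c ∘ σ =ᶠ[𝓝 w] id := hcσ
        rw [h4.fderiv_eq, fderiv_id] at h3
        have h5 : (ContinuousLinearMap.id ℂ (Fin 3 → ℂ)).det = 1 := LinearMap.det_id
        rwa [h5, one_pow, mul_one] at h3
      rw [hhv c (by rw [← hwv]; exact hc), ← hwv, h2, one_mul]
      have h3 : c ∘ φ =ᶠ[𝓝 v] ψ := by
        filter_upwards [hψσ, hψt.eventually hcσ] with u h4 h5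
        rw [Function.comp_apply, ← h4, h5]
      rw [h3.fderiv_eq]
    have h2 : ∀ k, ∀ᶠ u in 𝓝 v, (xd25_desc σ r (FP k) ∘ φ) u = ψ u k ^ b := by
      intro k
      filter_upwards [hψσ, hψt.eventually (Metric.isOpen_ball.mem_nhds hw)] with u h4 h5
      rw [Function.comp_apply, ← h4, xd25_desc_eq hL _ (iP k) h5]
    have h3 := xd25_rel b hL.b_pos v ψ hψ _ h2
    rw [← h1] at h3
    exact ⟨hhan, h3⟩
  · filter_upwards [hh1.2] with u hu huB hur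
    exact hu ⟨huB, hur⟩

end Pool.Agent.KO
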