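import Pool.Agent.KO.Xb.St

/-!
# Block Xd, row D26a: the four étale charts of the quadric cone (helper87)
-/

set_option autoImplicit false

namespace Pool.Agent.KO

open Set Filter Topology

/-! ### Algebra of the four charts -/

theorem xd26a_qd (i : Fin 4) (u : Fin 3 → ℂ) (hu : u (piv i) ≠ 0) : par i u ∈ Qd := by
  match i with
  | 0 =>
    have h : u 0 ≠ 0 := hu
    show u 0 * (-(u 1 * u 2) / u 0) + u 1 * u 2 = 0
    field_simp
    ring
  | 1 =>
    have h : u 1 ≠ 0 := hu
    show u 0 * u 2 + u 1 * (-(u 0 * u 2) / u 1) = 0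
    field_simp
    ring
  | 2 =>
    have h : u 0 ≠ 0 := hu
    show (-(u 1 * u 2) / u 0) * u 0 + u 1 * u 2 = 0
    field_simp
    ring
  | 3 =>
    have h : u 2 ≠ 0 := hu
    show u 0 * u 1 + (-(u 0 * u 1) / u 2) * u 2 = 0
    field_simp
    ring

theorem xd26a_piv (i : Fin 4) (u : Fin 3 → ℂ) : par i u i = u (piv i) := by
  match i with
  | 0 => rfl
  | 1 => rfl
  | 2 => rfl
  | 3 => rfl

theorem xd26a_prj_par (i : Fin 4) (u : Fin 3 → ℂ) : prj i (par i u) = u := by
  match i with
  | 0 =>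
    funext k
    fin_cases k <;> rfl
  | 1 =>
    funext k
    fin_cases k <;> rfl
  | 2 =>
    funext k
    fin_cases k <;> rfl
  | 3 =>
    funext k
    fin_cases k <;> rfl

theorem xd26a_prj_piv (i : Fin 4) (v : Fin 4 → ℂ) : prj i v (piv i) = v i := by
  match i with
  | 0 => rfl
  | 1 => rfl
  | 2 => rfl
  | 3 => rfl

theorem xd26a_par_prj (i : Fin 4) (v : Fin 4 → ℂ) (hv : v ∈ Qd) (hi : v i ≠ 0) :
    par i (prj i v) = v := by
  have h0 : v 0 * v 2 + v 1 * v 3 = 0 := hv
  match i with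
  | 0 =>
    have e : -(v 1 * v 3) / v 0 = v 2 := by
      rw [div_eq_iff hi]
      linear_combination -h0
    funext k
    fin_cases k
    · rfl
    · rfl
    · exact e
    · rfl
  | 1 =>
    have e : -(v 0 * v 2) / v 1 = v 3 := by
      rw [div_eq_iff hi]
      linear_combination -h0
    funext k
    fin_cases k
    · rfl
    · rfl
    · rfl
    · exact e
  | 2 =>
    have e : -(v 1 * v 3) / v 2 = v 0 := by
      rw [div_eq_iff hi]
      linear_combination -h0
    funext k
    fin_cases k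
    · exact e
    · rfl
    · rfl
    · rfl
  | 3 =>
    have e : -(v 0 * v 2) / v 3 = v 1 := by
      rw [div_eq_iff hi]
      linear_combination -h0
    funext k
    fin_cases k
    · rfl
    · exact e
    · rfl
    · rfl

/-! ### Analyticity -/

theorem xd26a_apply_an (n : ℕ) (k : Fin n) (u : Fin n → ℂ) :
    AnalyticAt ℂ (fun u : Fin n → ℂ => u k) u :=
  (ContinuousLinearMap.proj (R := ℂ) (φ := fun _ : Fin n => ℂ) k).analyticAt u

theorem xd26a_par_an (i : Fin 4) (u : Fin 3 → ℂ) (hu : u (piv i) ≠ 0) :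
    AnalyticAt ℂ (par i) u := by
  have ha : ∀ k : Fin 3, AnalyticAt ℂ (fun u : Fin 3 → ℂ => u k) u := fun k =>
    xd26a_apply_an 3 k u
  refine analyticAt_pi_iff.2 fun k => ?_
  match i with
  | 0 =>
    have h : u 0 ≠ 0 := hu
    have hd : AnalyticAt ℂ (fun u : Fin 3 → ℂ => -(u 1 * u 2) / u 0) u :=
      (((ha 1).mul (ha 2)).neg).div (ha 0) h
    fin_cases k
    · exact ha 0
    · exact ha 1
    · exact hd
    · exact ha 2
  | 1 =>
    have h : u 1 ≠ 0 := hu
    have hd : AnalyticAt ℂ (fun u : Fin 3 → ℂ => -(u 0 * u 2) / u 1) u :=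
      (((ha 0).mul (ha 2)).neg).div (ha 1) h
    fin_cases k
    · exact ha 0
    · exact ha 1
    · exact ha 2
    · exact hd
  | 2 =>
    have h : u 0 ≠ 0 := hu
    have hd : AnalyticAt ℂ (fun u : Fin 3 → ℂ => -(u 1 * u 2) / u 0) u :=
      (((ha 1).mul (ha 2)).neg).div (ha 0) h
    fin_cases k
    · exact hd
    · exact ha 1
    · exact ha 0
    · exact ha 2
  | 3 =>
    have h : u 2 ≠ 0 := hu
    have hd : AnalyticAt ℂ (fun u : Fin 3 → ℂ => -(u 0 * u 1) / u 2) u :=
      (((ha 0).mul (ha 1)).neg).div (ha 2) h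
    fin_cases k
    · exact ha 0
    · exact hd
    · exact ha 1
    · exact ha 2

theorem xd26a_prj_an (i : Fin 4) (v : Fin 4 → ℂ) : AnalyticAt ℂ (prj i) v := by
  have ha : ∀ k : Fin 4, AnalyticAt ℂ (fun u : Fin 4 → ℂ => u k) v := fun k =>
    xd26a_apply_an 4 k v
  refine analyticAt_pi_iff.2 fun k => ?_
  match i with
  | 0 =>
    fin_cases k
    · exact ha 0
    · exact ha 1
    · exact ha 3
  | 1 =>
    fin_cases k
    · exact ha 0
    · exact ha 1
    · exact ha 2
  | 2 =>
    fin_cases k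
    · exact ha 2
    · exact ha 1
    · exact ha 3
  | 3 =>
    fin_cases k
    · exact ha 0
    · exact ha 2
    · exact ha 3

/-! ### Topology -/

theorem xd26a_open (r : ℝ) (i : Fin 4) : IsOpen (parD r i) := by
  have h1 : IsOpen {u : Fin 3 → ℂ | u (piv i) ≠ 0} :=
    isOpen_ne_fun (continuous_apply _) continuous_const
  rw [isOpen_iff_mem_nhds]
  rintro u ⟨hu, hr⟩
  have hc : ContinuousAt (fun u => ‖par i u‖) u := (xd26a_par_an i u hu).continuousAt.norm
  filter_upwards [h1.mem_nhds hu, hc.eventually (gt_mem_nhds hr)] with u' h h'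
  exact ⟨h, h'⟩

theorem xd26a_ev (i : Fin 4) (v : Fin 4 → ℂ) (hi : v i ≠ 0) :
    ∀ᶠ v' in 𝓝[Qd] v, v' ∈ Qd ∧ par i (prj i v') = v' := by
  have h1 : ∀ᶠ v' in 𝓝[Qd] v, v' i ≠ 0 :=
    nhdsWithin_le_nhds ((continuous_apply i).continuousAt.eventually_ne hi)
  filter_upwards [h1, self_mem_nhdsWithin] with v' h h'
  exact ⟨h', xd26a_par_prj i v' h' h⟩

theorem xd26a_map (i : Fin 4) (u : Fin 3 → ℂ) (hu : u (piv i) ≠ 0) :
    map (par i) (𝓝 u) = 𝓝[Qd] (par i u) := by
  apply le_antisymm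
  · have h1 : ∀ᶠ u' in 𝓝 u, par i u' ∈ Qd := by
      filter_upwards [(continuous_apply (piv i)).continuousAt.eventually_ne hu] with u' h
      exact xd26a_qd i u' h
    exact tendsto_nhdsWithin_iff.2 ⟨(xd26a_par_an i u hu).continuousAt, h1⟩
  · intro s hs
    have h1 : par i ⁻¹' s ∈ 𝓝 (prj i (par i u)) := by
      rw [xd26a_prj_par]
      exact hs
    have h2 : prj i ⁻¹' (par i ⁻¹' s) ∈ 𝓝[Qd] (par i u) :=
      nhdsWithin_le_nhds ((xd26a_prj_an i (par i u)).continuousAt h1)
    have h3 : par i u i ≠ 0 := by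
      rw [xd26a_piv]
      exact hu
    filter_upwards [h2, xd26a_ev i _ h3] with v' h h'
    have h4 : par i (prj i v') ∈ s := h
    rwa [h'.2] at h4

/-- D26a. -/
theorem xd26a (hco : SpCoord) : SpParXd := by
  intro X _ O x σ r hN
  have hdom : ∀ v ∈ Qd, ‖v‖ < r → ∀ i, v i ≠ 0 → prj i v ∈ parD r i ∧ par i (prj i v) = v := by
    intro v hv hr i hi
    have h1 := xd26a_par_prj i v hv hi
    refine ⟨⟨?_, ?_⟩, h1⟩
    · rw [xd26a_prj_piv]
      exact hi
    · rw [h1]
      exact hr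
  have hL : ∀ i, LPar O (parD r i) (σ ∘ par i) := by
    intro i
    refine ⟨xd26a_open r i, ?_, ?_, ?_⟩
    · rintro u ⟨hu, hr⟩
      rw [← Filter.map_map, xd26a_map i u hu, hN.nhds _ (xd26a_qd i u hu) hr]
      rfl
    · intro u hu
      refine ⟨parD r i, (xd26a_open r i).mem_nhds hu, ?_⟩
      rintro u1 ⟨h1, h1'⟩ u2 ⟨h2, h2'⟩ he
      have h3 := hN.inj _ (xd26a_qd i u1 h1) h1' _ (xd26a_qd i u2 h2) h2' he
      rw [← xd26a_prj_par i u1, h3, xd26a_prj_par]
    · rintro u ⟨hu, hr⟩ f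
      have h0 := hN.hol _ (xd26a_qd i u hu) hr f
      show O f (σ (par i u)) ↔ _
      rw [h0]
      constructor
      · rintro ⟨H, hH, he⟩
        rw [← xd26a_map i u hu, eventually_map] at he
        have h1 : AnalyticAt ℂ (H ∘ par i) u := hH.comp (xd26a_par_an i u hu)
        refine h1.congr ?_
        filter_upwards [he] with u' h
        exact h.symm
      · intro h
        have h3 : par i u i ≠ 0 := by
          rw [xd26a_piv]
          exact hu
        refine ⟨(f ∘ (σ ∘ par i)) ∘ prj i, ?_, ?_⟩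
        · have h4 : AnalyticAt ℂ (f ∘ (σ ∘ par i)) (prj i (par i u)) := by
            rw [xd26a_prj_par]
            exact h
          exact h4.comp (xd26a_prj_an i (par i u))
        · filter_upwards [xd26a_ev i _ h3] with v' h'
          show f (σ v') = f (σ (par i (prj i v')))
          rw [h'.2]
  have hG : ∀ v ∈ Qd, ‖v‖ < r → v ≠ 0 → Good O (σ v) := by
    intro v hv hr hv0
    obtain ⟨i, hi⟩ : ∃ i, v i ≠ 0 := by
      by_contra h
      push Not at h
      exact hv0 (funext h)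
    obtain ⟨h1, h2⟩ := hdom v hv hr i hi
    have h3 := (hco X O _ _ (hL i) _ h1).1
    have h4 : (σ ∘ par i) (prj i v) = σ v := by
      show σ (par i (prj i v)) = σ v
      rw [h2]
    rwa [h4] at h3
  have h0 : (0 : Fin 4 → ℂ) ∈ Qd := by
    show (0 : ℂ) * 0 + 0 * 0 = 0
    ring
  have hx : map σ (𝓝[Qd] 0) = 𝓝 x := by
    rw [hN.nhds 0 h0 (by rw [norm_zero]; exact hN.r_pos), hN.base]
  have hball : ∀ᶠ v in 𝓝[Qd] (0 : Fin 4 → ℂ), ‖v‖ < r := by
    refine nhdsWithin_le_nhds ?_
    have h1 : ContinuousAt (fun v : Fin 4 → ℂ => ‖v‖) 0 := continuous_norm.continuousAt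
    have h2 : ‖(0 : Fin 4 → ℂ)‖ < r := by
      rw [norm_zero]
      exact hN.r_pos
    exact h1.eventually (gt_mem_nhds h2)
  refine ⟨hL, ?_, hdom, ?_, ?_⟩
  · rintro i u ⟨hu, hr⟩
    refine ⟨xd26a_qd i u hu, ?_, xd26a_par_an i u hu, xd26a_piv i u, xd26a_prj_par i u⟩
    intro h
    apply hu
    have h1 := xd26a_piv i u
    rw [h] at h1
    exact h1.symm
  · rw [← hx, eventually_map]
    filter_upwards [hball, self_mem_nhdsWithin] with v hr hv hne
    refine hG v hv hr ?_
    rintro rfl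
    exact hne hN.base
  · have hc : Tendsto (fun e : ℂ => (![e, 0, 0, 0] : Fin 4 → ℂ)) (𝓝[≠] 0) (𝓝[Qd] 0) := by
      refine tendsto_nhdsWithin_iff.2 ⟨?_, ?_⟩
      · have h1 : Continuous (fun e : ℂ => (![e, 0, 0, 0] : Fin 4 → ℂ)) := by
          refine continuous_pi fun k => ?_
          fin_cases k
          · exact continuous_id
          · exact continuous_const
          · exact continuous_const
          · exact continuous_const
        have h2 : (![(0 : ℂ), 0, 0, 0] : Fin 4 → ℂ) = 0 := by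
          funext k
          fin_cases k <;> rfl
        have h3 := h1.tendsto 0
        rw [h2] at h3
        exact h3.mono_left nhdsWithin_le_nhds
      · refine Filter.Eventually.of_forall fun e => ?_
        show e * 0 + (0 : ℂ) * 0 = 0
        ring
    have h1 : Tendsto (fun e : ℂ => σ ![e, 0, 0, 0]) (𝓝[≠] 0) (𝓝 x) := by
      rw [← hx]
      exact tendsto_map.comp hc
    refine mem_closure_of_tendsto h1 ?_
    filter_upwards [hc.eventually hball, self_mem_nhdsWithin] with e hr he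
    refine hG _ ?_ hr ?_
    · show e * 0 + (0 : ℂ) * 0 = 0
      ring
    · intro h
      apply he
      have := congrFun h 0
      exact this

end Pool.Agent.KO
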