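import Mathlib
import Pool.Agent.KO.Xb.St

/-! Row KO-Xd-D26b: the residue form on the quadric cone, linear algebra. -/

set_option autoImplicit false

namespace Pool.Agent.KO

open Set Filter Topology

/-- The coordinates used by `prj i`. -/
def xd26b_idx : Fin 4 → Fin 3 → Fin 4 := ![![0, 1, 3], ![0, 1, 2], ![2, 1, 3], ![0, 2, 3]]

theorem xd26b_prj (i : Fin 4) (x : Fin 4 → ℂ) : prj i x = fun k => x (xd26b_idx i k) := by
  funext k
  fin_cases i <;> fin_cases k <;> rfl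

theorem xd26b_det (F : (Fin 3 → ℂ) → Fin 3 → ℂ) (b : Fin 3 → ℂ)
    (hF : ∀ k, DifferentiableAt ℂ (fun u => F u k) b) :
    (fderiv ℂ F b).det =
      Matrix.det (fun k m : Fin 3 => fderiv ℂ (fun u => F u k) b (Pi.single m 1)) := by
  have h1 : fderiv ℂ F b = ContinuousLinearMap.pi (fun k => fderiv ℂ (fun u => F u k) b) :=
    fderiv_pi hF
  rw [h1]
  show LinearMap.det _ = _
  rw [← LinearMap.det_toMatrix']
  congr 1

theorem xd26b : SpRes := by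
  intro ξ b hξ hQ i j
  have hd : ∀ k, DifferentiableAt ℂ (fun u => ξ u k) b := fun k =>
    (differentiableAt_pi.1 hξ.differentiableAt) k
  set D : Fin 4 → Fin 3 → ℂ := fun k m => fderiv ℂ (fun u => ξ u k) b (Pi.single m 1) with hD
  have hrel : ∀ m, ξ b 0 * D 2 m + ξ b 2 * D 0 m + (ξ b 1 * D 3 m + ξ b 3 * D 1 m) = 0 := by
    intro m
    have h1 : (fun u => ξ u 0 * ξ u 2 + ξ u 1 * ξ u 3) =ᶠ[𝓝 b] fun _ => 0 := by
      filter_upwards [hQ] with u hu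
      exact hu
    have h2 := h1.fderiv_eq (𝕜 := ℂ)
    have h3 : HasFDerivAt (fun u => ξ u 0 * ξ u 2 + ξ u 1 * ξ u 3)
        ((ξ b 0 • fderiv ℂ (fun u => ξ u 2) b + ξ b 2 • fderiv ℂ (fun u => ξ u 0) b) +
          (ξ b 1 • fderiv ℂ (fun u => ξ u 3) b + ξ b 3 • fderiv ℂ (fun u => ξ u 1) b)) b :=
      ((hd 0).hasFDerivAt.mul (hd 2).hasFDerivAt).add
        ((hd 1).hasFDerivAt.mul (hd 3).hasFDerivAt)
    rw [h3.fderiv] at h2
    have h5 : fderiv ℂ (fun _ : Fin 3 → ℂ => (0 : ℂ)) b = 0 := by simp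
    rw [h5] at h2
    have h4 := congrArg (fun L : (Fin 3 → ℂ) →L[ℂ] ℂ => L (Pi.single m 1)) h2
    simpa [hD] using h4
  have hdet : ∀ i, (fderiv ℂ (fun u => prj i (ξ u)) b).det =
      Matrix.det (fun k m : Fin 3 => D (xd26b_idx i k) m) := by
    intro i
    have h1 : (fun u => prj i (ξ u)) = fun u => fun k => ξ u (xd26b_idx i k) := by
      funext u; exact xd26b_prj i (ξ u)
    rw [h1, xd26b_det _ b (fun k => hd _)]
  have r0 := hrel 0
  have r1 := hrel 1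
  have r2 := hrel 2
  rw [hdet i, hdet j]
  clear_value D
  have e0 : (fun k m : Fin 3 => D (xd26b_idx 0 k) m) = ![D 0, D 1, D 3] := by
    funext k m; fin_cases k <;> rfl
  have e1 : (fun k m : Fin 3 => D (xd26b_idx 1 k) m) = ![D 0, D 1, D 2] := by
    funext k m; fin_cases k <;> rfl
  have e2 : (fun k m : Fin 3 => D (xd26b_idx 2 k) m) = ![D 2, D 1, D 3] := by
    funext k m; fin_cases k <;> rfl
  have e3 : (fun k m : Fin 3 => D (xd26b_idx 3 k) m) = ![D 0, D 2, D 3] := by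
    funext k m; fin_cases k <;> rfl
  have s0 : sg 0 = 1 := rfl
  have s1 : sg 1 = -1 := rfl
  have s2 : sg 2 = -1 := rfl
  have s3 : sg 3 = -1 := rfl
  fin_cases i <;> fin_cases j <;>
    simp only [Fin.zero_eta, Fin.mk_one, Fin.reduceFinMk, Fin.isValue, e0, e1, e2, e3, s0, s1, s2,
      s3, Matrix.det_fin_three, Matrix.cons_val_zero, Matrix.cons_val_one, Matrix.cons_val] <;>
    first
      | rfl
      | linear_combination (D 0 1 * D 1 2 - D 0 2 * D 1 1) * r0 + (D 0 2 * D 1 0 - D 0 0 * D 1 2) * r1 + (D 0 0 * D 1 1 - D 0 1 * D 1 0) * r2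
      | linear_combination -((D 0 1 * D 1 2 - D 0 2 * D 1 1) * r0 + (D 0 2 * D 1 0 - D 0 0 * D 1 2) * r1 + (D 0 0 * D 1 1 - D 0 1 * D 1 0) * r2)
      | linear_combination (D 1 1 * D 3 2 - D 1 2 * D 3 1) * r0 + (D 1 2 * D 3 0 - D 1 0 * D 3 2) * r1 + (D 1 0 * D 3 1 - D 1 1 * D 3 0) * r2
      | linear_combination -((D 1 1 * D 3 2 - D 1 2 * D 3 1) * r0 + (D 1 2 * D 3 0 - D 1 0 * D 3 2) * r1 + (D 1 0 * D 3 1 - D 1 1 * D 3 0) * r2)
      | linear_combination (D 3 1 * D 0 2 - D 3 2 * D 0 1) * r0 + (D 3 2 * D 0 0 - D 3 0 * D 0 2) * r1 + (D 3 0 * D 0 1 - D 3 1 * D 0 0) * r2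
      | linear_combination -((D 3 1 * D 0 2 - D 3 2 * D 0 1) * r0 + (D 3 2 * D 0 0 - D 3 0 * D 0 2) * r1 + (D 3 0 * D 0 1 - D 3 1 * D 0 0) * r2)
      | linear_combination (D 2 1 * D 1 2 - D 2 2 * D 1 1) * r0 + (D 2 2 * D 1 0 - D 2 0 * D 1 2) * r1 + (D 2 0 * D 1 1 - D 2 1 * D 1 0) * r2
      | linear_combination -((D 2 1 * D 1 2 - D 2 2 * D 1 1) * r0 + (D 2 2 * D 1 0 - D 2 0 * D 1 2) * r1 + (D 2 0 * D 1 1 - D 2 1 * D 1 0) * r2)
      | linear_combination (D 0 1 * D 2 2 - D 0 2 * D 2 1) * r0 + (D 0 2 * D 2 0 - D 0 0 * D 2 2) * r1 + (D 0 0 * D 2 1 - D 0 1 * D 2 0) * r2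
      | linear_combination -((D 0 1 * D 2 2 - D 0 2 * D 2 1) * r0 + (D 0 2 * D 2 0 - D 0 0 * D 2 2) * r1 + (D 0 0 * D 2 1 - D 0 1 * D 2 0) * r2)
      | linear_combination (D 2 1 * D 3 2 - D 2 2 * D 3 1) * r0 + (D 2 2 * D 3 0 - D 2 0 * D 3 2) * r1 + (D 2 0 * D 3 1 - D 2 1 * D 3 0) * r2
      | linear_combination -((D 2 1 * D 3 2 - D 2 2 * D 3 1) * r0 + (D 2 2 * D 3 0 - D 2 0 * D 3 2) * r1 + (D 2 0 * D 3 1 - D 2 1 * D 3 0) * r2)

end Pool.Agent.KO
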