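import Pool.Agent.KO.Xb.St

/-!
# Project KO, block Xd, row D26c: the residue form on the smooth part of the quadric cone
-/

set_option autoImplicit false

namespace Pool.Agent.KO

open Set Filter Topology

theorem xd26c_prj_analytic (i : Fin 4) (x : Fin 4 → ℂ) : AnalyticAt ℂ (prj i) x := by
  have hp : ∀ k : Fin 4, AnalyticAt ℂ (fun x : Fin 4 → ℂ => x k) x := fun k =>
    (ContinuousLinearMap.proj (R := ℂ) (φ := fun _ : Fin 4 => ℂ) k).analyticAt x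
  have h : ∀ m : Fin 3, AnalyticAt ℂ (fun x : Fin 4 → ℂ => prj i x m) x := by
    intro m
    fin_cases i <;> fin_cases m <;> first
      | exact hp 0
      | exact hp 1
      | exact hp 2
      | exact hp 3
  exact AnalyticAt.pi h

theorem xd26c_det_comp (A B : (Fin 3 → ℂ) →L[ℂ] (Fin 3 → ℂ)) :
    (A.comp B).det = A.det * B.det := by
  show LinearMap.det ((A : (Fin 3 → ℂ) →ₗ[ℂ] (Fin 3 → ℂ)) ∘ₗ (B : (Fin 3 → ℂ) →ₗ[ℂ] _)) = _
  rw [LinearMap.det_comp]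

/-- D26c -/
theorem xd26c (hpar : SpParXd) (hres : SpRes) (hco : SpCoord) (_hli : SpLift3) (hfo : SpForm) :
    SpNodeP := by
  intro X _ O x σ r hL hN
  obtain ⟨hP1, hP2, hP3, -, -⟩ := hpar X O x σ r hN
  have hsg : ∀ i : Fin 4, sg i ≠ 0 := by
    intro i
    fin_cases i <;> simp [sg]
  have hcomp : ∀ i j : Fin 4, ∀ v ∈ parD r i, ∀ v' ∈ parD r j,
      ∀ Ψ : (Fin 3 → ℂ) → (Fin 3 → ℂ), AnalyticAt ℂ Ψ v → Ψ v = v' →
      (∀ᶠ u in 𝓝 v, (σ ∘ par j) (Ψ u) = (σ ∘ par i) u) →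
      sg i / v (piv i) = sg j / v' (piv j) * (fderiv ℂ Ψ v).det ^ 1 := by
    intro i j v hv v' hv' Ψ hΨ hΨv he
    obtain ⟨hq, hne, han, hvi, hprj⟩ := hP2 i v hv
    have hi : ∀ᶠ u in 𝓝 v, u ∈ parD r i := (hP1 i).isOpen.mem_nhds hv
    have hj : ∀ᶠ u in 𝓝 v, Ψ u ∈ parD r j :=
      hΨ.continuousAt.preimage_mem_nhds ((hP1 j).isOpen.mem_nhds (by rw [hΨv]; exact hv'))
    have hpe : ∀ᶠ u in 𝓝 v, par j (Ψ u) = par i u := by
      filter_upwards [hi, hj, he] with u hu1 hu2 hu3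
      exact hN.inj _ (hP2 j _ hu2).1 hu2.2 _ (hP2 i _ hu1).1 hu1.2 hu3
    have h1 := hres (par i) v han (hi.mono fun u hu => (hP2 i u hu).1) i j
    have h2 : (fun u => prj i (par i u)) =ᶠ[𝓝 v] id := hi.mono fun u hu => (hP2 i u hu).2.2.2.2
    have h3 : (fun u => prj j (par i u)) =ᶠ[𝓝 v] Ψ := by
      filter_upwards [hj, hpe] with u hu2 hu3
      rw [← hu3]
      exact (hP2 j _ hu2).2.2.2.2
    rw [h2.fderiv_eq, h3.fderiv_eq, fderiv_id] at h1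
    have h4 : (ContinuousLinearMap.id ℂ (Fin 3 → ℂ)).det = 1 := LinearMap.det_id
    have h5 : par i v j = v' (piv j) := by
      have h6 := hpe.self_of_nhds
      rw [← h6, hΨv]
      exact (hP2 j v' hv').2.2.2.1
    rw [h4, hvi, h5, mul_one] at h1
    have h7 : v (piv i) ≠ 0 := hv.1
    have h8 : v' (piv j) ≠ 0 := hv'.1
    rw [pow_one, div_mul_eq_mul_div, div_eq_div_iff h7 h8]
    exact h1
  obtain ⟨θ, hgen, hθ⟩ := hfo X O 1 (Fin 4) (fun i => parD r i) (fun i => σ ∘ par i)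
    (fun i u => sg i / u (piv i)) hL hP1 (by
      intro i v hv
      refine ⟨?_, div_ne_zero (hsg i) hv.1⟩
      exact analyticAt_const.div
        ((ContinuousLinearMap.proj (R := ℂ) (φ := fun _ : Fin 3 => ℂ) (piv i)).analyticAt v)
        hv.1) hcomp
  have hU : (⋃ i, (σ ∘ par i) '' parD r i) = σ '' {v | v ∈ Qd ∧ ‖v‖ < r ∧ v ≠ 0} := by
    ext y
    constructor
    · intro hy
      obtain ⟨i, u, hu, rfl⟩ := mem_iUnion.1 hy
      exact ⟨par i u, ⟨(hP2 i u hu).1, hu.2, (hP2 i u hu).2.1⟩, rfl⟩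
    · rintro ⟨v, ⟨hv1, hv2, hv3⟩, rfl⟩
      obtain ⟨i, hi⟩ := Function.ne_iff.1 hv3
      obtain ⟨h1, h2⟩ := hP3 v hv1 hv2 i hi
      exact mem_iUnion.2 ⟨i, prj i v, h1, congrArg σ h2⟩
  rw [← hU]
  refine ⟨θ, hgen, ?_⟩
  intro φ b c ξ hξ hξr hξ0 hev hc
  obtain ⟨i0, hi0⟩ := Function.ne_iff.1 hξ0
  have hi0' : ξ b i0 ≠ 0 := hi0
  obtain ⟨hq, hφ⟩ := hev.self_of_nhds
  obtain ⟨hw, hpw⟩ := hP3 _ hq hξr i0 hi0'
  have hτ : (σ ∘ par i0) (prj i0 (ξ b)) = φ b := by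
    rw [Function.comp_apply, hpw, hφ]
  have hc' : IsCoord O c ((σ ∘ par i0) (prj i0 (ξ b))) := by
    rw [hτ]
    exact hc
  obtain ⟨hcan, -⟩ := (hco X O (parD r i0) (σ ∘ par i0) (hP1 i0) _ hw).2.2.2 c hc'
  have h1 := hθ i0 _ hw c hc'
  rw [hτ, pow_one] at h1
  have h2 : prj i0 (ξ b) (piv i0) = ξ b i0 := by
    rw [← (hP2 i0 _ hw).2.2.2.1, hpw]
  rw [h2] at h1
  have hn : ∀ᶠ u in 𝓝 b, ‖ξ u‖ < r :=
    hξ.continuousAt.norm.eventually (gt_mem_nhds hξr)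
  have hne : ∀ᶠ u in 𝓝 b, ξ u i0 ≠ 0 :=
    (((continuous_apply i0).continuousAt.comp hξ.continuousAt).eventually_ne hi0')
  have h3 : (c ∘ φ) =ᶠ[𝓝 b] (c ∘ (σ ∘ par i0)) ∘ (prj i0 ∘ ξ) := by
    filter_upwards [hev, hn, hne] with u hu1 hu2 hu3
    obtain ⟨-, h⟩ := hP3 _ hu1.1 hu2 i0 hu3
    show c (φ u) = c (σ (par i0 (prj i0 (ξ u))))
    rw [h, hu1.2]
  have h4 : AnalyticAt ℂ (prj i0 ∘ ξ) b := (xd26c_prj_analytic i0 (ξ b)).comp hξ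
  have h5 : (fderiv ℂ (c ∘ φ) b).det =
      (fderiv ℂ (c ∘ (σ ∘ par i0)) (prj i0 (ξ b))).det * (fderiv ℂ (prj i0 ∘ ξ) b).det := by
    rw [h3.fderiv_eq, fderiv_comp b (g := c ∘ (σ ∘ par i0)) hcan.differentiableAt
      h4.differentiableAt, xd26c_det_comp]
    rfl
  have h6 : θ.val c (φ b) * (fderiv ℂ (c ∘ φ) b).det * ξ b i0 =
      sg i0 * (fderiv ℂ (prj i0 ∘ ξ) b).det := by
    rw [h5, ← mul_assoc, h1, div_mul_eq_mul_div, div_mul_cancel₀ _ hi0']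
  intro i
  have h7 := hres ξ b hξ (hev.mono fun u hu => hu.1) i0 i
  have h8 : (fderiv ℂ (fun u => prj i0 (ξ u)) b).det = (fderiv ℂ (prj i0 ∘ ξ) b).det := rfl
  rw [h8, ← h6] at h7
  refine mul_right_cancel₀ hi0' ?_
  rw [← h7]
  ring

end Pool.Agent.KO
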