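import Pool.Agent.KO.Xb.St

/-!
# Row D27: the node is canonical
-/

set_option autoImplicit false

namespace Pool.Agent.KO

open Set Filter Topology

open Classical in
/-- The coordinates of a point of the node. -/
private noncomputable def xd27_k {X : Type} (σ : (Fin 4 → ℂ) → X) (r : ℝ) (y : X) :
    Fin 4 → ℂ :=
  if h : ∃ v, v ∈ Qd ∧ ‖v‖ < r ∧ σ v = y then h.choose else 0

private theorem xd27_k_eq {X : Type} [TopologicalSpace X] {O : Shf X} {x : X}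
    {σ : (Fin 4 → ℂ) → X} {r : ℝ} (hN : Node O x σ r) {v : Fin 4 → ℂ} (hv : v ∈ Qd)
    (hr : ‖v‖ < r) : xd27_k σ r (σ v) = v := by
  have h : ∃ v', v' ∈ Qd ∧ ‖v'‖ < r ∧ σ v' = σ v := ⟨v, hv, hr, rfl⟩
  unfold xd27_k
  rw [dif_pos h]
  obtain ⟨h1, h2, h3⟩ := h.choose_spec
  exact hN.inj _ h1 h2 _ hv hr h3

private theorem xd27_near {r : ℝ} {v : Fin 4 → ℂ} (hr : ‖v‖ < r) :
    ∀ᶠ v' in 𝓝[Qd] v, v' ∈ Qd ∧ ‖v'‖ < r := by
  refine (eventually_mem_nhdsWithin).and ?_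
  exact mem_nhdsWithin_of_mem_nhds ((isOpen_lt continuous_norm continuous_const).mem_nhds hr)

private theorem xd27_open {X : Type} [TopologicalSpace X] {O : Shf X} {x : X}
    {σ : (Fin 4 → ℂ) → X} {r : ℝ} (hN : Node O x σ r) :
    IsOpen (σ '' {v | v ∈ Qd ∧ ‖v‖ < r}) := by
  rw [isOpen_iff_mem_nhds]
  rintro _ ⟨v, ⟨hv, hr⟩, rfl⟩
  rw [← hN.nhds v hv hr, mem_map]
  filter_upwards [xd27_near hr] with v' hv'
  exact ⟨v', hv', rfl⟩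

private theorem xd27_hol {X : Type} [TopologicalSpace X] {O : Shf X} {x : X}
    {σ : (Fin 4 → ℂ) → X} {r : ℝ} (hN : Node O x σ r) (k : Fin 4) {v : Fin 4 → ℂ}
    (hv : v ∈ Qd) (hr : ‖v‖ < r) : O (fun y => xd27_k σ r y k) (σ v) := by
  rw [hN.hol v hv hr]
  refine ⟨fun v' => v' k, (ContinuousLinearMap.proj (R := ℂ) (φ := fun _ : Fin 4 => ℂ)
    k).analyticAt v, ?_⟩
  filter_upwards [xd27_near hr] with v' hv'
  rw [xd27_k_eq hN hv'.1 hv'.2]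

theorem xd27 (hpar : SpParXd) (hnp : SpNodeP) (hfe : SpFext) (hpu : SpPull) (hne : SpNodeExt)
    (hco : SpCoord) : SpCanN := by
  intro X _ _ O x σ r hloc hN
  have h0Q : (0 : Fin 4 → ℂ) ∈ Qd := by simp [Qd]
  have h0r : ‖(0 : Fin 4 → ℂ)‖ < r := by rw [norm_zero]; exact hN.r_pos
  have hV : IsOpen (σ '' {v | v ∈ Qd ∧ ‖v‖ < r}) := xd27_open hN
  have hxV : x ∈ σ '' {v | v ∈ Qd ∧ ‖v‖ < r} := ⟨0, ⟨h0Q, h0r⟩, hN.base⟩
  have hxW : x ∉ σ '' {v | v ∈ Qd ∧ ‖v‖ < r ∧ v ≠ 0} := by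
    rintro ⟨v, ⟨hv, hr, h0⟩, hx⟩
    exact h0 (hN.inj v hv hr 0 h0Q h0r (hx.trans hN.base.symm))
  have hsub : σ '' {v | v ∈ Qd ∧ ‖v‖ < r} ⊆ insert x (σ '' {v | v ∈ Qd ∧ ‖v‖ < r ∧ v ≠ 0}) := by
    rintro _ ⟨v, ⟨hv, hr⟩, rfl⟩
    by_cases h0 : v = 0
    · left
      rw [h0, hN.base]
    · right
      exact ⟨v, ⟨hv, hr, h0⟩, rfl⟩
  obtain ⟨θ, hθ, hform⟩ := hnp X O x σ r hloc hN
  obtain ⟨θ', hθ', hval⟩ := hfe X O 1 _ _ x hloc hV hxW hxV hsub θ hθ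
  refine ⟨1, _, le_refl 1, hV, hxV, θ', hθ', ?_⟩
  intro B φ hB hφ hcl
  obtain ⟨hR, h0, hh0, hfin⟩ := hpu X O 1 _ θ' B φ hloc hV hB hφ hcl
  refine hfin ?_
  intro b0 hb0 hreg
  obtain ⟨hpar1, -, hpar3, -, -⟩ := hpar X O x σ r hN
  have hx0 : φ b0 = x := by
    obtain ⟨⟨v, ⟨hv, hr⟩, hvb⟩, -⟩ := hφ b0 hb0
    by_contra hne0
    have hv0 : v ≠ 0 := by
      rintro rfl
      exact hne0 (hvb.symm.trans hN.base)
    obtain ⟨i, hi⟩ := Function.ne_iff.1 hv0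
    obtain ⟨hD, hpp⟩ := hpar3 v hv hr i hi
    obtain ⟨-, ⟨c, hc, -⟩, -, -⟩ := hco X O _ _ (hpar1 i) _ hD
    apply hreg
    refine ⟨c, ?_⟩
    rw [← hvb]
    rw [Function.comp_apply, hpp] at hc
    exact hc
  have hk : ∀ u ∈ B, xd27_k σ r (φ u) ∈ Qd ∧ ‖xd27_k σ r (φ u)‖ < r ∧
      σ (xd27_k σ r (φ u)) = φ u ∧ AnalyticAt ℂ (fun u => xd27_k σ r (φ u)) u := by
    intro u hu
    obtain ⟨⟨v, ⟨hv, hr⟩, hvb⟩, hhol⟩ := hφ u hu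
    have h1 : xd27_k σ r (φ u) = v := by
      rw [← hvb]
      exact xd27_k_eq hN hv hr
    refine ⟨by rw [h1]; exact hv, by rw [h1]; exact hr, by rw [h1]; exact hvb, ?_⟩
    rw [analyticAt_pi_iff]
    intro k
    refine hhol.2 (fun y => xd27_k σ r y k) ?_
    rw [← hvb]
    exact xd27_hol hN k hv hr
  have hBn : ∀ u ∈ B, ∀ᶠ u' in 𝓝 u, u' ∈ B := fun u hu => hB.mem_nhds hu
  have hmain := hne b0 (fun u => xd27_k σ r (φ u)) h0 {b | b ∈ B ∧ IsReg O 3 (φ b)} hR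
    ((hBn b0 hb0).mono fun v hv => hcl hv) (hk b0 hb0).2.2.2 (Eventually.of_forall ?_)
  · obtain ⟨h1, hh1, he⟩ := hmain
    refine ⟨h1, hh1, ?_⟩
    filter_upwards [he] with b hb hbB hbR
    exact hb ⟨hbB, hbR⟩
  · rintro v ⟨hvB, hvR⟩
    obtain ⟨hk1, hk2, hk3, hk4⟩ := hk v hvB
    have hne1 : xd27_k σ r (φ v) ≠ 0 := by
      intro h
      rw [h, hN.base] at hk3
      rw [← hk3, ← hx0] at hvR
      exact hreg hvR
    refine ⟨hne1, (hh0 v hvB hvR).1, ?_⟩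
    intro i
    obtain ⟨c, hc⟩ := hvR
    have e1 := (hh0 v hvB ⟨c, hc⟩).2 c hc
    have e2 := hval c (φ v) ⟨_, ⟨hk1, hk2, hne1⟩, hk3⟩ (hφ v hvB).1
    have e3 := hform φ v c (fun u => xd27_k σ r (φ u)) hk4 hk2 hne1
      ((hBn v hvB).mono fun u hu => ⟨(hk u hu).1, (hk u hu).2.2.1⟩) hc i
    rw [e1, e2, pow_one]
    exact e3

end Pool.Agent.KO
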