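import Pool.Agent.KO.Xb.St

/-!
# Project KO, row Xd-D28: the numerical conditions of the five types (helper38)
-/

set_option autoImplicit false

namespace Pool.Agent.KO

open Set Filter Topology

theorem xd28_one {ζ : ℂ} {b : ℕ} {m u v : ℤ} (hb0 : b ≠ 0) (hb : ζ ^ b = 1) (hm : ζ ^ m = 1)
    (h : (b : ℤ) * u + m * v = 1) : ζ = 1 := by
  have h0 : ζ ≠ 0 := by
    rintro rfl
    rw [zero_pow hb0] at hb
    exact zero_ne_one hb
  have hb' : ζ ^ (b : ℤ) = 1 := by rw [zpow_natCast]; exact hb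
  have h1 : ζ ^ ((b : ℤ) * u + m * v) = 1 := by
    rw [zpow_add₀ h0, zpow_mul, zpow_mul, hb', hm, one_zpow, one_zpow, one_mul]
  rw [h, zpow_one] at h1
  exact h1

theorem xd28_age2 : AgeCond 2 1 1 := ⟨by norm_num, fun n0 n1 n2 h1 h2 => by omega⟩

theorem xd28_age3 : AgeCond 3 1 1 := ⟨by norm_num, fun n0 n1 n2 h1 h2 => by omega⟩

theorem xd28_age {b e1 e2 : ℕ} (hb : 1 ≤ b) (he : e1 + e2 = b) (hc : Nat.Coprime b e1) :
    AgeCond b e1 e2 := by
  refine ⟨hb, fun n0 n1 n2 h1 h2 => ?_⟩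
  have h3 : b ∣ n1 + n2 + b * n0 := by
    have h4 := dvd_add h1 h2
    have h5 : n1 + e1 * n0 + (n2 + e2 * n0) = n1 + n2 + b * n0 := by rw [← he]; ring
    rwa [h5] at h4
  have h6 : b ∣ n1 + n2 := (Nat.dvd_add_left (dvd_mul_right b n0)).1 h3
  rcases Nat.eq_zero_or_pos (n1 + n2) with h | h
  · left
    have hn1 : n1 = 0 := by omega
    rw [hn1, zero_add] at h1
    exact hc.dvd_of_dvd_mul_left h1
  · right
    have := Nat.le_of_dvd h h6
    omega

theorem xd28_age5 : AgeCond 5 3 2 := xd28_age (by norm_num) (by norm_num) (by norm_num)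

theorem xd28_age11 : AgeCond 11 6 5 := xd28_age (by norm_num) (by norm_num) (by norm_num)

theorem xd28 : SpNum := by
  intro b β h
  rcases h with ⟨rfl, rfl⟩ | ⟨rfl, rfl⟩ | ⟨rfl, rfl⟩ | ⟨rfl, rfl⟩ | ⟨rfl, rfl⟩
  · refine ⟨rfl, fun ζ hζ k _ => ?_, 0, 0, ⟨le_refl 1, fun n0 n1 n2 _ _ => Or.inl (one_dvd _)⟩,
      one_dvd _, one_dvd _⟩
    rw [pow_one] at hζ
    exact hζ
  · refine ⟨rfl, fun ζ hζ k hk => ?_, 1, 1, xd28_age2, ?_, ?_⟩
    · fin_cases k
      · exact xd28_one (m := -1) (u := 1) (v := 1) two_ne_zero hζ hk (by norm_num)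
      · exact xd28_one (m := -3) (u := -1) (v := -1) two_ne_zero hζ hk (by norm_num)
      · exact xd28_one (m := 1) (u := 0) (v := 1) two_ne_zero hζ hk (by norm_num)
    · show (2 : ℤ) ∣ -3 + (1 : ℕ) * -1
      norm_num
    · show (2 : ℤ) ∣ 1 + (1 : ℕ) * -1
      norm_num
  · refine ⟨rfl, fun ζ hζ k hk => ?_, 1, 1, xd28_age3, ?_, ?_⟩
    · fin_cases k
      · exact xd28_one (m := -1) (u := 0) (v := -1) three_ne_zero hζ hk (by norm_num)
      · exact xd28_one (m := -2) (u := 1) (v := 1) three_ne_zero hζ hk (by norm_num)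
      · exact xd28_one (m := 1) (u := 0) (v := 1) three_ne_zero hζ hk (by norm_num)
    · show (3 : ℤ) ∣ -2 + (1 : ℕ) * -1
      norm_num
    · show (3 : ℤ) ∣ 1 + (1 : ℕ) * -1
      norm_num
  · refine ⟨rfl, fun ζ hζ k hk => ?_, 3, 2, xd28_age5, ?_, ?_⟩
    · fin_cases k
      · exact xd28_one (m := 1) (u := 0) (v := 1) (by norm_num) hζ hk (by norm_num)
      · exact xd28_one (m := 22) (u := -13) (v := 3) (by norm_num) hζ hk (by norm_num)
      · exact xd28_one (m := 33) (u := -13) (v := 2) (by norm_num) hζ hk (by norm_num)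
    · show (5 : ℤ) ∣ 22 + (3 : ℕ) * 1
      norm_num
    · show (5 : ℤ) ∣ 33 + (2 : ℕ) * 1
      norm_num
  · refine ⟨rfl, fun ζ hζ k hk => ?_, 6, 5, xd28_age11, ?_, ?_⟩
    · fin_cases k
      · exact xd28_one (m := 1) (u := 0) (v := 1) (by norm_num) hζ hk (by norm_num)
      · exact xd28_one (m := 5) (u := 1) (v := -2) (by norm_num) hζ hk (by norm_num)
      · exact xd28_one (m := 6) (u := -1) (v := 2) (by norm_num) hζ hk (by norm_num)
    · show (11 : ℤ) ∣ 5 + (6 : ℕ) * 1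
      norm_num
    · show (11 : ℤ) ∣ 6 + (5 : ℕ) * 1
      norm_num

end Pool.Agent.KO
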