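import Pool.Agent.KO.Xb.St

/-!
# Block Xd, row D3: local structure at the points of the cone with `t = 0` (helper74)
-/

set_option autoImplicit false

namespace Pool.Agent.KO

open Set Filter Topology

theorem xd3_cover (i j : Fin 6) (κ : Fin 3 → Fin 6) (hi : i ≠ 5) (hj : j ≠ 5) (hji : j ≠ i)
    (hκ : Function.Injective κ) (h : ∀ k, κ k ≠ i ∧ κ k ≠ j ∧ κ k ≠ 5) (l : Fin 6)
    (hl : l ≠ j) : l = i ∨ l = 5 ∨ ∃ k, l = κ k := by
  have hc : ({i, j, 5, κ 0, κ 1, κ 2} : Finset (Fin 6)) = Finset.univ := by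
    apply Finset.eq_univ_of_card
    have h01 : κ 0 ≠ κ 1 := fun h => absurd (hκ h) (by decide)
    have h02 : κ 0 ≠ κ 2 := fun h => absurd (hκ h) (by decide)
    have h12 : κ 1 ≠ κ 2 := fun h => absurd (hκ h) (by decide)
    rw [Finset.card_insert_of_notMem, Finset.card_insert_of_notMem,
      Finset.card_insert_of_notMem, Finset.card_insert_of_notMem,
      Finset.card_insert_of_notMem, Finset.card_singleton, Fintype.card_fin]
    · simpa using h12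
    · simpa using ⟨h01, h02⟩
    · simpa using ⟨(h 0).2.2.symm, (h 1).2.2.symm, (h 2).2.2.symm⟩
    · simpa using ⟨hj, (h 0).2.1.symm, (h 1).2.1.symm, (h 2).2.1.symm⟩
    · simpa using ⟨hji.symm, hi, (h 0).1.symm, (h 1).1.symm, (h 2).1.symm⟩
  have hm : l ∈ ({i, j, 5, κ 0, κ 1, κ 2} : Finset (Fin 6)) := by
    rw [hc]
    exact Finset.mem_univ l
  simp only [Finset.mem_insert, Finset.mem_singleton] at hm
  rcases hm with hm | hm | hm | hm | hm | hm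
  · exact Or.inl hm
  · exact absurd hm hl
  · exact Or.inr (Or.inl hm)
  · exact Or.inr (Or.inr ⟨0, hm⟩)
  · exact Or.inr (Or.inr ⟨1, hm⟩)
  · exact Or.inr (Or.inr ⟨2, hm⟩)

theorem xd3_proj (i : Fin 6) (p : Fin 6 → ℂ) : AnalyticAt ℂ (fun p' : Fin 6 → ℂ => p' i) p :=
  (ContinuousLinearMap.proj (R := ℂ) (φ := fun _ : Fin 6 => ℂ) i).analyticAt p

theorem xd3_G (p : Fin 6 → ℂ) : AnalyticAt ℂ G p := by
  have h0 := xd3_proj 0 p
  have h1 := xd3_proj 1 p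
  have h2 := xd3_proj 2 p
  have h3 := xd3_proj 3 p
  have h4 := xd3_proj 4 p
  have h5 := xd3_proj 5 p
  unfold G
  exact ((((((h4.pow 2).add (h3.pow 3)).add (h5.mul (h2.pow 11))).add
    ((h1.mul h0).mul (h2.pow 10))).add ((h1.pow 12).mul h2)).sub (h0.pow 66)).sub
    ((h0.pow 12).mul (h2.pow 9))

theorem xd3_wgt (i : Fin 6) (hi : i ≠ 5) : ((wgt i : ℕ) : ℤ) ≠ 0 := by
  fin_cases i
  · decide
  · decide
  · decide
  · decide
  · decide
  · exact absurd rfl hi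

/-- The local coordinates. -/
def xd3_chi (p : Fin 6 → ℂ) (κ : Fin 3 → Fin 6) (p' : Fin 6 → ℂ) : Fin 4 → ℂ :=
  ![p' (κ 0) - p (κ 0), p' (κ 1) - p (κ 1), p' (κ 2) - p (κ 2), p' 5]

theorem xd3_chi_deriv (p : Fin 6 → ℂ) (κ : Fin 3 → Fin 6) (w : Fin 6 → ℂ) :
    fderiv ℂ (xd3_chi p κ) p w = ![w (κ 0), w (κ 1), w (κ 2), w 5] := by
  have hpr : ∀ i : Fin 6, HasFDerivAt (fun p' : Fin 6 → ℂ => p' i)
      (ContinuousLinearMap.proj (R := ℂ) (φ := fun _ : Fin 6 => ℂ) i) p := fun i =>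
    (ContinuousLinearMap.proj (R := ℂ) (φ := fun _ : Fin 6 => ℂ) i).hasFDerivAt
  have h : HasFDerivAt (xd3_chi p κ) (ContinuousLinearMap.pi
      ![ContinuousLinearMap.proj (R := ℂ) (φ := fun _ : Fin 6 => ℂ) (κ 0),
        ContinuousLinearMap.proj (R := ℂ) (φ := fun _ : Fin 6 => ℂ) (κ 1),
        ContinuousLinearMap.proj (R := ℂ) (φ := fun _ : Fin 6 => ℂ) (κ 2),
        ContinuousLinearMap.proj (R := ℂ) (φ := fun _ : Fin 6 => ℂ) 5]) p := by
    rw [hasFDerivAt_pi']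
    intro l
    fin_cases l
    · exact (hpr (κ 0)).sub_const _
    · exact (hpr (κ 1)).sub_const _
    · exact (hpr (κ 2)).sub_const _
    · exact hpr 5
  rw [h.fderiv]
  funext l
  fin_cases l <;> rfl

theorem xd3_chi_an (p : Fin 6 → ℂ) (κ : Fin 3 → Fin 6) : AnalyticAt ℂ (xd3_chi p κ) p := by
  refine analyticAt_pi_iff.2 fun l => ?_
  fin_cases l
  · exact (xd3_proj (κ 0) p).sub analyticAt_const
  · exact (xd3_proj (κ 1) p).sub analyticAt_const
  · exact (xd3_proj (κ 2) p).sub analyticAt_const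
  · exact xd3_proj 5 p

theorem xd3_g (F : Flip) {p : Fin 6 → ℂ} (hp : p ∈ MS1) : F.g (F.p1 p) = p 5 := by
  have h : F.p1 p = F.pi1 ⟨p, hp⟩ := dif_pos hp
  rw [h]
  rfl

theorem xd3 (F : Flip) (hpr : SpPres1 F) (hsl : SpSlice) (hift : SpIft) : SpLq10 F := by
  intro p hp hp5 i j hi hj hji hpi hG b hb hst κ hκ hk
  have hχ0 : xd3_chi p κ p = 0 := by
    funext l
    fin_cases l
    · exact sub_self _
    · exact sub_self _
    · exact sub_self _
    · exact hp5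
  have hK : AnalyticAt ℂ (fun p' : Fin 6 → ℂ => fun _ : Fin 1 => G p') p :=
    analyticAt_pi_iff.2 fun _ => xd3_G p
  have hK0 : (fun p' : Fin 6 → ℂ => fun _ : Fin 1 => G p') p = 0 := by
    funext _
    exact hp.1.1
  have hinj : ∀ w : Fin 6 → ℂ, w i = 0 →
      fderiv ℂ (fun p' : Fin 6 → ℂ => fun _ : Fin 1 => G p') p w = 0 →
      fderiv ℂ (xd3_chi p κ) p w = 0 → w = 0 := by
    intro w hwi hw1 hw2
    rw [xd3_chi_deriv] at hw2
    have e0 : w (κ 0) = 0 := congrFun hw2 0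
    have e1 : w (κ 1) = 0 := congrFun hw2 1
    have e2 : w (κ 2) = 0 := congrFun hw2 2
    have e3 : w 5 = 0 := congrFun hw2 3
    have hw : w = w j • Pi.single j (1 : ℂ) := by
      funext l
      by_cases hl : l = j
      · subst hl
        simp
      · rw [Pi.smul_apply, Pi.single_eq_of_ne hl, smul_zero]
        rcases xd3_cover i j κ hi hj hji hκ hk l hl with rfl | rfl | ⟨k, rfl⟩
        · exact hwi
        · exact e3
        · fin_cases k
          · exact e0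
          · exact e1
          · exact e2
    have hd : fderiv ℂ G p w = 0 := by
      have h1 : HasFDerivAt (fun p' : Fin 6 → ℂ => fun _ : Fin 1 => G p')
          (ContinuousLinearMap.pi fun _ : Fin 1 => fderiv ℂ G p) p :=
        hasFDerivAt_pi.2 fun _ => (xd3_G p).differentiableAt.hasFDerivAt
      rw [h1.fderiv] at hw1
      exact congrFun hw1 0
    rw [hw, map_smul, smul_eq_mul] at hd
    rw [hw, (mul_eq_zero.1 hd).resolve_right hG, zero_smul]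
  obtain ⟨ψ, hψ, hψ0, hψ1, hψ2⟩ := hift 6 4 1 rfl i p _ (xd3_chi p κ) hK hK0
    (xd3_chi_an p κ) hχ0 hinj
  have hopen : ∀ᶠ v in 𝓝 (0 : Fin 4 → ℂ), ‖ψ v 5‖ < 1 ∧ ψ v ∉ Gam := by
    have hc : Tendsto ψ (𝓝 0) (𝓝 p) := by
      have := hψ.continuousAt.tendsto
      rwa [hψ0] at this
    have h1 : ∀ᶠ p' in 𝓝 p, ‖p' 5‖ < 1 := by
      have hop : IsOpen {p' : Fin 6 → ℂ | ‖p' 5‖ < 1} :=
        isOpen_lt (by fun_prop) continuous_const
      exact hop.mem_nhds hp.1.2.2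
    have h2 : ∀ᶠ p' in 𝓝 p, p' ∉ Gam := isClosed_Gam.isOpen_compl.mem_nhds hp.2
    exact hc.eventually (h1.and h2)
  have hM : ∀ᶠ v in 𝓝 (0 : Fin 4 → ℂ), ψ v ∈ MS1 ∧ ψ v i = p i ∧ xd3_chi p κ (ψ v) = v := by
    filter_upwards [hψ1, hopen] with v hv hv'
    refine ⟨⟨⟨congrFun hv.1 0, ⟨i, hi, ?_⟩, hv'.1⟩, hv'.2⟩, hv.2⟩
    rw [hv.2.1]
    exact hpi
  have hM' : ∀ᶠ p' in 𝓝 p, p' ∈ MS1 → p' i = p i → ψ (xd3_chi p κ p') = p' := by
    filter_upwards [hψ2] with p' h h1 h2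
    exact h (by funext _; exact h1.1.1) h2
  have heq : ∀ ζ : ℂ, ζ ^ b = 1 → ∀ᶠ p' in 𝓝 p,
      xd3_chi p κ (dact (fun i => (wgt i : ℤ)) ζ p') =
        dact ![(wgt (κ 0) : ℤ), wgt (κ 1), wgt (κ 2), 0] ζ (xd3_chi p κ p') := by
    intro ζ hζ
    have hζ0 : ζ ≠ 0 := by
      rintro rfl
      rw [zero_pow (by omega)] at hζ
      exact zero_ne_one hζ
    have hfix := (hst ζ hζ0).2 hζ
    refine Filter.Eventually.of_forall fun p' => ?_
    have hc : ∀ l : Fin 6, ζ ^ (wgt l : ℤ) * p' l - p l = ζ ^ (wgt l : ℤ) * (p' l - p l) := by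
      intro l
      have h1 : ζ ^ (wgt l : ℤ) * p l = p l := congrFun hfix l
      rw [mul_sub, h1]
    funext l
    fin_cases l
    · exact hc (κ 0)
    · exact hc (κ 1)
    · exact hc (κ 2)
    · rfl
  obtain ⟨r, hr, hr'⟩ := hsl F.Sp F.O 6 _ MS1 F.p1 hpr 4 b
    ![(wgt (κ 0) : ℤ), wgt (κ 1), wgt (κ 2), 0] i p hb hp hpi (xd3_wgt i hi) hst
    (xd3_chi p κ) ψ (xd3_chi_an p κ) hχ0 hψ hψ0 hM hM' heq
  refine ⟨F.p1 ∘ ψ, r, hr, fun v hv => ?_⟩
  obtain ⟨h1, h2⟩ := hr' v hv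
  rw [Function.comp_apply, xd3_g F h1]
  exact congrFun h2 3

end Pool.Agent.KO
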