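import Pool.Agent.KO.Xb.St

/-!
# Row D4: local structure of `X` at the points of `Π` where `dT ≠ 0`
-/

set_option autoImplicit false

namespace Pool.Agent.KO

open Set Filter Topology

theorem xd4_open (F : Flip) : IsOpen (MS2 F) := by
  have h : MS2 F = Dom F.ρ ∩ ({q | q 0 ≠ 0} ∪ ({q | q 1 ≠ 0} ∪ {q | q 2 ≠ 0})) := by
    ext q
    rfl
  rw [h]
  have hj : ∀ j : Fin 5, IsOpen {q : Fin 5 → ℂ | q j ≠ 0} := fun j =>
    isOpen_ne_fun (continuous_apply j) continuous_const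
  exact (isOpen_Dom F.ρ).inter ((hj 0).union ((hj 1).union (hj 2)))

theorem xd4_surj {i j : Fin 5} (hij : i ≠ j) {κ : Fin 3 → Fin 5} (hκ : Function.Injective κ)
    (h : ∀ k, κ k ≠ i ∧ κ k ≠ j) (l : Fin 5) (hi : l ≠ i) (hj : l ≠ j) : ∃ k, κ k = l := by
  have h1 : Finset.univ.image κ ⊆ (Finset.univ.erase i).erase j := by
    intro x hx
    obtain ⟨k, -, rfl⟩ := Finset.mem_image.1 hx
    exact Finset.mem_erase.2 ⟨(h k).2, Finset.mem_erase.2 ⟨(h k).1, Finset.mem_univ _⟩⟩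
  have h2 : Finset.univ.image κ = (Finset.univ.erase i).erase j := by
    refine Finset.eq_of_subset_of_card_le h1 ?_
    rw [Finset.card_image_of_injective _ hκ, Finset.card_erase_of_mem
      (Finset.mem_erase.2 ⟨hij.symm, Finset.mem_univ _⟩),
      Finset.card_erase_of_mem (Finset.mem_univ _)]
    simp
  have h3 : l ∈ Finset.univ.image κ := by
    rw [h2]
    exact Finset.mem_erase.2 ⟨hj, Finset.mem_erase.2 ⟨hi, Finset.mem_univ _⟩⟩
  obtain ⟨k, -, hk⟩ := Finset.mem_image.1 h3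
  exact ⟨k, hk⟩

theorem xd4_proj (l : Fin 5) (q : Fin 5 → ℂ) : HasFDerivAt (fun q' : Fin 5 → ℂ => q' l)
    (ContinuousLinearMap.proj (R := ℂ) (φ := fun _ : Fin 5 => ℂ) l) q :=
  (ContinuousLinearMap.proj (R := ℂ) (φ := fun _ : Fin 5 => ℂ) l).hasFDerivAt

/-- The coordinates of the slice. -/
noncomputable def xd4_chi (F : Flip) (q : Fin 5 → ℂ) (κ : Fin 3 → Fin 5) (q' : Fin 5 → ℂ) :
    Fin 4 → ℂ :=
  ![q' (κ 0) - q (κ 0), q' (κ 1) - q (κ 1), q' (κ 2) - q (κ 2), F.Φ q' 5]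

theorem xd4_chi_an (F : Flip) (q : Fin 5 → ℂ) (hq : q ∈ Dom F.ρ) (κ : Fin 3 → Fin 5) :
    AnalyticAt ℂ (xd4_chi F q κ) q := by
  refine analyticAt_pi_iff.2 fun k => ?_
  have h : ∀ l : Fin 5, AnalyticAt ℂ (fun q' : Fin 5 → ℂ => q' l - q l) q := fun l =>
    ((ContinuousLinearMap.proj (R := ℂ) (φ := fun _ : Fin 5 => ℂ) l).analyticAt q).sub
      analyticAt_const
  fin_cases k
  · exact h _
  · exact h _
  · exact h _
  · exact F.an 5 q hq

theorem xd4_chi_der (F : Flip) (q : Fin 5 → ℂ) (hq : q ∈ Dom F.ρ) (h3 : q 3 = 0) (h4 : q 4 = 0)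
    (κ : Fin 3 → Fin 5) (w : Fin 5 → ℂ) (hw : fderiv ℂ (xd4_chi F q κ) q w = 0) :
    (∀ k, w (κ k) = 0) ∧ q 0 * w 3 + (q 1 ^ 3 / 27 - q 2 ^ 2 / 4) * w 4 = 0 := by
  have hd := (xd4_chi_an F q hq κ).differentiableAt
  have hk : ∀ k : Fin 4, fderiv ℂ (fun q' => xd4_chi F q κ q' k) q w = 0 := by
    intro k
    rw [fderiv_apply hd k]
    rw [ContinuousLinearMap.comp_apply, hw]
    simp
  have hc : ∀ l : Fin 5, fderiv ℂ (fun q' : Fin 5 → ℂ => q' l - q l) q w = w l := by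
    intro l
    rw [((xd4_proj l q).sub_const (q l)).fderiv]
    rfl
  refine ⟨?_, ?_⟩
  · intro k
    fin_cases k
    · exact (hc (κ 0)).symm.trans (hk 0)
    · exact (hc (κ 1)).symm.trans (hk 1)
    · exact (hc (κ 2)).symm.trans (hk 2)
  · have h := hk 3
    have h' : fderiv ℂ (fun q' => F.Φ q' 5) q w = 0 := h
    rw [(F.dT q h3 h4).fderiv] at h'
    simpa using h'

theorem xd4 (F : Flip) (hpr : SpPres2 F) (hsl : SpSlice) (hift : SpIft) : SpLq20 F := by
  intro q hq h3 h4 i j hi hqi hj b hb1 hb κ hκ hκn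
  have hw : wgt' i ≠ 0 := by
    rcases hi with rfl | rfl | rfl <;> decide
  have hij : i ≠ j := by
    rcases hi with rfl | rfl | rfl <;> rcases hj with ⟨rfl, -⟩ | ⟨rfl, -⟩ <;> decide
  have hi3 : i ≠ 3 := by rcases hi with rfl | rfl | rfl <;> decide
  have hi4 : i ≠ 4 := by rcases hi with rfl | rfl | rfl <;> decide
  have hχ0 : xd4_chi F q κ q = 0 := by
    have h5 : F.Φ q 5 = 0 := by
      rw [(F.Φ0 q hq.1 h3).2.2.2, h4]
      ring
    funext k
    fin_cases k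
    · exact sub_self _
    · exact sub_self _
    · exact sub_self _
    · exact h5
  obtain ⟨ψ, hψan, hψ0, hψ1, hψ2⟩ := hift 5 4 0 rfl i q (fun _ => 0) (xd4_chi F q κ)
    analyticAt_const rfl (xd4_chi_an F q hq.1 κ) hχ0 (by
      intro w hwi _ hwχ
      obtain ⟨hwκ, hwT⟩ := xd4_chi_der F q hq.1 h3 h4 κ w hwχ
      have hwl : ∀ l, l ≠ j → w l = 0 := by
        intro l hl
        by_cases hli : l = i
        · rw [hli]
          exact hwi
        · obtain ⟨k, rfl⟩ := xd4_surj hij hκ hκn l hli hl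
          exact hwκ k
      have hwj : w j = 0 := by
        rcases hj with ⟨rfl, hc⟩ | ⟨rfl, hc⟩
        · rw [hwl 4 (by decide), mul_zero, add_zero] at hwT
          exact (mul_eq_zero.1 hwT).resolve_left hc
        · rw [hwl 3 (by decide), mul_zero, zero_add] at hwT
          exact (mul_eq_zero.1 hwT).resolve_left hc
      funext l
      by_cases hl : l = j
      · rw [hl]
        exact hwj
      · exact hwl l hl)
  obtain ⟨r, hr, hrv⟩ := hsl F.Sp F.O 5 wgt' (MS2 F) F.p2 hpr 4 b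
    ![wgt' (κ 0), wgt' (κ 1), wgt' (κ 2), 0] i q hb1 hq hqi hw hb (xd4_chi F q κ) ψ
    (xd4_chi_an F q hq.1 κ) hχ0 hψan hψ0 (by
      have hm : MS2 F ∈ 𝓝 (ψ 0) := by
        rw [hψ0]
        exact (xd4_open F).mem_nhds hq
      filter_upwards [hψan.continuousAt hm, hψ1] with v hv hv'
      exact ⟨hv, hv'.2⟩) (by
      filter_upwards [hψ2] with p' hp' _ hp''
      exact hp' rfl hp'') (by
      intro ζ hζ
      have hζ0 : ζ ≠ 0 := by
        rintro rfl
        rw [zero_pow (by omega)] at hζ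
        exact zero_ne_one hζ
      have hfix := (hb ζ hζ0).2 hζ
      filter_upwards [(xd4_open F).mem_nhds hq] with p' hp'
      have hk : ∀ l : Fin 5, ζ ^ wgt' l * p' l - q l = ζ ^ wgt' l * (p' l - q l) := by
        intro l
        have h : ζ ^ wgt' l * q l = q l := congrFun hfix l
        rw [mul_sub, h]
      have hT : F.Φ (dact wgt' ζ p') 5 = ζ ^ (0 : ℤ) * F.Φ p' 5 := by
        have h : F.Φ (dact wgt' ζ p') = act ζ (F.Φ p') := F.Φact ζ hζ0 p' hp'.1
        rw [h, Flip.act_five, zpow_zero, one_mul]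
      funext k
      fin_cases k
      · exact hk (κ 0)
      · exact hk (κ 1)
      · exact hk (κ 2)
      · exact hT)
  refine ⟨_, r, hr, fun v hv => ?_⟩
  obtain ⟨hv1, hv2⟩ := hrv v hv
  have h5 : F.p2 (ψ v) = F.pi2 ⟨ψ v, hv1⟩ := by
    unfold Flip.p2
    exact dif_pos hv1
  show F.g (F.p2 (ψ v)) = v 3
  rw [h5]
  exact congrFun hv2 3

end Pool.Agent.KO
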