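import Pool.Agent.KO.Xd.D7
import Pool.Agent.KO.F.Size

/-!
# Block Xd, row D5a: `T = z α + w β` at the node
-/

set_option autoImplicit false

namespace Pool.Agent.KO

open Set Filter Topology

/-- The function `β` of row D5a. -/
noncomputable def xd5a_b (v : Fin 5 → ℂ) : ℂ := v 1 ^ 3 / 27 - v 2 ^ 2 / 4 - v 0 ^ 12 * v 4

/-- The derivative of `xd5a_b`. -/
noncomputable def xd5a_b' (v : Fin 5 → ℂ) : (Fin 5 → ℂ) →L[ℂ] ℂ :=
  (v 1 ^ 2 / 9) • ContinuousLinearMap.proj (R := ℂ) (φ := fun _ : Fin 5 => ℂ) 1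
    - (v 2 / 2) • ContinuousLinearMap.proj (R := ℂ) (φ := fun _ : Fin 5 => ℂ) 2
    - ((12 * v 0 ^ 11 * v 4) • ContinuousLinearMap.proj (R := ℂ) (φ := fun _ : Fin 5 => ℂ) 0
      + (v 0 ^ 12) • ContinuousLinearMap.proj (R := ℂ) (φ := fun _ : Fin 5 => ℂ) 4)

theorem xd5a_proj (i : Fin 5) (q : Fin 5 → ℂ) : HasFDerivAt (fun v : Fin 5 → ℂ => v i)
    (ContinuousLinearMap.proj (R := ℂ) (φ := fun _ : Fin 5 => ℂ) i) q :=
  (ContinuousLinearMap.proj (R := ℂ) (φ := fun _ : Fin 5 => ℂ) i).hasFDerivAt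

theorem xd5a_an (i : Fin 5) (q : Fin 5 → ℂ) : AnalyticAt ℂ (fun v : Fin 5 → ℂ => v i) q :=
  (ContinuousLinearMap.proj (R := ℂ) (φ := fun _ : Fin 5 => ℂ) i).analyticAt q

theorem xd5a_b_an (q : Fin 5 → ℂ) : AnalyticAt ℂ xd5a_b q := by
  unfold xd5a_b
  have h0 := xd5a_an 0 q
  have h1 := xd5a_an 1 q
  have h2 := xd5a_an 2 q
  have h4 := xd5a_an 4 q
  exact (((h1.pow 3).div_const).sub ((h2.pow 2).div_const)).sub ((h0.pow 12).mul h4)

theorem xd5a_b_der (q : Fin 5 → ℂ) : HasFDerivAt xd5a_b (xd5a_b' q) q := by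
  have h0 := xd5a_proj 0 q
  have h1 := xd5a_proj 1 q
  have h2 := xd5a_proj 2 q
  have h4 := xd5a_proj 4 q
  have e : xd5a_b = fun v : Fin 5 → ℂ => (27 : ℂ)⁻¹ * v 1 ^ 3 - (4 : ℂ)⁻¹ * v 2 ^ 2
      - v 0 ^ 12 * v 4 := by
    funext v
    unfold xd5a_b
    ring
  rw [e]
  refine ((((h1.pow 3).const_mul (27 : ℂ)⁻¹).sub ((h2.pow 2).const_mul (4 : ℂ)⁻¹)).sub
    ((h0.pow 12).mul h4)).congr_fderiv ?_
  ext w
  simp [xd5a_b']
  ring

/-- D5a. -/
theorem xd5a (F : Flip) : SpHad F := by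
  intro q hq h3 h4 h0 hc
  have hD : Dom F.ρ ∈ 𝓝 q := (Size.isOpen_Dom F.ρ).mem_nhds hq.1
  let H : (Fin 5 → ℂ) → ℂ := fun v => F.Φ v 5 - v 4 * xd5a_b v
  have hH : AnalyticAt ℂ H q := (F.an 5 q hq.1).sub ((xd5a_an 4 q).mul (xd5a_b_an q))
  have hne : fderiv ℂ (fun v : Fin 5 → ℂ => v 3) q ≠ 0 := by
    rw [(xd5a_proj 3 q).fderiv]
    intro h
    have h' : (ContinuousLinearMap.proj (R := ℂ) (φ := fun _ : Fin 5 => ℂ) 3) (Pi.single 3 1) =
        (0 : (Fin 5 → ℂ) →L[ℂ] ℂ) (Pi.single 3 1) := by rw [h]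
    simp at h'
  have hz : ∀ᶠ v in 𝓝 q, v 3 = 0 → H v = 0 := by
    filter_upwards [hD] with v hv hv3
    change F.Φ v 5 - v 4 * xd5a_b v = 0
    rw [(F.Φ0 v hv hv3).2.2.2]
    unfold xd5a_b
    ring
  obtain ⟨K, hK, hKH⟩ := xd7 5 q (fun v => v 3) H (xd5a_an 3 q) hH hne hz
  have hk : ∀ᶠ v in 𝓝 q, v 3 = 0 → v 4 = 0 → K v = v 0 := by
    filter_upwards [hKH.eventually_nhds, hK.eventually_analyticAt] with v hv hKv e3 e4
    have d1 : HasFDerivAt H ((v 0 • ContinuousLinearMap.proj (R := ℂ) (φ := fun _ : Fin 5 => ℂ) 3 +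
        (v 1 ^ 3 / 27 - v 2 ^ 2 / 4) •
        ContinuousLinearMap.proj (R := ℂ) (φ := fun _ : Fin 5 => ℂ) 4)
        - (v 4 • xd5a_b' v + xd5a_b v •
          ContinuousLinearMap.proj (R := ℂ) (φ := fun _ : Fin 5 => ℂ) 4)) v :=
      (F.dT v e3 e4).sub ((xd5a_proj 4 v).mul (xd5a_b_der v))
    have d2 : HasFDerivAt H (v 3 • fderiv ℂ K v + K v •
        ContinuousLinearMap.proj (R := ℂ) (φ := fun _ : Fin 5 => ℂ) 3) v :=
      ((xd5a_proj 3 v).mul hKv.differentiableAt.hasFDerivAt).congr_of_eventuallyEq hv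
    have d3 := congrArg (fun L : (Fin 5 → ℂ) →L[ℂ] ℂ => L (Pi.single 3 1)) (d1.unique d2)
    simp [e3, e4] at d3
    exact d3.symm
  refine ⟨K, xd5a_b, hK, xd5a_b_an q, ?_, ?_, ?_, ?_⟩
  · rw [hk.self_of_nhds h3 h4, h0]
  · unfold xd5a_b
    rw [hc, h4]
    ring
  · filter_upwards [hKH] with v hv
    have e : F.Φ v 5 - v 4 * xd5a_b v = v 3 * K v := hv
    rw [← e]
    ring
  · intro w w1 w3 w4 hα hβ
    have hq2 : q 2 ≠ 0 := by
      intro h2
      have h1 : q 1 = 0 := by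
        have : q 1 ^ 3 = 0 := by
          rw [h2] at hc
          linear_combination 27 * hc
        exact pow_eq_zero_iff (by norm_num) |>.1 this
      rcases hq.2 with h | h | h
      · exact h h0
      · exact h h1
      · exact h h2
    have w0 : w 0 = 0 := by
      have c1 : HasDerivAt (fun s : ℂ => q + s • w) w 0 := by
        have := ((hasDerivAt_id (0 : ℂ)).smul_const w).const_add q
        simpa using this
      have c2 : HasDerivAt (fun s : ℂ => K (q + s • w)) (fderiv ℂ K q w) 0 := by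
        have h : HasFDerivAt K (fderiv ℂ K q) (q + (0 : ℂ) • w) := by
          rw [zero_smul, add_zero]
          exact hK.differentiableAt.hasFDerivAt
        exact h.comp_hasDerivAt (0 : ℂ) c1
      have c3 : HasDerivAt (fun s : ℂ => K (q + s • w)) (w 0) 0 := by
        have hcont : Tendsto (fun s : ℂ => q + s • w) (𝓝 0) (𝓝 q) := by
          have := c1.continuousAt.tendsto
          simpa using this
        have e : (fun s : ℂ => K (q + s • w)) =ᶠ[𝓝 0] fun s => s * w 0 := by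
          filter_upwards [hcont.eventually hk] with s hs
          rw [hs (by simp [h3, w3]) (by simp [h4, w4])]
          simp [h0]
        have h := (hasDerivAt_id (0 : ℂ)).mul_const (w 0)
        simp only [id, one_mul] at h
        exact h.congr_of_eventuallyEq e
      rw [← c3.unique c2] at hα
      exact hα
    have w2 : w 2 = 0 := by
      rw [(xd5a_b_der q).fderiv] at hβ
      simp [xd5a_b', w1, w4, w0] at hβ
      rcases hβ with h | h
      · exact absurd h hq2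
      · exact h
    funext i
    fin_cases i
    · exact w0
    · exact w1
    · exact w2
    · exact w3
    · exact w4

end Pool.Agent.KO
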