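import Pool.Agent.KO.Xb.St

/-!
# Block Xd, row D5b: local structure of `X` at the node
-/

set_option autoImplicit false

namespace Pool.Agent.KO

open Set Filter Topology

/-- Local quotient presentations restrict to smaller balls. -/
theorem xd5b_mono {X : Type} [TopologicalSpace X] {O : Shf X} {n b : ℕ} {β : Fin n → ℤ} {x : X}
    {σ : (Fin n → ℂ) → X} {r r' : ℝ} (h : LQ O n b β x σ r) (h0 : 0 < r') (hr : r' ≤ r) :
    LQ O n b β x σ r' where
  b_pos := h.b_pos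
  r_pos := h0
  base := h.base
  nhds := fun v hv => h.nhds v (Metric.ball_subset_ball hr hv)
  fib := fun v hv v' hv' => h.fib v (Metric.ball_subset_ball hr hv) v'
    (Metric.ball_subset_ball hr hv')
  hol := fun v hv => h.hol v (Metric.ball_subset_ball hr hv)

theorem xd5b_open (F : Flip) : IsOpen (MS2 F) := by
  have h1 : IsOpen (Dom F.ρ) := isOpen_lt (continuous_nA.mul continuous_nZ) continuous_const
  have h2 : ∀ i : Fin 5, IsOpen {q : Fin 5 → ℂ | q i ≠ 0} := fun i =>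
    isOpen_ne_fun (continuous_apply i) continuous_const
  exact h1.inter ((h2 0).union ((h2 1).union (h2 2)))

theorem xd5b_g (F : Flip) {q : Fin 5 → ℂ} (hq : q ∈ MS2 F) : F.g (F.p2 q) = F.Φ q 5 := by
  have h : q ∈ Dom F.ρ ∧ (q 0 ≠ 0 ∨ q 1 ≠ 0 ∨ q 2 ≠ 0) := hq
  unfold Flip.p2
  rw [dif_pos h]
  rfl

theorem xd5b_dact_one {m : ℕ} (wt : Fin m → ℤ) (p : Fin m → ℂ) : dact wt 1 p = p := by
  funext i
  simp [dact]

theorem xd5b_stab {q : Fin 5 → ℂ} (h1 : q 1 ≠ 0) (h2 : q 2 ≠ 0) (l : ℂ) :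
    dact wgt' l q = q ↔ l ^ 1 = 1 := by
  constructor
  · intro h
    have e1 : (l ^ 2)⁻¹ * q 1 = q 1 := congrFun h 1
    have e2 : (l ^ 3)⁻¹ * q 2 = q 2 := congrFun h 2
    have f1 : (l ^ 2)⁻¹ = 1 := mul_right_cancel₀ h1 (by rw [e1, one_mul])
    have f2 : (l ^ 3)⁻¹ = 1 := mul_right_cancel₀ h2 (by rw [e2, one_mul])
    rw [inv_eq_one] at f1 f2
    have : l ^ 3 = l ^ 2 * l := by ring
    rw [this, f1, one_mul] at f2
    rw [pow_one, f2]
  · intro h
    rw [pow_one] at h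
    rw [h, xd5b_dact_one]

/-- D5b. -/
theorem xd5b (F : Flip) (hpr : SpPres2 F) (hsl : SpSlice) (hift : SpIft) (hhad : SpHad F) :
    SpLqN F := by
  intro q hq h3 h4 h0 hd
  have h1 : q 1 ≠ 0 := by
    intro h
    rw [h] at hd
    have h2 : q 2 = 0 := by
      have : q 2 ^ 2 = 0 := by linear_combination -4 * hd
      exact pow_eq_zero_iff (two_ne_zero) |>.1 this
    rcases hq.2 with h' | h' | h'
    · exact h' h0
    · exact h' h
    · exact h' h2
  have h2 : q 2 ≠ 0 := by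
    intro h
    rw [h] at hd
    have : q 1 ^ 3 = 0 := by linear_combination 27 * hd
    exact h1 (pow_eq_zero_iff (three_ne_zero) |>.1 this)
  obtain ⟨α, β, hα, hβ, hα0, hβ0, hT, hinj⟩ := hhad q hq h3 h4 h0 hd
  set χ : (Fin 5 → ℂ) → Fin 4 → ℂ := fun q' => ![q' 3, q' 4, α q', β q'] with hχdef
  have pr : ∀ i : Fin 5, AnalyticAt ℂ (fun q' : Fin 5 → ℂ => q' i) q := fun i =>
    (ContinuousLinearMap.proj (R := ℂ) (φ := fun _ : Fin 5 => ℂ) i).analyticAt q
  have hχc : ∀ i : Fin 4, AnalyticAt ℂ (fun q' => χ q' i) q := by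
    intro i
    fin_cases i
    · exact pr 3
    · exact pr 4
    · exact hα
    · exact hβ
  have hχ : AnalyticAt ℂ χ q := analyticAt_pi_iff.2 hχc
  have hχ0 : χ q = 0 := by
    funext i
    fin_cases i
    · exact h3
    · exact h4
    · exact hα0
    · exact hβ0
  have hfd : ∀ w : Fin 5 → ℂ, fderiv ℂ χ q w = 0 → w 3 = 0 ∧ w 4 = 0 ∧ fderiv ℂ α q w = 0 ∧
      fderiv ℂ β q w = 0 := by
    intro w hw
    have key : ∀ i : Fin 4, fderiv ℂ (fun q' => χ q' i) q w = 0 := by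
      intro i
      have := congrFun hw i
      rw [fderiv_pi (fun i => (hχc i).differentiableAt)] at this
      exact this
    have pd : ∀ i : Fin 5, fderiv ℂ (fun q' : Fin 5 → ℂ => q' i) q w = w i := by
      intro i
      have := (ContinuousLinearMap.proj (R := ℂ) (φ := fun _ : Fin 5 => ℂ) i).hasFDerivAt (x := q)
      have e : fderiv ℂ (fun q' : Fin 5 → ℂ => q' i) q
          = ContinuousLinearMap.proj (R := ℂ) (φ := fun _ : Fin 5 => ℂ) i := this.fderiv
      rw [e]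
      rfl
    refine ⟨?_, ?_, key 2, key 3⟩
    · rw [← pd 3]
      exact key 0
    · rw [← pd 4]
      exact key 1
  obtain ⟨ψ, hψ, hψ0, hψ1, hψ2⟩ := hift 5 4 0 rfl 1 q (fun _ => 0) χ analyticAt_const rfl hχ hχ0
    (by
      intro w hw1 _ hw
      obtain ⟨a, b, c, d⟩ := hfd w hw
      exact hinj w hw1 a b c d)
  have hM : ∀ᶠ v in 𝓝 (0 : Fin 4 → ℂ), ψ v ∈ MS2 F := by
    have : Tendsto ψ (𝓝 0) (𝓝 q) := by
      have := hψ.continuousAt
      rwa [ContinuousAt, hψ0] at this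
    exact this.eventually ((xd5b_open F).mem_nhds hq)
  obtain ⟨r, hLQ, hr⟩ := hsl F.Sp F.O 5 wgt' (MS2 F) F.p2 hpr 4 1 0 1 q le_rfl hq h1
    (by decide) (fun l _ => xd5b_stab h1 h2 l) χ ψ hχ hχ0 hψ hψ0
    (by
      filter_upwards [hψ1, hM] with v hv hv'
      exact ⟨hv', hv.2.1, hv.2.2⟩)
    (by
      filter_upwards [hψ2] with p' hp' _ h
      exact hp' rfl h)
    (by
      intro ζ hζ
      rw [pow_one] at hζ
      subst hζ
      exact Eventually.of_forall fun p' => by rw [xd5b_dact_one, xd5b_dact_one])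
  have hT' : ∀ᶠ v in 𝓝 (0 : Fin 4 → ℂ), F.Φ (ψ v) 5 = ψ v 3 * α (ψ v) + ψ v 4 * β (ψ v) := by
    have : Tendsto ψ (𝓝 0) (𝓝 q) := by
      have := hψ.continuousAt
      rwa [ContinuousAt, hψ0] at this
    exact this.eventually hT
  obtain ⟨ε, hε, hb⟩ := Metric.eventually_nhds_iff_ball.1 hT'
  refine ⟨F.p2 ∘ ψ, min r ε, xd5b_mono hLQ (lt_min hLQ.r_pos hε) (min_le_left _ _), ?_⟩
  intro v hv
  have hv1 := hr v (Metric.ball_subset_ball (min_le_left _ _) hv)
  have hv2 := hb v (Metric.ball_subset_ball (min_le_right _ _) hv)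
  have e0 : ψ v 3 = v 0 := congrFun hv1.2 0
  have e1 : ψ v 4 = v 1 := congrFun hv1.2 1
  have e2 : α (ψ v) = v 2 := congrFun hv1.2 2
  have e3 : β (ψ v) = v 3 := congrFun hv1.2 3
  show F.g (F.p2 (ψ v)) = _
  rw [xd5b_g F hv1.1, hv2, e0, e1, e2, e3]

end Pool.Agent.KO
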