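import Pool.Agent.KO.Xb.St

/-!
# Row D6: the local models of `X` along the central fibre
-/

set_option autoImplicit false

namespace Pool.Agent.KO

open Set Filter Topology

theorem xd6_stab {m : ℕ} (wt : Fin m → ℤ) (l : ℂ) (p : Fin m → ℂ) :
    dact wt l p = p ↔ ∀ i, p i ≠ 0 → l ^ wt i = 1 := by
  rw [funext_iff]
  refine forall_congr' fun i => ?_
  show l ^ wt i * p i = p i ↔ _
  by_cases h : p i = 0
  · simp [h]
  · rw [mul_eq_right₀ h]
    exact ⟨fun h1 _ => h1, fun h1 => h1 h⟩

theorem xd6_dact_one {m : ℕ} (wt : Fin m → ℤ) (p : Fin m → ℂ) : dact wt 1 p = p := by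
  funext i
  show (1 : ℂ) ^ wt i * p i = p i
  rw [one_zpow, one_mul]

theorem xd6_one {X : Type} [TopologicalSpace X] {O : Shf X} {n : ℕ} {β : Fin n → ℤ} {x : X}
    {σ : (Fin n → ℂ) → X} {r : ℝ} (h : LQ O n 1 β x σ r) : LQ O n 1 0 x σ r where
  b_pos := h.b_pos
  r_pos := h.r_pos
  base := h.base
  nhds := h.nhds
  fib := by
    intro v hv v' hv'
    rw [h.fib v hv v' hv']
    refine exists_congr fun ζ => and_congr_right fun hζ => ?_
    have h1 : ζ = 1 := by rwa [pow_one] at hζ
    rw [h1, xd6_dact_one, xd6_dact_one]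
  hol := h.hol

theorem xd6_kap (i j : Fin 6) (hi : i ≠ 5) (hj : j ≠ 5) (hji : j ≠ i) :
    ∃ κ : Fin 3 → Fin 6, Function.Injective κ ∧ ∀ k, κ k ≠ i ∧ κ k ≠ j ∧ κ k ≠ 5 := by
  have hc : (Finset.univ \ {i, j, 5} : Finset (Fin 6)).card = 3 := by
    revert i j
    decide
  refine ⟨(Finset.univ \ {i, j, 5} : Finset (Fin 6)).orderEmbOfFin hc,
    ((Finset.univ \ {i, j, 5} : Finset (Fin 6)).orderEmbOfFin hc).injective, fun k => ?_⟩
  have h := Finset.orderEmbOfFin_mem (Finset.univ \ {i, j, 5} : Finset (Fin 6)) hc k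
  rw [Finset.mem_sdiff] at h
  have h2 := h.2
  simp only [Finset.mem_insert, Finset.mem_singleton, not_or] at h2
  exact h2

theorem xd6_diffG (p : Fin 6 → ℂ) : DifferentiableAt ℂ G p := by
  unfold G
  fun_prop

theorem xd6_G2 (p : Fin 6 → ℂ) (h0 : p 0 = 0) (h2 : p 2 = 0) :
    fderiv ℂ G p (Pi.single 2 1) = p 1 ^ 12 := by
  rw [← (xd6_diffG p).lineDeriv_eq_fderiv]
  show deriv (fun s : ℂ => G (p + s • Pi.single 2 1)) 0 = _
  have h : (fun s : ℂ => G (p + s • Pi.single 2 1)) =
      fun s : ℂ => p 4 ^ 2 + p 3 ^ 3 + p 5 * s ^ 11 + p 1 ^ 12 * s := by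
    funext s
    unfold G
    simp [h0, h2]
  rw [h]
  have h1 : HasDerivAt (fun s : ℂ => p 4 ^ 2 + p 3 ^ 3 + p 5 * s ^ 11 + p 1 ^ 12 * s)
      (p 5 * ((11 : ℕ) * (0 : ℂ) ^ (11 - 1) * 1) + p 1 ^ 12 * 1) 0 :=
    ((((hasDerivAt_id (0 : ℂ)).pow 11).const_mul (p 5)).const_add (p 4 ^ 2 + p 3 ^ 3)).add
      ((hasDerivAt_id (0 : ℂ)).const_mul (p 1 ^ 12))
  rw [h1.deriv]
  norm_num

theorem xd6_G4 (p : Fin 6 → ℂ) : fderiv ℂ G p (Pi.single 4 1) = 2 * p 4 := by
  rw [← (xd6_diffG p).lineDeriv_eq_fderiv]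
  show deriv (fun s : ℂ => G (p + s • Pi.single 4 1)) 0 = _
  have h : (fun s : ℂ => G (p + s • Pi.single 4 1)) =
      fun s : ℂ => (p 4 + s) ^ 2 + (p 3 ^ 3 + p 5 * p 2 ^ 11 + p 1 * p 0 * p 2 ^ 10 +
        p 1 ^ 12 * p 2 - p 0 ^ 66 - p 0 ^ 12 * p 2 ^ 9) := by
    funext s
    unfold G
    simp
    ring
  rw [h]
  have h1 : HasDerivAt (fun s : ℂ => (p 4 + s) ^ 2 + (p 3 ^ 3 + p 5 * p 2 ^ 11 +
      p 1 * p 0 * p 2 ^ 10 + p 1 ^ 12 * p 2 - p 0 ^ 66 - p 0 ^ 12 * p 2 ^ 9))
      ((2 : ℕ) * (p 4 + 0) ^ (2 - 1) * 1) 0 :=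
    (((hasDerivAt_id (0 : ℂ)).const_add (p 4)).pow 2).add_const _
  rw [h1.deriv]
  norm_num

theorem xd6_p1 (F : Flip) (p : Flip.M1) : F.p1 p.1 = F.pi1 p := dif_pos p.2

theorem xd6_p2 (F : Flip) (q : F.M2) : F.p2 q.1 = F.pi2 q := dif_pos q.2

theorem xd6 (F : Flip) (hX : F.XaFacts) (hqs : SpQs) (hst : SpSt0) (_hst4 : SpStab)
    (h1 : SpLq10 F) (h2 : SpLq20 F) (hN : SpLqN F) : SpModel F := by
  intro x hx
  rcases hX.rel.surj x with ⟨p, rfl⟩ | ⟨q, rfl, hq3, hq4⟩
  · have hp5 : p.1 5 = 0 := hx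
    have hpM : p.1 ∈ MS1 := p.2
    rw [← xd6_p1 F p]
    left
    rcases hst p.1 hpM hp5 with hs | ⟨g1, g0, g2, g3, g4⟩ | ⟨g3, g4, g0, g1, g2⟩
    · obtain ⟨i, hi, hpi⟩ := p.2.1.2.1
      obtain ⟨j, hji, hj, hG⟩ := hqs p.1 p.2.1.1 hp5 p.2.2 i hi hpi
      obtain ⟨κ, hκ, hκ'⟩ := xd6_kap i j hi hj hji
      obtain ⟨σ, r, hL, hg⟩ := h1 p.1 hpM hp5 i j hi hj hji hpi hG 1 le_rfl hs κ hκ hκ'
      exact ⟨1, 0, σ, r, Or.inl ⟨rfl, rfl⟩, xd6_one hL, hg⟩
    · have hG : fderiv ℂ G p.1 (Pi.single 2 1) ≠ 0 := by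
        rw [xd6_G2 p.1 g0 g2]
        exact pow_ne_zero 12 g1
      obtain ⟨σ, r, hL, hg⟩ := h1 p.1 hpM hp5 1 2 (by decide) (by decide) (by decide) g1 hG 5
        (by norm_num) (fun l hl => by
          rw [xd6_stab]
          constructor
          · intro h
            have := h 1 g1
            exact_mod_cast this
          · intro h i hi
            fin_cases i
            · exact absurd g0 hi
            · exact_mod_cast h
            · exact absurd g2 hi
            · exact absurd g3 hi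
            · exact absurd g4 hi
            · exact absurd hp5 hi) ![0, 3, 4] (by decide) (by decide)
      exact ⟨5, ![1, 22, 33, 0], σ, r, Or.inr (Or.inr (Or.inr (Or.inl ⟨rfl, rfl⟩))), hL, hg⟩
    · have hG : fderiv ℂ G p.1 (Pi.single 4 1) ≠ 0 := by
        rw [xd6_G4 p.1]
        exact mul_ne_zero two_ne_zero g4
      obtain ⟨σ, r, hL, hg⟩ := h1 p.1 hpM hp5 3 4 (by decide) (by decide) (by decide) g3 hG 11
        (by norm_num) (fun l hl => by
          rw [xd6_stab]
          constructor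
          · intro h
            have e3 : l ^ 22 = 1 := by
              have := h 3 g3
              exact_mod_cast this
            have e4 : l ^ 33 = 1 := by
              have := h 4 g4
              exact_mod_cast this
            calc l ^ 11 = l ^ 22 * l ^ 11 := by rw [e3, one_mul]
              _ = l ^ 33 := by ring
              _ = 1 := e4
          · intro h i hi
            fin_cases i
            · exact absurd g0 hi
            · exact absurd g1 hi
            · exact absurd g2 hi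
            · show l ^ ((22 : ℕ) : ℤ) = 1
              rw [zpow_natCast]
              calc l ^ 22 = (l ^ 11) ^ 2 := by ring
                _ = 1 := by rw [h, one_pow]
            · show l ^ ((33 : ℕ) : ℤ) = 1
              rw [zpow_natCast]
              calc l ^ 33 = (l ^ 11) ^ 3 := by ring
                _ = 1 := by rw [h, one_pow]
            · exact absurd hp5 hi) ![0, 1, 2] (by decide) (by decide)
      exact ⟨11, ![1, 5, 6, 0], σ, r, Or.inr (Or.inr (Or.inr (Or.inr ⟨rfl, rfl⟩))), hL, hg⟩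
  · have hqM : q.1 ∈ MS2 F := q.2
    rw [← xd6_p2 F q]
    have hw : ∀ l : ℂ, l ≠ 0 → ((l ^ (-1 : ℤ) = 1 ↔ l = 1) ∧ (l ^ (-2 : ℤ) = 1 ↔ l ^ 2 = 1) ∧
        (l ^ (-3 : ℤ) = 1 ↔ l ^ 3 = 1)) := by
      intro l _
      refine ⟨?_, ?_, ?_⟩
      · rw [zpow_neg, zpow_one, inv_eq_one]
      · rw [zpow_neg, inv_eq_one]
        exact_mod_cast Iff.rfl
      · rw [zpow_neg, inv_eq_one]
        exact_mod_cast Iff.rfl
    by_cases g0 : q.1 0 = 0
    · by_cases g1 : q.1 1 = 0
      · have g2 : q.1 2 ≠ 0 := by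
          rcases q.2.2 with h | h | h
          · exact absurd g0 h
          · exact absurd g1 h
          · exact h
        left
        obtain ⟨σ, r, hL, hg⟩ := h2 q.1 hqM hq3 hq4 2 4 (Or.inr (Or.inr rfl)) g2
          (Or.inr ⟨rfl, by
            rw [g1]
            intro h0
            apply g2
            have : q.1 2 ^ 2 = 0 := by linear_combination -4 * h0
            exact pow_eq_zero_iff (two_ne_zero) |>.1 this⟩) 3 (by norm_num)
          (fun l hl => by
            rw [xd6_stab]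
            constructor
            · intro h
              exact (hw l hl).2.2.1 (h 2 g2)
            · intro h i hi
              fin_cases i
              · exact absurd g0 hi
              · exact absurd g1 hi
              · exact (hw l hl).2.2.2 h
              · exact absurd hq3 hi
              · exact absurd hq4 hi) ![0, 1, 3] (by decide) (by decide)
        exact ⟨3, ![-1, -2, 1, 0], σ, r, Or.inr (Or.inr (Or.inl ⟨rfl, rfl⟩)), hL, hg⟩
      · by_cases g2 : q.1 2 = 0
        · left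
          obtain ⟨σ, r, hL, hg⟩ := h2 q.1 hqM hq3 hq4 1 4 (Or.inr (Or.inl rfl)) g1
            (Or.inr ⟨rfl, by
              rw [g2]
              intro h0
              apply g1
              have : q.1 1 ^ 3 = 0 := by linear_combination 27 * h0
              exact pow_eq_zero_iff (three_ne_zero) |>.1 this⟩) 2 (by norm_num)
            (fun l hl => by
              rw [xd6_stab]
              constructor
              · intro h
                exact (hw l hl).2.1.1 (h 1 g1)
              · intro h i hi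
                fin_cases i
                · exact absurd g0 hi
                · exact (hw l hl).2.1.2 h
                · exact absurd g2 hi
                · exact absurd hq3 hi
                · exact absurd hq4 hi) ![0, 2, 3] (by decide) (by decide)
          exact ⟨2, ![-1, -3, 1, 0], σ, r, Or.inr (Or.inl ⟨rfl, rfl⟩), hL, hg⟩
        · by_cases hd : q.1 1 ^ 3 / 27 - q.1 2 ^ 2 / 4 = 0
          · right
            exact hN q.1 hqM hq3 hq4 g0 hd
          · left
            obtain ⟨σ, r, hL, hg⟩ := h2 q.1 hqM hq3 hq4 1 4 (Or.inr (Or.inl rfl)) g1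
              (Or.inr ⟨rfl, hd⟩) 1 le_rfl
              (fun l hl => by
                rw [xd6_stab, pow_one]
                constructor
                · intro h
                  have e2 : l ^ 2 = 1 := (hw l hl).2.1.1 (h 1 g1)
                  have e3 : l ^ 3 = 1 := (hw l hl).2.2.1 (h 2 g2)
                  calc l = l ^ 2 * l := by rw [e2, one_mul]
                    _ = l ^ 3 := by ring
                    _ = 1 := e3
                · intro h i _
                  rw [h, one_zpow]) ![0, 2, 3] (by decide) (by decide)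
            exact ⟨1, 0, σ, r, Or.inl ⟨rfl, rfl⟩, xd6_one hL, hg⟩
    · left
      obtain ⟨σ, r, hL, hg⟩ := h2 q.1 hqM hq3 hq4 0 3 (Or.inl rfl) g0
        (Or.inl ⟨rfl, g0⟩) 1 le_rfl
        (fun l hl => by
          rw [xd6_stab, pow_one]
          constructor
          · intro h
            exact (hw l hl).1.1 (h 0 g0)
          · intro h i _
            rw [h, one_zpow]) ![1, 2, 4] (by decide) (by decide)
      exact ⟨1, 0, σ, r, Or.inl ⟨rfl, rfl⟩, xd6_one hL, hg⟩

end Pool.Agent.KO
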