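import Pool.Agent.KO.Xb.St
import Pool.Agent.KO.C.Ext
import Pool.Agent.KO.C.Inv

/-!
# Project KO, block X, D7: division by a function without critical points
-/

set_option autoImplicit false

namespace Pool.Agent.KO

open Set Filter Topology

theorem xd7_single {n : ℕ} {L : (Fin n → ℂ) →L[ℂ] ℂ} (hL : L ≠ 0) :
    ∃ j, L (Pi.single j 1) ≠ 0 := by
  by_contra h
  push Not at h
  apply hL
  apply ContinuousLinearMap.coe_injective
  apply LinearMap.pi_ext
  intro i x
  have h1 : (Pi.single i x : Fin n → ℂ) = x • Pi.single i 1 := by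
    rw [← Pi.single_smul, smul_eq_mul, mul_one]
  rw [h1, map_smul, map_smul]
  change x • L (Pi.single i 1) = x • (0 : ℂ)
  rw [h i]

theorem xd7_bd {n : ℕ} {p : Fin n → ℂ} {T H : (Fin n → ℂ) → ℂ} (hT : AnalyticAt ℂ T p)
    (hH : AnalyticAt ℂ H p) (hfd : fderiv ℂ T p ≠ 0) (h0 : ∀ᶠ v in 𝓝 p, T v = 0 → H v = 0)
    (hp : T p = 0) : ∃ K : ℝ, ∀ᶠ x in 𝓝 p, ‖H x‖ ≤ K * ‖T x‖ := by
  obtain ⟨j, hj⟩ := xd7_single hfd
  obtain ⟨e, he1, he2, he3, he4⟩ := C.coord hT j hj
  have hej : ∀ x, e x j = T x := fun x => by rw [he2, Function.update_self]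
  have hsym : e.symm (e p) = p := e.left_inv he1
  have hep : e p ∈ e.target := e.map_source he1
  have hH' : AnalyticAt ℂ (H ∘ e.symm) (e p) := by
    apply AnalyticAt.comp _ (he4 _ hep)
    rw [hsym]
    exact hH
  obtain ⟨K, s, hs, hK⟩ := hH'.hasStrictFDerivAt.exists_lipschitzOnWith
  let u : (Fin n → ℂ) → (Fin n → ℂ) := fun x => Function.update (e x) j 0
  have hup : u p = e p := by
    change Function.update (e p) j 0 = e p
    rw [← hp, ← hej p, Function.update_eq_self]
  have hec : ContinuousAt e p := e.continuousAt he1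
  have huc : ContinuousAt u p := by
    have : Continuous fun y : Fin n → ℂ => Function.update y j 0 :=
      continuous_id.update j continuous_const
    exact this.continuousAt.comp hec
  have hsc : ContinuousAt (fun x => e.symm (u x)) p := by
    have h1 : ContinuousAt e.symm (u p) := by
      rw [hup]
      exact e.continuousAt_symm hep
    exact h1.comp huc
  have h1 : ∀ᶠ x in 𝓝 p, e x ∈ s := hec.eventually_mem hs
  have h2 : ∀ᶠ x in 𝓝 p, u x ∈ s := huc.eventually_mem (by rw [hup]; exact hs)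
  have h3 : ∀ᶠ x in 𝓝 p, u x ∈ e.target :=
    huc.eventually_mem (by rw [hup]; exact e.open_target.mem_nhds hep)
  have h4 : ∀ᶠ x in 𝓝 p, T (e.symm (u x)) = 0 → H (e.symm (u x)) = 0 := by
    refine hsc.eventually (p := fun v => T v = 0 → H v = 0) ?_
    change ∀ᶠ y in 𝓝 (e.symm (u p)), T y = 0 → H y = 0
    rw [hup, hsym]
    exact h0
  have h5 : ∀ᶠ x in 𝓝 p, x ∈ e.source := e.open_source.mem_nhds he1
  refine ⟨K, ?_⟩
  filter_upwards [h1, h2, h3, h4, h5] with x x1 x2 x3 x4 x5
  have h6 : T (e.symm (u x)) = 0 := by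
    rw [← hej, e.right_inv x3]
    exact Function.update_self _ _ _
  have h7 : H x = (H ∘ e.symm) (e x) := by
    rw [Function.comp_apply, e.left_inv x5]
  have h8 : (H ∘ e.symm) (u x) = 0 := x4 h6
  have h9 := hK.dist_le_mul _ x1 _ x2
  rw [dist_eq_norm, dist_eq_norm, h8, sub_zero, ← h7] at h9
  refine h9.trans (mul_le_mul_of_nonneg_left ?_ K.coe_nonneg)
  rw [pi_norm_le_iff_of_nonneg (norm_nonneg _)]
  intro i
  by_cases hi : i = j
  · subst hi
    change ‖e x i - Function.update (e x) i 0 i‖ ≤ _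
    rw [Function.update_self, sub_zero, hej]
  · change ‖e x i - Function.update (e x) j 0 i‖ ≤ _
    rw [Function.update_of_ne hi, sub_self, norm_zero]
    exact norm_nonneg _

/-- D7. -/
theorem xd7 : SpDiv := by
  intro n p T H hT hH hfd h0
  by_cases hp : T p = 0
  · obtain ⟨K, hK⟩ := xd7_bd hT hH hfd h0 hp
    have hne : ¬ ∀ᶠ x in 𝓝 p, T x = 0 := by
      intro h
      apply hfd
      have h1 : T =ᶠ[𝓝 p] fun _ => (0 : ℂ) := h
      rw [h1.fderiv_eq]
      simp
    obtain ⟨g, hg, hgT⟩ := C.riemann_loc (f := fun x => H x / T x) hT hne (by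
      filter_upwards [hT.eventually_analyticAt, hH.eventually_analyticAt] with x h1 h2 h3
      exact h2.div h1 h3) ⟨K, by
        filter_upwards [hK] with x h1 h2
        rw [norm_div, div_le_iff₀ (norm_pos_iff.2 h2)]
        exact h1⟩
    refine ⟨g, hg, ?_⟩
    filter_upwards [hgT, h0] with x h1 h2
    by_cases h3 : T x = 0
    · rw [h2 h3, h3, zero_mul]
    · rw [h1 h3, mul_div_cancel₀ _ h3]
  · refine ⟨fun x => H x / T x, hH.div hT hp, ?_⟩
    filter_upwards [hT.continuousAt.eventually_ne hp] with x h1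
    rw [mul_div_cancel₀ _ h1]

end Pool.Agent.KO
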