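import Pool.Agent.KO.Xb.St
import Pool.Agent.KO.C.Dcov
import Pool.Agent.KO.C.Iden

/-!
# Project KO, row D8: the central fibre is reduced
-/

set_option autoImplicit false

namespace Pool.Agent.KO

open Set Filter Topology

/-- The diagonal action is continuous linear. -/
noncomputable def xd8_lin {m : ℕ} (wt : Fin m → ℤ) (l : ℂ) : (Fin m → ℂ) →L[ℂ] (Fin m → ℂ) :=
  ContinuousLinearMap.pi fun i => (l ^ wt i) • ContinuousLinearMap.proj (R := ℂ)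
    (φ := fun _ : Fin m => ℂ) i

theorem xd8_lin_apply {m : ℕ} (wt : Fin m → ℤ) (l : ℂ) (v : Fin m → ℂ) :
    xd8_lin wt l v = dact wt l v := by
  ext i
  simp [xd8_lin, dact]

theorem xd8_an {m : ℕ} (wt : Fin m → ℤ) (l : ℂ) (v : Fin m → ℂ) :
    AnalyticAt ℂ (dact wt l) v := by
  have h : dact wt l = xd8_lin wt l := funext fun v => (xd8_lin_apply wt l v).symm
  rw [h]
  exact (xd8_lin wt l).analyticAt v

theorem xd8_zero {m : ℕ} (wt : Fin m → ℤ) (l : ℂ) : dact wt l (0 : Fin m → ℂ) = 0 := by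
  rw [← xd8_lin_apply, map_zero]

theorem xd8_tendsto {m : ℕ} (wt : Fin m → ℤ) (l : ℂ) :
    Tendsto (dact wt l) (𝓝 (0 : Fin m → ℂ)) (𝓝 0) := by
  have h := (xd8_an wt l 0).continuousAt.tendsto
  rwa [xd8_zero] at h

/-- **Row D8.** -/
theorem xd8 (hdiv : SpDiv) : SpRed := by
  classical
  intro X _ O g x b β σ r hLQ hg hgx hcrit f hf hv
  have h0r : (0 : Fin 4 → ℂ) ∈ Metric.ball (0 : Fin 4 → ℂ) r := Metric.mem_ball_self hLQ.r_pos
  have hmap : map σ (𝓝 (0 : Fin 4 → ℂ)) = 𝓝 x := by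
    rw [hLQ.nhds 0 h0r, hLQ.base]
  have hT : AnalyticAt ℂ (g ∘ σ) 0 := (hLQ.hol 0 h0r g).1 (hg _)
  have hH : AnalyticAt ℂ (f ∘ σ) 0 := (hLQ.hol 0 h0r f).1 (by rw [hLQ.base]; exact hf)
  have hT0 : (g ∘ σ) 0 = 0 := by
    rw [Function.comp_apply, hLQ.base, hgx]
  have hv' : ∀ᶠ v in 𝓝 (0 : Fin 4 → ℂ), (g ∘ σ) v = 0 → (f ∘ σ) v = 0 := by
    rw [← hmap] at hv
    exact hv
  have hne : ¬ ∀ᶠ v in 𝓝 (0 : Fin 4 → ℂ), (g ∘ σ) v = 0 := by
    intro hz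
    refine C.freq_coord (0 : Fin 4) 0 0 ?_
    filter_upwards [hz.eventually_nhds, hcrit] with v h1 h2 h3
    have h4 : v ≠ 0 := fun h5 => h3 (by rw [h5])
    refine h2 h4 ?_
    have h6 : (g ∘ σ) =ᶠ[𝓝 v] fun _ => (0 : ℂ) := h1
    rw [h6.fderiv_eq]
    exact (hasFDerivAt_const (0 : ℂ) v).fderiv
  have hloc : ∀ᶠ v in 𝓝 (0 : Fin 4 → ℂ), v ≠ 0 → ∃ K, AnalyticAt ℂ K v ∧
      ∀ᶠ z in 𝓝 v, (g ∘ σ) z ≠ 0 → (f ∘ σ) z / (g ∘ σ) z = K z := by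
    filter_upwards [hT.eventually_analyticAt, hH.eventually_analyticAt, hcrit,
      hv'.eventually_nhds] with v h1 h2 h3 h4 h5
    obtain ⟨K, hK, hK2⟩ := hdiv 4 v (g ∘ σ) (f ∘ σ) h1 h2 (h3 h5) h4
    refine ⟨K, hK, hK2.mono fun z hz hz0 => ?_⟩
    rw [hz, mul_div_cancel_left₀ _ hz0]
  obtain ⟨K, hK, hK2⟩ := C.glue_point (i := (0 : Fin 4)) (j := 1) (by decide) hT hne hloc
  have hfac : ∀ᶠ v in 𝓝 (0 : Fin 4 → ℂ), (f ∘ σ) v = (g ∘ σ) v * K v := by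
    filter_upwards [hK2, hv'] with v h1 h2
    by_cases h3 : (g ∘ σ) v = 0
    · rw [h2 h3, h3, zero_mul]
    · have h4 : v ≠ 0 := fun h5 => h3 (by rw [h5, hT0])
      rw [← h1 h4 h3, mul_div_cancel₀ _ h3]
  have hball : ∀ᶠ v in 𝓝 (0 : Fin 4 → ℂ), v ∈ Metric.ball (0 : Fin 4 → ℂ) r :=
    Metric.ball_mem_nhds _ hLQ.r_pos
  have hinv : ∀ ζ : ℂ, ζ ^ b = 1 → ∀ᶠ v in 𝓝 (0 : Fin 4 → ℂ), K (dact β ζ v) = K v := by
    intro ζ hζ
    have ht := xd8_tendsto β ζ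
    have hKd : AnalyticAt ℂ (fun v => K (dact β ζ v)) 0 := by
      refine AnalyticAt.comp (g := K) ?_ (xd8_an β ζ 0)
      rw [xd8_zero]
      exact hK
    refine C.cancel hT hKd hK hne ?_
    filter_upwards [hfac, ht.eventually hfac, hball, ht.eventually hball] with v h1 h2 h3 h4
    have h5 : σ v = σ (dact β ζ v) := (hLQ.fib v h3 _ h4).2 ⟨ζ, hζ, rfl⟩
    have h6 : (g ∘ σ) (dact β ζ v) = (g ∘ σ) v := by
      rw [Function.comp_apply, ← h5, Function.comp_apply]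
    have h7 : (f ∘ σ) (dact β ζ v) = (f ∘ σ) v := by
      rw [Function.comp_apply, ← h5, Function.comp_apply]
    rw [← h1, ← h7, h2, h6]
  have hall : ∀ᶠ v in 𝓝 (0 : Fin 4 → ℂ), ∀ ζ ∈ Polynomial.nthRootsFinset b (1 : ℂ),
      K (dact β ζ v) = K v := by
    rw [Finset.eventually_all]
    intro ζ hζ
    exact hinv ζ ((Polynomial.mem_nthRootsFinset hLQ.b_pos _).1 hζ)
  obtain ⟨s, hs, hsb⟩ := Metric.eventually_nhds_iff_ball.1 (hall.and hball)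
  set h : X → ℂ := fun y => if hy : ∃ v ∈ Metric.ball (0 : Fin 4 → ℂ) s, σ v = y
    then K hy.choose else 0 with hh
  have hval : ∀ v ∈ Metric.ball (0 : Fin 4 → ℂ) s, h (σ v) = K v := by
    intro v hvs
    have hex : ∃ v' ∈ Metric.ball (0 : Fin 4 → ℂ) s, σ v' = σ v := ⟨v, hvs, rfl⟩
    have h1 : h (σ v) = K hex.choose := by
      simp only [hh]
      rw [dif_pos hex]
    obtain ⟨h2, h3⟩ := hex.choose_spec
    obtain ⟨ζ, hζ, h4⟩ := (hLQ.fib v (hsb v hvs).2 _ (hsb _ h2).2).1 h3.symm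
    rw [h1, h4]
    exact (hsb v hvs).1 ζ ((Polynomial.mem_nthRootsFinset hLQ.b_pos _).2 hζ)
  have hev : ∀ᶠ v in 𝓝 (0 : Fin 4 → ℂ), (h ∘ σ) v = K v := by
    filter_upwards [Metric.ball_mem_nhds (0 : Fin 4 → ℂ) hs] with v hvs
    exact hval v hvs
  refine ⟨h, ?_, ?_⟩
  · have h1 := (hLQ.hol 0 h0r h).2 (hK.congr (hev.mono fun v hv => hv.symm))
    rwa [hLQ.base] at h1
  · rw [← hmap, eventually_map]
    filter_upwards [hfac, hev] with v h1 h2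
    rw [Function.comp_apply, Function.comp_apply] at h1
    rw [Function.comp_apply] at h2
    rw [h1, h2]

end Pool.Agent.KO
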