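import Pool.Agent.KO.Xb.St

/-!
# D9: quotient points of the fibre
-/

set_option autoImplicit false

namespace Pool.Agent.KO

open Set Filter Topology

/-- The inclusion of `ℂ^3`. -/
def xd9_j (v : Fin 3 → ℂ) : Fin 4 → ℂ := ![v 0, v 1, v 2, 0]

/-- The projection to `ℂ^3`. -/
def xd9_p (w : Fin 4 → ℂ) : Fin 3 → ℂ := ![w 0, w 1, w 2]

theorem xd9_pj (v : Fin 3 → ℂ) : xd9_p (xd9_j v) = v := by
  ext i
  fin_cases i <;> rfl

theorem xd9_jp {w : Fin 4 → ℂ} (h : w 3 = 0) : xd9_j (xd9_p w) = w := by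
  ext i
  fin_cases i
  · rfl
  · rfl
  · rfl
  · exact h.symm

theorem xd9_an_j (v : Fin 3 → ℂ) : AnalyticAt ℂ xd9_j v := by
  rw [analyticAt_pi_iff]
  intro i
  fin_cases i
  · exact (ContinuousLinearMap.proj (R := ℂ) (φ := fun _ : Fin 3 => ℂ) 0).analyticAt v
  · exact (ContinuousLinearMap.proj (R := ℂ) (φ := fun _ : Fin 3 => ℂ) 1).analyticAt v
  · exact (ContinuousLinearMap.proj (R := ℂ) (φ := fun _ : Fin 3 => ℂ) 2).analyticAt v
  · exact analyticAt_const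

theorem xd9_an_p (w : Fin 4 → ℂ) : AnalyticAt ℂ xd9_p w := by
  rw [analyticAt_pi_iff]
  intro i
  fin_cases i
  · exact (ContinuousLinearMap.proj (R := ℂ) (φ := fun _ : Fin 4 => ℂ) 0).analyticAt w
  · exact (ContinuousLinearMap.proj (R := ℂ) (φ := fun _ : Fin 4 => ℂ) 1).analyticAt w
  · exact (ContinuousLinearMap.proj (R := ℂ) (φ := fun _ : Fin 4 => ℂ) 2).analyticAt w

theorem xd9_ball_j {r : ℝ} (hr : 0 < r) {v : Fin 3 → ℂ}
    (hv : v ∈ Metric.ball (0 : Fin 3 → ℂ) r) : xd9_j v ∈ Metric.ball (0 : Fin 4 → ℂ) r := by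
  rw [mem_ball_zero_iff] at hv ⊢
  rw [pi_norm_lt_iff hr] at hv ⊢
  intro i
  fin_cases i
  · exact hv 0
  · exact hv 1
  · exact hv 2
  · show ‖(0 : ℂ)‖ < r
    rw [norm_zero]
    exact hr

theorem xd9_ball_p {r : ℝ} (hr : 0 < r) {w : Fin 4 → ℂ}
    (hw : w ∈ Metric.ball (0 : Fin 4 → ℂ) r) : xd9_p w ∈ Metric.ball (0 : Fin 3 → ℂ) r := by
  rw [mem_ball_zero_iff] at hw ⊢
  rw [pi_norm_lt_iff hr] at hw ⊢
  intro i
  fin_cases i
  · exact hw 0
  · exact hw 1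
  · exact hw 2

theorem xd9_dact_p (β : Fin 4 → ℤ) (l : ℂ) (w : Fin 4 → ℂ) :
    xd9_p (dact β l w) = dact ![β 0, β 1, β 2] l (xd9_p w) := by
  ext i
  fin_cases i <;> rfl

theorem xd9_dact_j (β : Fin 4 → ℤ) (l : ℂ) (v : Fin 3 → ℂ) :
    dact β l (xd9_j v) = xd9_j (dact ![β 0, β 1, β 2] l v) := by
  ext i
  fin_cases i
  · rfl
  · rfl
  · rfl
  · exact mul_zero _

/-- D9. Quotient points of the fibre. -/
theorem xd9 : SpZq := by
  classical
  intro X _ O g x hx b β σ r h h3 hg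
  have hr := h.r_pos
  have g0 : ∀ v ∈ Metric.ball (0 : Fin 3 → ℂ) r, g (σ (xd9_j v)) = 0 := fun v hv =>
    hg _ (xd9_ball_j hr hv)
  let τ : (Fin 3 → ℂ) → {y | g y = 0} := fun v =>
    if h : g (σ (xd9_j v)) = 0 then ⟨σ (xd9_j v), h⟩ else ⟨x, hx⟩
  have τv : ∀ v ∈ Metric.ball (0 : Fin 3 → ℂ) r, (τ v : X) = σ (xd9_j v) := by
    intro v hv
    have : τ v = ⟨σ (xd9_j v), g0 v hv⟩ := dif_pos (g0 v hv)
    rw [this]
  have evb : ∀ v ∈ Metric.ball (0 : Fin 3 → ℂ) r, ∀ᶠ u in 𝓝 v,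
      u ∈ Metric.ball (0 : Fin 3 → ℂ) r := fun v hv => Metric.isOpen_ball.mem_nhds hv
  have tend : ∀ v ∈ Metric.ball (0 : Fin 3 → ℂ) r, Tendsto τ (𝓝 v) (𝓝 (τ v)) := by
    intro v hv
    rw [tendsto_subtype_rng, τv v hv]
    have h1 : Tendsto (fun u => σ (xd9_j u)) (𝓝 v) (𝓝 (σ (xd9_j v))) := by
      have h2 : Tendsto σ (𝓝 (xd9_j v)) (𝓝 (σ (xd9_j v))) :=
        (h.nhds _ (xd9_ball_j hr hv)).le
      exact h2.comp (xd9_an_j v).continuousAt
    refine h1.congr' ?_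
    filter_upwards [evb v hv] with u hu
    exact (τv u hu).symm
  have nhd : ∀ v ∈ Metric.ball (0 : Fin 3 → ℂ) r, map τ (𝓝 v) = 𝓝 (τ v) := by
    intro v hv
    refine le_antisymm (tend v hv) ?_
    intro S hS
    rw [mem_map] at hS
    have hT : {w : Fin 4 → ℂ | w ∈ Metric.ball (0 : Fin 4 → ℂ) r ∧ xd9_p w ∈ τ ⁻¹' S} ∈
        𝓝 (xd9_j v) := by
      have h1 : ∀ᶠ w in 𝓝 (xd9_j v), w ∈ Metric.ball (0 : Fin 4 → ℂ) r :=
        Metric.isOpen_ball.mem_nhds (xd9_ball_j hr hv)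
      have h2 : ∀ᶠ w in 𝓝 (xd9_j v), xd9_p w ∈ τ ⁻¹' S := by
        have h3 : Tendsto xd9_p (𝓝 (xd9_j v)) (𝓝 v) := by
          have := (xd9_an_p (xd9_j v)).continuousAt.tendsto
          rwa [xd9_pj] at this
        exact h3 hS
      exact h1.and h2
    have hI := image_mem_map (m := σ) hT
    rw [h.nhds _ (xd9_ball_j hr hv), ← τv v hv] at hI
    rw [nhds_subtype_eq_comap, mem_comap]
    refine ⟨_, hI, ?_⟩
    rintro y ⟨w, ⟨hw, hwS⟩, hwy⟩
    have e3 : w 3 = 0 := by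
      rw [← hg w hw, hwy]
      exact y.2
    have e : τ (xd9_p w) = y := by
      apply Subtype.ext
      rw [τv _ (xd9_ball_p hr hw), xd9_jp e3]
      exact hwy
    rw [← e]
    exact hwS
  have fb : ∀ v ∈ Metric.ball (0 : Fin 3 → ℂ) r, ∀ v' ∈ Metric.ball (0 : Fin 3 → ℂ) r,
      (τ v = τ v' ↔ ∃ ζ : ℂ, ζ ^ b = 1 ∧ v' = dact ![β 0, β 1, β 2] ζ v) := by
    intro v hv v' hv'
    rw [Subtype.ext_iff, τv v hv, τv v' hv', h.fib _ (xd9_ball_j hr hv) _ (xd9_ball_j hr hv')]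
    refine exists_congr fun ζ => and_congr_right fun _ => ?_
    rw [xd9_dact_j]
    constructor
    · intro h1
      have := congrArg xd9_p h1
      rwa [xd9_pj, xd9_pj] at this
    · intro h1
      rw [h1]
  refine ⟨τ, ⟨h.b_pos, hr, ?_, nhd, fb, ?_⟩⟩
  · apply Subtype.ext
    rw [τv 0 (Metric.mem_ball_self hr)]
    have : xd9_j 0 = 0 := by
      ext i
      fin_cases i <;> rfl
    rw [this]
    exact h.base
  · intro v hv f
    constructor
    · rintro ⟨F, hF, hf⟩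
      rw [τv v hv, h.hol _ (xd9_ball_j hr hv)] at hF
      have h1 : AnalyticAt ℂ (fun u => (F ∘ σ) (xd9_j u)) v :=
        AnalyticAt.fun_comp (g := F ∘ σ) hF (xd9_an_j v)
      refine h1.congr ?_
      filter_upwards [evb v hv, (tend v hv).eventually hf] with u hu hu'
      show F (σ (xd9_j u)) = f (τ u)
      rw [hu', τv u hu]
    · intro hf
      let F : X → ℂ := fun y => if h : ∃ w ∈ Metric.ball (0 : Fin 4 → ℂ) r, σ w = y then
        f (τ (xd9_p h.choose)) else 0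
      have hF : ∀ w ∈ Metric.ball (0 : Fin 4 → ℂ) r, F (σ w) = f (τ (xd9_p w)) := by
        intro w hw
        have hex : ∃ w' ∈ Metric.ball (0 : Fin 4 → ℂ) r, σ w' = σ w := ⟨w, hw, rfl⟩
        have e : F (σ w) = f (τ (xd9_p hex.choose)) := dif_pos hex
        rw [e]
        congr 1
        obtain ⟨h1, h2⟩ := hex.choose_spec
        rw [fb _ (xd9_ball_p hr h1) _ (xd9_ball_p hr hw)]
        obtain ⟨ζ, hζ, hd⟩ := (h.fib _ h1 _ hw).1 h2
        refine ⟨ζ, hζ, ?_⟩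
        rw [← xd9_dact_p, ← hd]
      refine ⟨F, ?_, ?_⟩
      · rw [τv v hv, h.hol _ (xd9_ball_j hr hv)]
        have h1 : AnalyticAt ℂ (fun w => (f ∘ τ) (xd9_p w)) (xd9_j v) := by
          refine AnalyticAt.fun_comp (g := f ∘ τ) ?_ (xd9_an_p _)
          rw [xd9_pj]
          exact hf
        refine h1.congr ?_
        have h2 : ∀ᶠ w in 𝓝 (xd9_j v), w ∈ Metric.ball (0 : Fin 4 → ℂ) r :=
          Metric.isOpen_ball.mem_nhds (xd9_ball_j hr hv)
        filter_upwards [h2] with w hw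
        exact (hF w hw).symm
      · rw [← nhd v hv, eventually_map]
        filter_upwards [evb v hv] with u hu
        rw [τv u hu, hF _ (xd9_ball_j hr hu), xd9_pj]

end Pool.Agent.KO
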