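import Pool.Agent.KO.Xb.St

/-!
# Block Xd: the central fibre has canonical singularities (assembly)
-/

set_option autoImplicit false

namespace Pool.Agent.KO

open Set Filter Topology

section

variable {X : Type} [TopologicalSpace X]

/-- Points near the centre of a quotient presentation. -/
theorem xdm_ev {O : Shf X} {n b : ℕ} {β : Fin n → ℤ} {x : X} {σ : (Fin n → ℂ) → X} {r : ℝ}
    (h : LQ O n b β x σ r) {P : X → Prop} (hP : ∀ v ∈ Metric.ball (0 : Fin n → ℂ) r, P (σ v)) :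
    ∀ᶠ y in 𝓝 x, P y := by
  have h1 := h.nhds 0 (Metric.mem_ball_self h.r_pos)
  rw [h.base] at h1
  rw [← h1]
  exact Filter.eventually_map.2 (Filter.eventually_of_mem
    (Metric.isOpen_ball.mem_nhds (Metric.mem_ball_self h.r_pos)) hP)

theorem xdm_res_loc {O : Shf X} (hO : LocShf O) (S : Set X) : LocShf (res O S) := by
  rintro f f' x hff ⟨F, hF, h⟩
  refine ⟨F, hF, ?_⟩
  filter_upwards [hff, h] with y h1 h2
  rw [← h1, h2]

/-- Points near a quotient point are smooth, and it is in the closure of the smooth points. -/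
theorem xdm_q (hco : SpCoord) (hfr : SpFree) {O : Shf X} {b : ℕ} {β : Fin 3 → ℤ} {x : X}
    {σ : (Fin 3 → ℂ) → X} {r : ℝ} (h : LQ O 3 b β x σ r)
    (hβ : ∀ ζ : ℂ, ζ ^ b = 1 → ∀ k, ζ ^ β k = 1 → ζ = 1) :
    (∀ᶠ y in 𝓝 x, y ≠ x → Good O y) ∧ x ∈ closure {y | Good O y} := by
  have hp := (hfr X O b β x σ r h hβ).1
  have h2 : ∀ v ∈ Metric.ball (0 : Fin 3 → ℂ) r, v ≠ 0 → Good O (σ v) := fun v hv h0 =>
    (hco X O _ σ hp v ⟨hv, h0⟩).1
  refine ⟨?_, ?_⟩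
  · refine xdm_ev h (P := fun y => y ≠ x → Good O y) fun v hv hne => ?_
    refine h2 v hv fun h0 => hne ?_
    rw [h0, h.base]
  · rw [mem_closure_iff_frequently]
    have h1 := h.nhds 0 (Metric.mem_ball_self h.r_pos)
    rw [h.base] at h1
    rw [← h1, Filter.frequently_map]
    have h3 : ∃ᶠ v in 𝓝 (0 : Fin 3 → ℂ), v ≠ 0 := by
      have : (𝓝[≠] (0 : Fin 3 → ℂ)).NeBot := inferInstance
      exact frequently_iff_neBot.2 this
    exact (h3.and_eventually (Metric.isOpen_ball.mem_nhds (Metric.mem_ball_self h.r_pos))).mono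
      fun v hv => h2 v hv.2 hv.1

end

theorem xdm_d3 (v : Fin 4 → ℂ) : fderiv ℂ (fun v : Fin 4 → ℂ => v 3) v ≠ 0 := by
  have h1 : fderiv ℂ (fun v : Fin 4 → ℂ => v 3) v =
      ContinuousLinearMap.proj (R := ℂ) (φ := fun _ : Fin 4 => ℂ) 3 :=
    (ContinuousLinearMap.proj (R := ℂ) (φ := fun _ : Fin 4 => ℂ) 3).fderiv
  intro h
  rw [h1] at h
  have h2 := congrArg (fun L : (Fin 4 → ℂ) →L[ℂ] ℂ => L (Pi.single 3 1)) h
  simp at h2

theorem xdm_dq {v : Fin 4 → ℂ} (hv : v ≠ 0) :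
    fderiv ℂ (fun v : Fin 4 → ℂ => v 0 * v 2 + v 1 * v 3) v ≠ 0 := by
  have hp : ∀ i : Fin 4, HasFDerivAt (fun v : Fin 4 → ℂ => v i)
      (ContinuousLinearMap.proj (R := ℂ) (φ := fun _ : Fin 4 => ℂ) i) v := fun i =>
    (ContinuousLinearMap.proj (R := ℂ) (φ := fun _ : Fin 4 => ℂ) i).hasFDerivAt
  have h1 := ((hp 0).mul (hp 2)).add ((hp 1).mul (hp 3))
  intro h
  have h2 : fderiv ℂ (fun v : Fin 4 → ℂ => v 0 * v 2 + v 1 * v 3) v = _ := h1.fderiv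
  rw [h2] at h
  apply hv
  funext i
  fin_cases i
  · have h3 := congrArg (fun L : (Fin 4 → ℂ) →L[ℂ] ℂ => L (Pi.single 2 1)) h
    simpa using h3
  · have h3 := congrArg (fun L : (Fin 4 → ℂ) →L[ℂ] ℂ => L (Pi.single 3 1)) h
    simpa using h3
  · have h3 := congrArg (fun L : (Fin 4 → ℂ) →L[ℂ] ℂ => L (Pi.single 0 1)) h
    simpa using h3
  · have h3 := congrArg (fun L : (Fin 4 → ℂ) →L[ℂ] ℂ => L (Pi.single 1 1)) h
    simpa using h3

/-- The central fibre has canonical singularities. -/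
theorem xd_main (F : Flip) (hcongr : LocShf F.O) (ht2 : T2Space F.Sp) (hg : ∀ x, F.O F.g x)
    (hm : SpModel F) (hred : SpRed) (hzq : SpZq) (hzn : SpZn) (hnum : SpNum) (hco : SpCoord)
    (hfr : SpFree) (heq : SpExtQ) (hen : SpExtN) (hno : SpNorm) (hpar : SpParXd) (hcq : SpCanQ)
    (hcn : SpCanN) : SpXd F := by
  have hloc : LocShf (res F.O {x | F.g x = 0}) := xdm_res_loc hcongr _
  have hkey : ∀ x : {x : F.Sp | F.g x = 0},
      (∃ (b e1 e2 : ℕ) (β : Fin 3 → ℤ) (τ : (Fin 3 → ℂ) → {x : F.Sp | F.g x = 0}) (r : ℝ),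
        LQ (res F.O {x | F.g x = 0}) 3 b β x τ r ∧ AgeCond b e1 e2 ∧
        (∀ ζ : ℂ, ζ ^ b = 1 → ∀ k, ζ ^ β k = 1 → ζ = 1) ∧
        (b : ℤ) ∣ β 1 + e1 * β 0 ∧ (b : ℤ) ∣ β 2 + e2 * β 0) ∨
      ∃ τ r, Node (res F.O {x | F.g x = 0}) x τ r := by
    rintro ⟨x, hx⟩
    rcases hm x hx with ⟨b, β, σ, r, hb, hL, hσ⟩ | ⟨σ, r, hL, hσ⟩
    · left
      obtain ⟨h3, hz, e1, e2, hA, hd1, hd2⟩ := hnum b β hb
      obtain ⟨τ, hτ⟩ := hzq F.Sp F.O F.g x hx b β σ r hL h3 hσ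
      exact ⟨b, e1, e2, _, τ, r, hτ, hA, hz, hd1, hd2⟩
    · right
      obtain ⟨τ, hτ⟩ := hzn F.Sp F.O F.g x hx σ r hL hσ
      exact ⟨τ, r, hτ⟩
  refine ⟨?_, ?_, ?_⟩
  · intro x hx f hf hf0
    have h1 : ∃ h, F.O h x ∧ ∀ᶠ y in 𝓝 x, f y = F.g y * h y := by
      rcases hm x hx with ⟨b, β, σ, r, hb, hL, hσ⟩ | ⟨σ, r, hL, hσ⟩
      · refine hred F.Sp F.O F.g x b β σ r hL hg hx ?_ f hf hf0
        filter_upwards [Metric.isOpen_ball.mem_nhds (Metric.mem_ball_self hL.r_pos)] with v hv _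
        have h2 : (F.g ∘ σ) =ᶠ[𝓝 v] fun v => v 3 := by
          filter_upwards [Metric.isOpen_ball.mem_nhds hv] with u hu
          exact hσ u hu
        rw [h2.fderiv_eq]
        exact xdm_d3 v
      · refine hred F.Sp F.O F.g x 1 0 σ r hL hg hx ?_ f hf hf0
        filter_upwards [Metric.isOpen_ball.mem_nhds (Metric.mem_ball_self hL.r_pos)] with v hv h0
        have h2 : (F.g ∘ σ) =ᶠ[𝓝 v] fun v => v 0 * v 2 + v 1 * v 3 := by
          filter_upwards [Metric.isOpen_ball.mem_nhds hv] with u hu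
          exact hσ u hu
        rw [h2.fderiv_eq]
        exact xdm_dq h0
    obtain ⟨h, hh, he⟩ := h1
    refine ⟨h, hh, ?_⟩
    filter_upwards [he] with y hy
    rw [hy, sub_zero]
  · refine hno _ _ hloc fun x => ?_
    rcases hkey x with ⟨b, e1, e2, β, τ, r, hL, hA, hz, -, -⟩ | ⟨τ, r, hN⟩
    · obtain ⟨h1, h2⟩ := xdm_q hco hfr hL hz
      exact ⟨h1, h2, fun f hf => heq _ _ b β x τ r hL f hf⟩
    · obtain ⟨-, -, -, h1, h2⟩ := hpar _ _ x τ r hN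
      exact ⟨h1, h2, fun f hf => hen _ _ x τ r hN f hf⟩
  · intro x
    rcases hkey x with ⟨b, e1, e2, β, τ, r, hL, hA, hz, hd1, hd2⟩ | ⟨τ, r, hN⟩
    · exact hcq _ _ b e1 e2 β x τ r hloc hL hA hz hd1 hd2
    · exact hcn _ _ x τ r hloc hN

end Pool.Agent.KO
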