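import Pool.Agent.KO.Xb.All
import Pool.Agent.KO.Xd.Main
import Pool.Agent.KO.Xd.D1
import Pool.Agent.KO.Xd.D2
import Pool.Agent.KO.Xd.D3
import Pool.Agent.KO.Xd.D4
import Pool.Agent.KO.Xd.D5a
import Pool.Agent.KO.Xd.D5b
import Pool.Agent.KO.Xd.D6
import Pool.Agent.KO.Xd.D7
import Pool.Agent.KO.Xd.D8
import Pool.Agent.KO.Xd.D9
import Pool.Agent.KO.Xd.D10
import Pool.Agent.KO.Xd.D11
import Pool.Agent.KO.Xd.D12
import Pool.Agent.KO.Xd.D13
import Pool.Agent.KO.Xd.D14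
import Pool.Agent.KO.Xd.D15
import Pool.Agent.KO.Xd.D16
import Pool.Agent.KO.Xd.D17
import Pool.Agent.KO.Xd.D18
import Pool.Agent.KO.Xd.D19
import Pool.Agent.KO.Xd.D20
import Pool.Agent.KO.Xd.D21
import Pool.Agent.KO.Xd.D22
import Pool.Agent.KO.Xd.D23
import Pool.Agent.KO.Xd.D25
import Pool.Agent.KO.Xd.D26a
import Pool.Agent.KO.Xd.D26b
import Pool.Agent.KO.Xd.D26c
import Pool.Agent.KO.Xd.D27
import Pool.Agent.KO.Xd.D28

/-!
# Block Xd: all rows together
-/

set_option autoImplicit false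

namespace Pool.Agent.KO

/-- The central fibre has canonical singularities. -/
theorem Flip.canonFib (F : Flip) : CanonFib F.O F.g 0 3 := by
  have hsl : SpSlice := xb3 xb1 xb2
  have h1 := xb7 F F.xaFacts
  have h2 := xb8 F F.xaFacts
  have hdiv : SpDiv := xd7
  have hhad : SpHad F := xd5a F
  have hm : SpModel F := xd6 F F.xaFacts xd1 xd2 xb4 (xd3 F h1 hsl xb5) (xd4 F h2 hsl xb5)
    (xd5b F h2 hsl xb5 hhad)
  have hco : SpCoord := xd11
  have hli : SpLift3 := xd13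
  have hfo : SpForm := xd17 hco hli
  have hfe : SpFext := xd18
  have hpole : SpPole := xd20
  have hpar : SpParXd := xd26a hco
  have hcq : SpCanQ := xd25 hco xd12 hli hfo hfe xd19 (xd22 hpole xd21)
  have hcn : SpCanN := xd27 hpar (xd26c hpar xd26b hco hli hfo) hfe xd19 (xd23 hpole xd21) hco
  exact xd_main F F.xaFacts.shf.congr F.xaFacts.t2 F.xaFacts.hol hm (xd8 hdiv) xd9 xd10 xd28 hco
    xd12 xd14 xd15 (xd16 hco) hpar hcq hcn

end Pool.Agent.KO
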