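import Pool.Agent.KO.Xb.St
import Pool.Agent.KO.C.Dcov

/-!
# Project KO, row D14: extension of functions over quotient points (helper72)
-/

set_option autoImplicit false

namespace Pool.Agent.KO

open Set Filter Topology

theorem xd14_base {X : Type} [TopologicalSpace X] {O : Shf X} {n b : ℕ} {β : Fin n → ℤ} {x : X}
    {σ : (Fin n → ℂ) → X} {r : ℝ} (h : LQ O n b β x σ r) {v : Fin n → ℂ}
    (hv : v ∈ Metric.ball (0 : Fin n → ℂ) r) (hx : σ v = x) : v = 0 := by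
  have h0 : (0 : Fin n → ℂ) ∈ Metric.ball (0 : Fin n → ℂ) r := Metric.mem_ball_self h.r_pos
  obtain ⟨ζ, -, hζ⟩ := (h.fib 0 h0 v hv).1 (by rw [h.base, hx])
  rw [hζ]
  funext i
  simp [dact]

theorem xd14 : SpExtQ := by
  classical
  intro X _ O b β x σ r h f hf
  have h0 : (0 : Fin 3 → ℂ) ∈ Metric.ball (0 : Fin 3 → ℂ) r := Metric.mem_ball_self h.r_pos
  have hball : ∀ᶠ v in 𝓝 (0 : Fin 3 → ℂ), v ∈ Metric.ball (0 : Fin 3 → ℂ) r :=
    Metric.isOpen_ball.mem_nhds h0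
  have hmap : map σ (𝓝 0) = 𝓝 x := by
    rw [h.nhds 0 h0, h.base]
  have h1 : ∀ᶠ v in 𝓝 (0 : Fin 3 → ℂ), σ v ≠ x → O f (σ v) := by
    rw [← hmap] at hf
    exact hf
  have h2 : ∀ᶠ v in 𝓝 (0 : Fin 3 → ℂ), v ≠ 0 → AnalyticAt ℂ (f ∘ σ) v := by
    filter_upwards [h1, hball] with v hv hb hne
    exact (h.hol v hb f).1 (hv fun hx => hne (xd14_base h hb hx))
  obtain ⟨G, hG, hGf⟩ := C.hartogs_point (i := (0 : Fin 3)) (j := 1) (by decide) h2
  refine ⟨fun y => if y = x then G 0 else f y, ?_, Eventually.of_forall fun y hy => if_neg hy⟩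
  have h3 : ((fun y => if y = x then G 0 else f y) ∘ σ) =ᶠ[𝓝 0] G := by
    filter_upwards [hGf, hball] with v hv hb
    change (if σ v = x then G 0 else f (σ v)) = G v
    by_cases hv0 : v = 0
    · rw [hv0, h.base, if_pos rfl]
    · rw [if_neg fun hx => hv0 (xd14_base h hb hx), hv hv0]
      rfl
  have h4 := (h.hol 0 h0 (fun y => if y = x then G 0 else f y)).2 (hG.congr h3.symm)
  rw [h.base] at h4
  exact h4

end Pool.Agent.KO
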