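import Pool.Agent.KO.Xb.St

/-!
# Row D24: smooth points are canonical
-/

set_option autoImplicit false

namespace Pool.Agent.KO

open Set Filter Topology

variable {X : Type} [TopologicalSpace X] {O : Shf X}

/-- The parametrisation of a smooth point is injective. -/
theorem xd24_inj {x : X} {σ : (Fin 3 → ℂ) → X} {r : ℝ} (h : LQ O 3 1 0 x σ r)
    {v v' : Fin 3 → ℂ} (hv : v ∈ Metric.ball (0 : Fin 3 → ℂ) r)
    (hv' : v' ∈ Metric.ball (0 : Fin 3 → ℂ) r) (he : σ v = σ v') : v' = v := by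
  obtain ⟨ζ, -, h1⟩ := (h.fib v hv v' hv').1 he
  rw [h1]
  funext k
  simp [dact]

theorem xd24_open {D : Set (Fin 3 → ℂ)} {τ : (Fin 3 → ℂ) → X} (h : LPar O D τ) :
    IsOpen (τ '' D) := by
  rw [isOpen_iff_mem_nhds]
  rintro _ ⟨v, hv, rfl⟩
  rw [← h.nhds v hv]
  exact Filter.mem_map.2 (Filter.mem_of_superset (h.isOpen.mem_nhds hv) (subset_preimage_image τ D))

theorem xd24 (hco : SpCoord) (hfr : SpFree) (hfo : SpForm) (hpu : SpPull) : SpCanS := by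
  rintro X _ O x hO ⟨σ, r, h⟩
  have hpar : LPar O (Metric.ball 0 r) σ := by
    refine (hfr X O 1 0 x σ r h ?_).2 rfl
    intro ζ hζ _ _
    rwa [pow_one] at hζ
  obtain ⟨θ, hθ, -⟩ := hfo X O 1 Unit (fun _ => Metric.ball 0 r) (fun _ => σ) (fun _ _ => 1) hO
    (fun _ => hpar) (fun _ v _ => ⟨analyticAt_const, one_ne_zero⟩) (by
      intro _ _ v hv v' hv' Ψ hΨ hΨv hσ
      have hc : ∀ᶠ u in 𝓝 v, Ψ u ∈ Metric.ball (0 : Fin 3 → ℂ) r := by
        refine hΨ.continuousAt.eventually ?_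
        rw [hΨv]
        exact Metric.isOpen_ball.mem_nhds hv'
      have hid : Ψ =ᶠ[𝓝 v] id := by
        filter_upwards [hc, hσ, Metric.isOpen_ball.mem_nhds hv] with u hu1 hu2 hu3
        exact xd24_inj h hu3 hu1 hu2.symm
      have hdet : (fderiv ℂ Ψ v).det = 1 := by
        rw [hid.fderiv_eq, fderiv_id]
        show LinearMap.det ((ContinuousLinearMap.id ℂ (Fin 3 → ℂ) :
          (Fin 3 → ℂ) →L[ℂ] (Fin 3 → ℂ)) : (Fin 3 → ℂ) →ₗ[ℂ] (Fin 3 → ℂ)) = 1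
        rw [ContinuousLinearMap.coe_id]
        exact LinearMap.det_id
      show (1 : ℂ) = 1 * (fderiv ℂ Ψ v).det ^ 1
      rw [hdet]
      norm_num)
  have hV : IsOpen (⋃ _ : Unit, σ '' Metric.ball 0 r) := isOpen_iUnion fun _ => xd24_open hpar
  refine ⟨1, ⋃ _ : Unit, σ '' Metric.ball 0 r, le_rfl, hV, ?_, θ, hθ, ?_⟩
  · exact mem_iUnion.2 ⟨(), 0, Metric.mem_ball_self h.r_pos, h.base⟩
  · intro B φ hB hφ hcl
    obtain ⟨-, h0, -, himp⟩ := hpu X O 1 _ θ B φ hO hV hB hφ hcl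
    refine himp ?_
    intro b0 hb0 hreg
    exfalso
    obtain ⟨_, v, hv, hvφ⟩ := mem_iUnion.1 (hφ b0 hb0).1
    obtain ⟨-, ⟨c, hc, -⟩, -⟩ := hco X O _ σ hpar v hv
    rw [hvφ] at hc
    exact hreg ⟨c, hc⟩

end Pool.Agent.KO
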